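import Pool.Agent.H75.TA.StShift

/-!
# TA module StPos: half stations and ports have positive probability
-/

open MeasureTheory Filter Topology
open Pool.Agent.H17.IIC Pool.Agent.H41.QC Pool.Agent.H47.GM Pool.Agent.H17.QA Pool.Agent.H41.QA

namespace Pool.Agent.H75.TA

variable {n : ℕ} {κ : Kind} {p : unitInterval} {u : V (n + 2)} {K : ℕ}

/-- all elements of a finite set are open -/
private lemma StPos_open {ι : Type*} (p : unitInterval) (E : Finset ι) :
    (prodBern ι p).real {ω | ∀ e ∈ E, ω e = true} = (p : ℝ) ^ E.card := by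
  have h1 : {ω : ι → Bool | ∀ e ∈ E, ω e = true} = Set.pi (E : Set ι) (fun _ => {true}) := by
    ext ω; simp [Set.mem_pi]
  have h2 : bern p {true} = ENNReal.ofReal (p : ℝ) := by
    simp [bern]
  rw [h1, measureReal_def, prodBern, Measure.infinitePi_pi (μ := fun _ : ι => bern p)
    (fun i _ => MeasurableSet.singleton _), Finset.prod_congr rfl (fun i _ => h2),
    Finset.prod_const, ENNReal.toReal_pow, ENNReal.toReal_ofReal p.2.1]

/-- finitely many elements are open with positive probability -/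
theorem full_pos {ι : Type*} (hp : 0 < (p : ℝ)) {E : Set ι} (hE : E.Finite) :
    0 < (prodBern ι p).real {ω | ∀ e ∈ E, ω e = true} := by
  have h := StPos_open p hE.toFinset
  simp only [Set.Finite.mem_toFinset] at h
  rw [h]
  positivity

lemma StPos_on {ι : Type*} (E : Set ι) : On E {ω : ι → Bool | ∀ e ∈ E, ω e = true} := by
  intro ω ω' h
  constructor
  · intro h1 e he
    rw [← h e he]; exact h1 e he
  · intro h1 e he
    rw [h e he]; exact h1 e he

lemma StPos_meas {ι : Type*} {E : Set ι} (hE : E.Finite) :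
    MeasurableSet {ω : ι → Bool | ∀ e ∈ E, ω e = true} := by
  apply On.measurableSet (Λ := hE.toFinset)
  rw [Set.Finite.coe_toFinset]
  exact StPos_on E

/-- `HB` full (depends on `HB`) and the resampling condition (depends on the complement) are
independent; use `half_prob` -/
theorem st_pos (RS : RoadSys κ (n + 2) p) (A : Axis u K) (hp : 0 < (p : ℝ)) (r : ℕ) (σ m : ℤ)
    (J : Set ℤ) (h : (prodBern (El (n + 2)) p).real (Rg RS A r σ m J)ᶜ ≤ 1 / 4) :
    0 < (prodBern (El (n + 2)) p).real (St RS A r σ m J) := by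
  have h1 : St RS A r σ m J = {ω | ∀ e ∈ HB u r σ m, ω e = true} ∩
      {ω | 1 / 2 ≤ (prodBern (El (n + 2)) p).real {x | mix (HB u r σ m) x ω ∈ Rg RS A r σ m J}} := by
    rfl
  have hon : On (HB u r σ m)ᶜ {ω : El (n + 2) → Bool |
      1 / 2 ≤ (prodBern (El (n + 2)) p).real {x | mix (HB u r σ m) x ω ∈ Rg RS A r σ m J}} := by
    intro ω ω' hω
    have h2 : ∀ x : El (n + 2) → Bool, mix (HB u r σ m) x ω = mix (HB u r σ m) x ω' := by
      intro x
      funext e
      by_cases he : e ∈ HB u r σ m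
      · rw [mix_in _ _ he, mix_in _ _ he]
      · rw [mix_out _ _ he, mix_out _ _ he]
        exact hω e he
    simp only [Set.mem_ofPred_eq, h2]
  have hmu := mu_indep (fun _ : El (n + 2) => p) (HB u r σ m) (StPos_meas (hb_finite u r σ m))
    (half_meas p (HB u r σ m) (rg_meas RS A r σ m J)) (StPos_on _) hon
  rw [mu_const] at hmu
  rw [h1, hmu]
  have h3 := half_prob p (HB u r σ m) (rg_meas RS A r σ m J) h
  exact mul_pos (full_pos hp (hb_finite u r σ m)) (by linarith)

lemma StPos_sing {ι : Type*} (i : ι) : On {i} {ω : ι → Bool | ω i = true} := by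
  intro ω ω' h
  have := h i rfl
  simp only [Set.mem_ofPred_eq, this]

lemma StPos_sing_meas {ι : Type*} (i : ι) : MeasurableSet {ω : ι → Bool | ω i = true} := by
  have : {ω : ι → Bool | ω i = true} = {ω : ι → Bool | ∀ e ∈ ({i} : Set ι), ω e = true} := by
    ext ω; simp
  rw [this]
  exact StPos_meas (Set.finite_singleton i)

theorem port_meas (RS : RoadSys κ (n + 2) p) (A : Axis u K) (r : ℕ) :
    MeasurableSet (Port RS A r) :=
  ((st_meas RS A r 1 0 _).inter (st_meas RS A r (-1) 0 _)).inter (StPos_sing_meas _)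

theorem port_pos (RS : RoadSys κ (n + 2) p) (A : Axis u K) (hp : 0 < (p : ℝ)) {r : ℕ} (hr : 1 ≤ r)
    (hu : 100 * (r : ℤ) ≤ u 0) (h : ∀ σ : ℤ, (σ = 1 ∨ σ = -1) →
      (prodBern (El (n + 2)) p).real (Rg RS A r σ 0 Set.univ)ᶜ ≤ 1 / 4) :
    0 < (prodBern (El (n + 2)) p).real (Port RS A r) := by
  have hs1 := st_pos RS A hp r 1 0 Set.univ (h 1 (Or.inl rfl))
  have hs2 := st_pos RS A hp r (-1) 0 Set.univ (h (-1) (Or.inr rfl))
  have hon1 := st_front RS A hr hu (σ := 1) (Or.inl rfl) 0 Set.univ
  have hon2 := st_front RS A hr hu (σ := -1) (Or.inr rfl) 0 Set.univ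
  -- the two fronts are disjoint
  have hd12 : Front u (-1) 0 ⊆ (Front u 1 0)ᶜ := by
    rintro e ⟨h1, v, hv, h2⟩ ⟨h3, -⟩
    have h4 := h3 v hv
    simp only [zero_mul, sub_zero, one_mul] at h4
    simp only [zero_mul, sub_zero] at h2
    linarith
  have hd3 : ∀ σ : ℤ, (s((0 : V (n + 2)), 0) : El (n + 2)) ∉ Front u σ 0 := by
    rintro σ ⟨-, v, hv, h2⟩
    have h3 : v = 0 := by
      rw [Sym2.mem_iff] at hv
      rcases hv with hv | hv <;> exact hv
    rw [h3] at h2
    simp at h2
  have hm1 := st_meas RS A r 1 0 Set.univ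
  have hm2 := st_meas RS A r (-1) 0 Set.univ
  have hind12 := mu_indep (fun _ : El (n + 2) => p) (Front u 1 0) hm1 hm2 hon1 (hon2.mono hd12)
  have hon12 : On ({s((0 : V (n + 2)), 0)} : Set (El (n + 2)))ᶜ
      (St RS A r 1 0 Set.univ ∩ St RS A r (-1) 0 Set.univ) := by
    intro ω ω' hω
    have h5 := hon1 ω ω' (fun e he => hω e (by
      rintro rfl
      exact hd3 1 he))
    have h6 := hon2 ω ω' (fun e he => hω e (by
      rintro rfl
      exact hd3 (-1) he))
    rw [Set.mem_inter_iff, Set.mem_inter_iff, h5, h6]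
  have hind := mu_indep (fun _ : El (n + 2) => p) ({s((0 : V (n + 2)), 0)} : Set (El (n + 2)))
    (StPos_sing_meas _) (hm1.inter hm2) (StPos_sing _) hon12
  rw [mu_const] at hind12 hind
  have h7 : 0 < (prodBern (El (n + 2)) p).real {ω | ω s((0 : V (n + 2)), 0) = true} := by
    have h8 := full_pos (p := p) hp (Set.finite_singleton (s((0 : V (n + 2)), 0) : El (n + 2)))
    simpa using h8
  unfold Port
  rw [Set.inter_comm, hind, hind12]
  exact mul_pos h7 (mul_pos hs1 hs2)

theorem tr_iter (u : V (n + 2)) (k : ℕ) (ω : El (n + 2) → Bool) :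
    (tr (fun y => y + u))^[k] ω = tr (fun y => y + (k : ℤ) • u) ω := by
  induction k generalizing ω with
  | zero =>
    funext e
    simp only [Function.iterate_zero, id_eq, tr]
    have : (fun y : V (n + 2) => y + ((0 : ℕ) : ℤ) • u) = id := by
      funext y
      simp
    rw [this, Sym2.map_id]
    rfl
  | succ k ih =>
    rw [Function.iterate_succ_apply, ih]
    funext e
    simp only [tr, Sym2.map_map]
    congr 2
    funext y
    simp only [Function.comp_apply]
    push_cast
    rw [add_smul, one_smul, add_assoc]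

theorem port_iter (RS : RoadSys κ (n + 2) p) (A : Axis u K) (hL : ∀ i, (RS.L : ℤ) ∣ u i) (r : ℕ)
    (k : ℕ) (ω : El (n + 2) → Bool) : (tr (fun y => y + u))^[k] ω ∈ Port RS A r ↔
      ω ∈ St RS A r 1 k Set.univ ∧ ω ∈ St RS A r (-1) k Set.univ ∧
        ω s(((k : ℤ) • u), ((k : ℤ) • u)) = true := by
  rw [tr_iter]
  unfold Port
  rw [Set.mem_inter_iff, Set.mem_inter_iff, ← st_shift RS A hL r 1 k 0, ← st_shift RS A hL r (-1) k 0,
    add_zero, and_assoc]
  refine and_congr_right fun _ => and_congr_right fun _ => ?_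
  simp [tr, Sym2.map_mk]

end Pool.Agent.H75.TA
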