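import Pool.Agent.H75.TA.Ind
import Pool.Agent.H75.TA.StPos

/-!
# TA module AModP: augmented modules occur infinitely often
-/

open MeasureTheory Filter Topology
open Pool.Agent.H17.IIC Pool.Agent.H41.QC Pool.Agent.H47.GM Pool.Agent.H17.QA Pool.Agent.H41.QA

namespace Pool.Agent.H75.TA

variable {n : ℕ} {κ : Kind} {p : unitInterval} {u : V (n + 2)} {K : ℕ}

/-- openness of a list inside `A` depends only on the elements inside `A` -/
theorem amp_opn (κ : Kind) {d : ℕ} {A : Set (V d)} {ω ω' : El d → Bool}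
    (h : ∀ e ∈ InE A, ω e = ω' e) (l : List (V d)) (hl : ∀ v ∈ l, v ∈ A) :
    Opn κ ω l → Opn κ ω' l := by
  cases κ with
  | bond =>
    intro ho
    induction l with
    | nil => exact List.isChain_nil
    | cons a l ih =>
      cases l with
      | nil => exact List.isChain_singleton _
      | cons b l =>
        have ho' : (ω s(a, b) = true) ∧
            List.IsChain (fun a b => ω s(a, b) = true) (b :: l) := by
          exact List.isChain_cons_cons.1 ho
        have h1 : a ∈ A := hl a (by simp)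
        have h2 : b ∈ A := hl b (by simp)
        refine List.isChain_cons_cons.2 ⟨?_, ih (fun v hv => hl v (by simp [hv])) ho'.2⟩
        rw [← h s(a, b) ?_]
        · exact ho'.1
        · intro v hv
          rcases Sym2.mem_iff.1 hv with rfl | rfl
          · exact h1
          · exact h2
  | site =>
    intro ho a ha
    have := ho a ha
    rw [← h s(a, a) ?_]
    · exact this
    · intro v hv
      rcases Sym2.mem_iff.1 hv with rfl | rfl <;> exact hl _ ha

theorem amp_fam (κ : Kind) {d : ℕ} {A : Set (V d)} {ω ω' : El d → Bool}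
    (h : ∀ e ∈ InE A, ω e = ω' e) (x y : V d) (N : ℕ) :
    Fam κ ω A x y N = Fam κ ω' A x y N := by
  ext l
  constructor
  · rintro ⟨h1, h2, h3, h4, h5⟩
    exact ⟨⟨h1.nodup, h1.chain, amp_opn κ h l h5 h1.opn⟩, h2, h3, h4, h5⟩
  · rintro ⟨h1, h2, h3, h4, h5⟩
    exact ⟨⟨h1.nodup, h1.chain, amp_opn κ (fun e he => (h e he).symm) l h5 h1.opn⟩, h2, h3, h4, h5⟩

theorem amp_mod_inE (κ : Kind) (b c C₁ : ℝ) (u : V (n + 2)) (α β : ℕ) :
    On (InE (slab C₁ u α β)) (Mod κ b c C₁ u α β) := by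
  intro ω ω' h
  have hz : ∀ N, Zc κ ω (slab C₁ u α β) ((α : ℤ) • u) ((β : ℤ) • u) N =
      Zc κ ω' (slab C₁ u α β) ((α : ℤ) • u) ((β : ℤ) • u) N := by
    intro N
    unfold Zc
    rw [amp_fam κ h]
  constructor
  · rintro ⟨N, hN⟩
    exact ⟨N, by rw [← hz N]; exact hN⟩
  · rintro ⟨N, hN⟩
    exact ⟨N, by rw [hz N]; exact hN⟩

theorem amp_slab_fin (C₁ : ℝ) (u : V (n + 2)) (α β : ℕ) : (slab C₁ u α β).Finite := by
  obtain ⟨M, hM⟩ := exists_nat_ge (C₁ * β)
  refine Set.Finite.subset (Finset.finite_toSet (Bx (0 : V (n + 2)) M)) ?_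
  rintro x ⟨-, -, hx⟩
  rw [Finset.mem_coe, mem_Bx]
  intro i
  have := (hx i).trans hM
  have h2 : (|x i| : ℝ) ≤ ((M : ℤ) : ℝ) := by push_cast; exact this
  have h3 : |x i| ≤ (M : ℤ) := by exact_mod_cast h2
  simpa using h3

theorem amp_inE_fin {d : ℕ} {A : Set (V d)} (hA : A.Finite) : (InE A).Finite := by
  have h1 : ((fun q : V d × V d => s(q.1, q.2)) '' (A ×ˢ A)).Finite := (hA.prod hA).image _
  refine h1.subset ?_
  intro e he
  induction e using Sym2.ind with
  | _ a b =>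
    exact ⟨(a, b), ⟨he a (by simp), he b (by simp)⟩, rfl⟩

theorem mod_meas (κ : Kind) (b c C₁ : ℝ) (u : V (n + 2)) (α β : ℕ) :
    MeasurableSet (Mod κ b c C₁ u α β) := by
  have hf := amp_inE_fin (amp_slab_fin C₁ u α β)
  apply On.measurableSet (Λ := hf.toFinset)
  rw [hf.coe_toFinset]
  exact amp_mod_inE κ b c C₁ u α β

theorem mod_on (κ : Kind) (b c C₁ : ℝ) (u : V (n + 2)) (α β : ℕ) :
    On (InE {v : V (n + 2) | (α : ℤ) * u 0 ≤ v 0 ∧ v 0 ≤ (β : ℤ) * u 0}) (Mod κ b c C₁ u α β) := by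
  refine (amp_mod_inE κ b c C₁ u α β).mono ?_
  intro e he v hv
  exact ⟨(he v hv).1, (he v hv).2.1⟩

theorem amod_meas (RS : RoadSys κ (n + 2) p) (A : Axis u K) (r : ℕ) (b c C₁ : ℝ) (α β : ℕ) :
    MeasurableSet (AMod RS A r b c C₁ α β) :=
  ((st_meas RS A r (-1) α _).inter (mod_meas κ b c C₁ u α β)).inter (st_meas RS A r 1 β _)

/-- the three events are independent -/
theorem amod_prob (RS : RoadSys κ (n + 2) p) (A : Axis u K) (hL : ∀ i, (RS.L : ℤ) ∣ u i) {r : ℕ}
    (hr : 1 ≤ r) (hu : 100 * (r : ℤ) ≤ u 0) (b c C₁ : ℝ) {α β : ℕ} (hab : α ≤ β) :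
    (prodBern (El (n + 2)) p).real (St RS A r (-1) 0 Set.univ) *
      (prodBern (El (n + 2)) p).real (Mod κ b c C₁ u α β) *
      (prodBern (El (n + 2)) p).real (St RS A r 1 0 Set.univ) ≤
    (prodBern (El (n + 2)) p).real (AMod RS A r b c C₁ α β) := by
  have hu0 : (0 : ℤ) < u 0 := by
    have : (1 : ℤ) ≤ r := by exact_mod_cast hr
    linarith
  have hab' : (α : ℤ) * u 0 ≤ (β : ℤ) * u 0 :=
    mul_le_mul_of_nonneg_right (by exact_mod_cast hab) hu0.le
  rw [← st_prob RS A hL r (-1) α Set.univ, ← st_prob RS A hL r 1 β Set.univ]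
  have o1 := st_front RS A hr hu (σ := -1) (Or.inr rfl) α Set.univ
  have o3 := st_front RS A hr hu (σ := 1) (Or.inl rfl) β Set.univ
  have o2 := mod_on κ b c C₁ u α β
  have i1 : (prodBern (El (n + 2)) p).real
      (St RS A r (-1) α Set.univ ∩ Mod κ b c C₁ u α β) =
      (prodBern (El (n + 2)) p).real (St RS A r (-1) α Set.univ) *
        (prodBern (El (n + 2)) p).real (Mod κ b c C₁ u α β) := by
    refine mu_indep (fun _ => p) (Front u (-1) α) (st_meas RS A r (-1) α _)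
      (mod_meas κ b c C₁ u α β) o1 (o2.mono ?_)
    intro e he hf
    obtain ⟨v, hv, hv2⟩ := hf.2
    have := (he v hv).1
    linarith
  have i2 : (prodBern (El (n + 2)) p).real
      (St RS A r (-1) α Set.univ ∩ Mod κ b c C₁ u α β ∩ St RS A r 1 β Set.univ) =
      (prodBern (El (n + 2)) p).real (St RS A r (-1) α Set.univ ∩ Mod κ b c C₁ u α β) *
        (prodBern (El (n + 2)) p).real (St RS A r 1 β Set.univ) := by
    refine mu_indep (fun _ => p) (Front u 1 β)ᶜ ((st_meas RS A r (-1) α _).inter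
      (mod_meas κ b c C₁ u α β)) (st_meas RS A r 1 β _) ?_ ?_
    · have a1 : On (Front u 1 β)ᶜ (St RS A r (-1) α Set.univ) := by
        refine o1.mono ?_
        intro e he hf
        obtain ⟨v, hv, hv2⟩ := hf.2
        have := he.1 v hv
        linarith
      have a2 : On (Front u 1 β)ᶜ (Mod κ b c C₁ u α β) := by
        refine o2.mono ?_
        intro e he hf
        obtain ⟨v, hv, hv2⟩ := hf.2
        have := (he v hv).2
        linarith
      intro ω ω' h
      exact and_congr (a1 ω ω' h) (a2 ω ω' h)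
    · rw [compl_compl]
      exact o3
  rw [← i1, ← i2]
  refine measureReal_mono ?_ (measure_ne_top _ _)
  rintro ω ⟨⟨h1, h2⟩, h3⟩
  exact ⟨⟨st_mono RS A r (-1) α (Set.subset_univ _) h1, h2⟩,
    st_mono RS A r 1 β (Set.subset_univ _) h3⟩

theorem amod_on (RS : RoadSys κ (n + 2) p) (A : Axis u K) {r : ℕ} (hr : 1 ≤ r)
    (hu : 100 * (r : ℤ) ≤ u 0) (b c C₁ : ℝ) {α β : ℕ} (h1 : 1 ≤ α) (hab : α ≤ β) :
    On {e | ∀ v ∈ e, 7 * (α * u 0) ≤ 16 * v 0 ∧ 16 * v 0 ≤ 25 * (β * u 0)}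
      (AMod RS A r b c C₁ α β) := by
  have hu0 : (0 : ℤ) < u 0 := by
    have : (1 : ℤ) ≤ r := by exact_mod_cast hr
    linarith
  have hab' : (α : ℤ) * u 0 ≤ (β : ℤ) * u 0 :=
    mul_le_mul_of_nonneg_right (by exact_mod_cast hab) hu0.le
  have ha' : u 0 ≤ (α : ℤ) * u 0 := by
    have : (1 : ℤ) ≤ α := by exact_mod_cast h1
    nlinarith
  have o1 := (st_bd RS A hr hu (σ := -1) (Or.inr rfl) α (J := {h | 2 * h ≤ α * u 0})
    (H := α * u 0) ha' (fun h hh => hh))
  have o3 := (st_bd RS A hr hu (σ := 1) (Or.inl rfl) β (J := {h | 2 * h ≤ β * u 0})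
    (H := β * u 0) (ha'.trans hab') (fun h hh => hh))
  have o2 := mod_on κ b c C₁ u α β
  have a1 : On {e : El (n + 2) | ∀ v ∈ e, 7 * (α * u 0) ≤ 16 * v 0 ∧ 16 * v 0 ≤ 25 * (β * u 0)}
      (St RS A r (-1) α {h | 2 * h ≤ α * u 0}) := by
    refine o1.mono ?_
    intro e he v hv
    have := he v hv
    constructor <;> linarith [this.1, this.2]
  have a3 : On {e : El (n + 2) | ∀ v ∈ e, 7 * (α * u 0) ≤ 16 * v 0 ∧ 16 * v 0 ≤ 25 * (β * u 0)}
      (St RS A r 1 β {h | 2 * h ≤ β * u 0}) := by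
    refine o3.mono ?_
    intro e he v hv
    have := he v hv
    constructor <;> linarith [this.1, this.2]
  have a2 : On {e : El (n + 2) | ∀ v ∈ e, 7 * (α * u 0) ≤ 16 * v 0 ∧ 16 * v 0 ≤ 25 * (β * u 0)}
      (Mod κ b c C₁ u α β) := by
    refine o2.mono ?_
    intro e he v hv
    have := he v hv
    constructor <;> linarith [this.1, this.2]
  intro ω ω' h
  exact and_congr (and_congr (a1 ω ω' h) (a2 ω ω' h)) (a3 ω ω' h)

theorem amp_le {c₀ c : ℝ} {α β : ℕ → ℕ} (hs : ModSeq c₀ c u α β) {k l : ℕ} (h : k < l) :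
    4 * β k ≤ α l := by
  induction l with
  | zero => omega
  | succ l ih =>
    rcases Nat.lt_succ_iff_lt_or_eq.1 h with h1 | rfl
    · have a := ih h1
      have b := hs.sparse l
      have c := (hs.pos l).2
      omega
    · exact hs.sparse k

theorem amod_io (RS : RoadSys κ (n + 2) p) (A : Axis u K) (hL : ∀ i, (RS.L : ℤ) ∣ u i)
    (hp : 0 < (p : ℝ)) {r : ℕ} (hr : 1 ≤ r) (hu : 100 * (r : ℤ) ≤ u 0)
    (h : ∀ σ : ℤ, (σ = 1 ∨ σ = -1) →
      (prodBern (El (n + 2)) p).real (Rg RS A r σ 0 Set.univ)ᶜ ≤ 1 / 4)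
    {b c c₀ C₁ : ℝ} {α β : ℕ → ℕ} (hs : ModSeq c₀ c u α β)
    (hns : ¬ Summable fun k => (prodBern (El (n + 2)) p).real (Mod κ b c C₁ u (α k) (β k))) :
    ∀ᵐ ω ∂(prodBern (El (n + 2)) p), ∃ᶠ k in atTop, ω ∈ AMod RS A r b c C₁ (α k) (β k) := by
  have hu0 : (0 : ℤ) < u 0 := by
    have : (1 : ℤ) ≤ r := by exact_mod_cast hr
    linarith
  refine bc2 p (fun k => AMod RS A r b c C₁ (α k) (β k))
    (fun k => {e : El (n + 2) | ∀ v ∈ e, 7 * (α k * u 0) ≤ 16 * v 0 ∧
      16 * v 0 ≤ 25 * (β k * u 0)}) ?_ ?_ ?_ ?_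
  · intro k l hkl
    rw [Set.disjoint_left]
    intro e he he'
    induction e using Sym2.ind with
    | _ x y =>
      have a1 := (he x (by simp)).2
      have a2 := (he' x (by simp)).1
      have a3 : 4 * (β k : ℤ) ≤ α l := by exact_mod_cast amp_le hs hkl
      have a4 : (1 : ℤ) ≤ β k := by
        have := (hs.pos k)
        have : 1 ≤ β k := by omega
        exact_mod_cast this
      have a5 : 4 * (β k : ℤ) * u 0 ≤ α l * u 0 := mul_le_mul_of_nonneg_right a3 hu0.le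
      have a6 : 0 < (β k : ℤ) * u 0 := mul_pos (by linarith) hu0
      nlinarith
  · intro k
    exact amod_on RS A hr hu b c C₁ (hs.pos k).1 (hs.pos k).2.le
  · intro k
    exact amod_meas RS A r b c C₁ (α k) (β k)
  · intro hsum
    apply hns
    have p1 := st_pos RS A hp r (-1) 0 Set.univ (h (-1) (Or.inr rfl))
    have p2 := st_pos RS A hp r 1 0 Set.univ (h 1 (Or.inl rfl))
    set q1 := (prodBern (El (n + 2)) p).real (St RS A r (-1) 0 Set.univ) with hq1
    set q2 := (prodBern (El (n + 2)) p).real (St RS A r 1 0 Set.univ) with hq2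
    have hq : 0 < q1 * q2 := mul_pos p1 p2
    refine Summable.of_nonneg_of_le (fun k => measureReal_nonneg) (fun k => ?_)
      (hsum.mul_left (q1 * q2)⁻¹)
    have := amod_prob RS A hL hr hu b c C₁ (hs.pos k).2.le
    rw [← hq1, ← hq2] at this
    rw [inv_mul_eq_div, le_div_iff₀ hq]
    calc _ = q1 * (prodBern (El (n + 2)) p).real (Mod κ b c C₁ u (α k) (β k)) * q2 := by ring
      _ ≤ _ := this

end Pool.Agent.H75.TA
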