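import Pool.Agent.H47.GM.Aut

/-!
# TA module Avg: averaging over the configuration on a set of elements

`mix E x ω` is `x` on `E` and `ω` off `E`; `avg p E f ω` is the mean of `f (mix E x ω)` over `x`.
-/

open MeasureTheory Filter Topology
open Pool.Agent.H17.IIC Pool.Agent.H41.QC Pool.Agent.H47.GM

namespace Pool.Agent.H75.TA

variable {ι : Type*}

open Classical in
/-- `x` on `E`, `ω` off `E` -/
noncomputable def mix (E : Set ι) (x ω : ι → Bool) : ι → Bool := fun i => if i ∈ E then x i else ω i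

/-- mean over the configuration on `E` -/
noncomputable def avg (p : unitInterval) (E : Set ι) (f : (ι → Bool) → ENNReal)
    (ω : ι → Bool) : ENNReal :=
  ∫⁻ x, f (mix E x ω) ∂(prodBern ι p)

lemma mix_in' {E : Set ι} {i : ι} (h : i ∈ E) (x ω : ι → Bool) : mix E x ω i = x i := by
  unfold mix; rw [if_pos h]

lemma mix_out' {E : Set ι} {i : ι} (h : i ∉ E) (x ω : ι → Bool) : mix E x ω i = ω i := by
  unfold mix; rw [if_neg h]

lemma mix_meas (E : Set ι) :
    Measurable (fun z : (ι → Bool) × (ι → Bool) => mix E z.1 z.2) :=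
  mu_measurable_mix E

lemma mix_meas_left (E : Set ι) (ω : ι → Bool) : Measurable (fun x => mix E x ω) :=
  (mix_meas E).comp (measurable_id.prodMk measurable_const)

lemma mix_meas_right (E : Set ι) (x : ι → Bool) : Measurable (fun ω => mix E x ω) :=
  (mix_meas E).comp (measurable_const.prodMk measurable_id)

/-- the law of the mixed configuration -/
theorem mix_law (p : unitInterval) (E : Set ι) :
    ((prodBern ι p).prod (prodBern ι p)).map (fun z => mix E z.1 z.2) = prodBern ι p :=
  mu_mix (fun _ : ι => p) E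

theorem avg_meas (p : unitInterval) (E : Set ι) {f : (ι → Bool) → ENNReal} (hf : Measurable f) :
    Measurable (avg p E f) :=
  Measurable.lintegral_prod_left' (hf.comp (mix_meas E))

theorem avg_lint (p : unitInterval) (E : Set ι) {f : (ι → Bool) → ENNReal} (hf : Measurable f) :
    ∫⁻ ω, avg p E f ω ∂(prodBern ι p) = ∫⁻ ω, f ω ∂(prodBern ι p) := by
  conv_rhs => rw [← mix_law p E]
  rw [lintegral_map hf (mix_meas E)]
  exact (lintegral_prod_symm' (fun z : (ι → Bool) × (ι → Bool) => f (mix E z.1 z.2))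
    (hf.comp (mix_meas E))).symm

theorem avg_mono (p : unitInterval) (E : Set ι) {f g : (ι → Bool) → ENNReal}
    (h : ∀ ω, f ω ≤ g ω) (ω : ι → Bool) : avg p E f ω ≤ avg p E g ω :=
  lintegral_mono fun _ => h _

theorem avg_on (p : unitInterval) (E D : Set ι) {f : (ι → Bool) → ENNReal}
    (hf : ∀ ω ω' : ι → Bool, (∀ i ∈ D, ω i = ω' i) → f ω = f ω') {ω ω' : ι → Bool}
    (h : ∀ i ∈ D \ E, ω i = ω' i) : avg p E f ω = avg p E f ω' := by
  unfold avg
  congr 1
  funext x
  apply hf
  intro i hi
  by_cases hE : i ∈ E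
  · rw [mix_in' hE, mix_in' hE]
  · rw [mix_out' hE, mix_out' hE]
    exact h i ⟨hi, hE⟩

/-- a set of positive probability contains a point where a function is at most twice its mean -/
theorem avg_sel (p : unitInterval) (E : Set ι) {f : (ι → Bool) → ENNReal} (hf : Measurable f)
    {S : Set (ι → Bool)} (hS : MeasurableSet S) {ω : ι → Bool}
    (h : 1 / 2 ≤ (prodBern ι p).real {x | mix E x ω ∈ S}) :
    ∃ x, mix E x ω ∈ S ∧ f (mix E x ω) ≤ 2 * avg p E f ω := by
  set μ := prodBern ι p with hμ
  set S' : Set (ι → Bool) := {x | mix E x ω ∈ S} with hS'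
  have hS'm : MeasurableSet S' := (mix_meas_left E ω) hS
  have hpos : μ S' ≠ 0 := by
    intro h0
    rw [measureReal_def, h0] at h
    norm_num at h
  have hhalf : (2 : ENNReal)⁻¹ ≤ μ S' := by
    have h1 : ENNReal.ofReal (1 / 2) ≤ μ S' := by
      rw [ENNReal.ofReal_le_iff_le_toReal (measure_ne_top _ _)]
      exact h
    refine le_trans (le_of_eq ?_) h1
    rw [ENNReal.ofReal_div_of_pos (by norm_num)]
    simp
  set g : (ι → Bool) → ENNReal := fun x => f (mix E x ω) with hg
  have havg : avg p E f ω = ∫⁻ x, g x ∂μ := rfl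
  have hgm : Measurable g := hf.comp (mix_meas_left E ω)
  obtain ⟨x, hx, hle⟩ := exists_le_setLAverage hpos (measure_ne_top μ S') hgm.aemeasurable
  refine ⟨x, hx, ?_⟩
  show g x ≤ 2 * avg p E f ω
  refine hle.trans ?_
  rw [setLAverage_eq, havg]
  calc (∫⁻ x in S', g x ∂μ) / μ S' ≤ (∫⁻ x, g x ∂μ) / (2 : ENNReal)⁻¹ :=
        ENNReal.div_le_div (setLIntegral_le_lintegral S' g) hhalf
    _ = 2 * ∫⁻ x, g x ∂μ := by
        rw [ENNReal.div_eq_inv_mul, inv_inv]

theorem half_set_meas (E : Set ι) {S : Set (ι → Bool)} (hS : MeasurableSet S) (ω : ι → Bool) :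
    MeasurableSet {x | mix E x ω ∈ S} := (mix_meas_left E ω) hS

theorem half_eq_avg (p : unitInterval) (E : Set ι) {S : Set (ι → Bool)} (hS : MeasurableSet S) :
    (fun ω => (prodBern ι p) {x | mix E x ω ∈ S}) = avg p E (S.indicator fun _ => 1) := by
  funext ω
  unfold avg
  rw [lintegral_indicator_const_comp (mix_meas_left E ω) hS, one_mul]
  rfl

theorem half_meas_fun (p : unitInterval) (E : Set ι) {S : Set (ι → Bool)} (hS : MeasurableSet S) :
    Measurable fun ω => (prodBern ι p) {x | mix E x ω ∈ S} := by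
  rw [half_eq_avg p E hS]
  exact avg_meas p E (measurable_const.indicator hS)

/-- measurability of the half event -/
theorem half_meas_c (p : unitInterval) (E : Set ι) {S : Set (ι → Bool)} (hS : MeasurableSet S)
    (c : ℝ) : MeasurableSet {ω | c ≤ (prodBern ι p).real {x | mix E x ω ∈ S}} :=
  measurableSet_le measurable_const ((half_meas_fun p E hS).ennreal_toReal)

theorem half_lint (p : unitInterval) (E : Set ι) {S : Set (ι → Bool)} (hS : MeasurableSet S) :
    ∫⁻ ω, (prodBern ι p) {x | mix E x ω ∈ S} ∂(prodBern ι p) = (prodBern ι p) S := by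
  rw [half_eq_avg p E hS, avg_lint p E (measurable_const.indicator hS),
    lintegral_indicator_const hS, one_mul]

/-- Markov: if `S` has probability at least `3/4` then with probability at least one half its
conditional probability is at least one half -/
theorem half_prob (p : unitInterval) (E : Set ι) {S : Set (ι → Bool)} (hS : MeasurableSet S)
    (h : (prodBern ι p).real Sᶜ ≤ 1 / 4) :
    1 / 2 ≤ (prodBern ι p).real {ω | 1 / 2 ≤ (prodBern ι p).real {x | mix E x ω ∈ S}} := by
  set μ := prodBern ι p with hμ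
  set H : Set (ι → Bool) := {ω | 1 / 2 ≤ μ.real {x | mix E x ω ∈ S}} with hH
  have hHm : MeasurableSet H := half_meas_c p E hS (1 / 2)
  have h1 : Hᶜ ⊆ {ω | (2 : ENNReal)⁻¹ ≤ μ {x | mix E x ω ∈ Sᶜ}} := by
    intro ω hω
    have h2 : μ.real {x | mix E x ω ∈ S} < 1 / 2 := by
      by_contra hcon
      exact hω (not_lt.1 hcon)
    have h3 : {x | mix E x ω ∈ Sᶜ} = {x | mix E x ω ∈ S}ᶜ := rfl
    have h4 : μ.real {x | mix E x ω ∈ Sᶜ} = 1 - μ.real {x | mix E x ω ∈ S} := by
      rw [h3, probReal_compl_eq_one_sub (half_set_meas E hS ω)]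
    have h5 : ENNReal.ofReal (1 / 2) ≤ μ {x | mix E x ω ∈ Sᶜ} := by
      rw [ENNReal.ofReal_le_iff_le_toReal (measure_ne_top _ _)]
      show (1 : ℝ) / 2 ≤ μ.real {x | mix E x ω ∈ Sᶜ}
      rw [h4]
      linarith
    show (2 : ENNReal)⁻¹ ≤ μ {x | mix E x ω ∈ Sᶜ}
    refine le_trans (le_of_eq ?_) h5
    rw [ENNReal.ofReal_div_of_pos (by norm_num)]
    simp
  have h2 : μ Hᶜ ≤ ENNReal.ofReal (1 / 2) := by
    have h3 := meas_ge_le_lintegral_div (μ := μ) (half_meas_fun p E hS.compl).aemeasurable
      (ε := (2 : ENNReal)⁻¹) (by norm_num) (by norm_num)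
    refine (measure_mono h1).trans (h3.trans ?_)
    rw [half_lint p E hS.compl]
    have h4 : μ Sᶜ ≤ ENNReal.ofReal (1 / 4) := by
      rw [← ENNReal.toReal_le_toReal (measure_ne_top _ _) ENNReal.ofReal_ne_top,
        ENNReal.toReal_ofReal (by norm_num)]
      exact h
    calc μ Sᶜ / (2 : ENNReal)⁻¹ = μ Sᶜ * 2 := by rw [div_eq_mul_inv, inv_inv]
      _ ≤ ENNReal.ofReal (1 / 4) * 2 := by gcongr
      _ = ENNReal.ofReal (1 / 2) := by
          rw [show (2 : ENNReal) = ENNReal.ofReal 2 by simp, ← ENNReal.ofReal_mul (by norm_num)]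
          norm_num
  have h3 : μ.real Hᶜ ≤ 1 / 2 := by
    rw [measureReal_def]
    exact ENNReal.toReal_le_of_le_ofReal (by norm_num) h2
  have h4 : μ.real Hᶜ = 1 - μ.real H := probReal_compl_eq_one_sub hHm
  linarith

/-! ## translations -/

variable {d : ℕ}

lemma mix_tr {φ : V d → V d} (hφ : Function.Injective φ) (E : Set (El d)) (y ω : El d → Bool) :
    tr φ (mix ((fun e : El d => e.map φ) '' E) y ω) = mix E (tr φ y) (tr φ ω) := by
  funext e
  have hinj := Sym2.map.injective hφ
  show mix ((fun e : El d => e.map φ) '' E) y ω (e.map φ) = mix E (tr φ y) (tr φ ω) e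
  by_cases h : e ∈ E
  · have h2 : e.map φ ∈ (fun e : El d => e.map φ) '' E := ⟨e, h, rfl⟩
    rw [mix_in' h2, mix_in' h]
    rfl
  · have h2 : e.map φ ∉ (fun e : El d => e.map φ) '' E := by
      rintro ⟨e', he', h'⟩
      exact h (hinj h' ▸ he')
    rw [mix_out' h2, mix_out' h]
    rfl

lemma tr_meas (φ : V d → V d) : Measurable (tr φ) :=
  measurable_pi_lambda _ fun _ => measurable_pi_apply _

/-- the law of the translated configuration, injective maps -/
lemma tr_law_inj {φ : V d → V d} (hφ : Function.Injective φ) (p : unitInterval) :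
    (prodBern (El d) p).map (tr φ) = prodBern (El d) p :=
  mu_comp (fun _ : El d => p) (fun e : El d => e.map φ) (Sym2.map.injective hφ)

theorem avg_tr_inj (p : unitInterval) {φ : V d → V d} (hφ : Function.Injective φ) (E : Set (El d))
    {f : (El d → Bool) → ENNReal} (hf : Measurable f) (ω : El d → Bool) :
    avg p E f (tr φ ω) =
      avg p ((fun e : El d => e.map φ) '' E) (fun ω => f (tr φ ω)) ω := by
  unfold avg
  simp only [mix_tr hφ]
  have h1 : ∫⁻ x, f (mix E x (tr φ ω)) ∂((prodBern (El d) p).map (tr φ)) =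
      ∫⁻ x, f (mix E (tr φ x) (tr φ ω)) ∂(prodBern (El d) p) :=
    lintegral_map (hf.comp (mix_meas_left E (tr φ ω))) (tr_meas φ)
  rw [tr_law_inj hφ p] at h1
  exact h1

theorem half_tr_inj (p : unitInterval) {φ : V d → V d} (hφ : Function.Injective φ) (E : Set (El d))
    {S : Set (El d → Bool)} (hS : MeasurableSet S) (ω : El d → Bool) :
    (prodBern (El d) p).real {x | mix E x (tr φ ω) ∈ S} =
      (prodBern (El d) p).real
        {x | tr φ (mix ((fun e : El d => e.map φ) '' E) x ω) ∈ S} := by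
  simp only [mix_tr hφ]
  have h1 : ((prodBern (El d) p).map (tr φ)) {x | mix E x (tr φ ω) ∈ S} =
      (prodBern (El d) p) {x | mix E (tr φ x) (tr φ ω) ∈ S} :=
    Measure.map_apply (tr_meas φ) (half_set_meas E hS (tr φ ω))
  rw [tr_law_inj hφ p] at h1
  rw [measureReal_def, measureReal_def, h1]

lemma mix_in {E : Set ι} (x ω : ι → Bool) {i : ι} (h : i ∈ E) : mix E x ω i = x i :=
  mix_in' h x ω

lemma mix_out {E : Set ι} (x ω : ι → Bool) {i : ι} (h : i ∉ E) : mix E x ω i = ω i :=
  mix_out' h x ω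

theorem half_meas (p : unitInterval) (E : Set ι) {S : Set (ι → Bool)} (hS : MeasurableSet S) :
    MeasurableSet {ω : ι → Bool | 1 / 2 ≤ (prodBern ι p).real {x | mix E x ω ∈ S}} :=
  half_meas_c p E hS (1 / 2)

/-- change of variables along a bijective relabelling -/
theorem avg_tr (p : unitInterval) (φ : V d ≃ V d) (E : Set (El d))
    {f : (El d → Bool) → ENNReal} (hf : Measurable f) (ω : El d → Bool) :
    avg p E f (tr φ ω) = avg p ((fun e : El d => e.map φ) '' E) (fun ω => f (tr φ ω)) ω :=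
  avg_tr_inj p φ.injective E hf ω

theorem half_tr (p : unitInterval) (φ : V d ≃ V d) (E : Set (El d))
    {S : Set (El d → Bool)} (hS : MeasurableSet S) (ω : El d → Bool) :
    (prodBern (El d) p).real {x | mix E x (tr φ ω) ∈ S} =
      (prodBern (El d) p).real {x | tr φ (mix ((fun e : El d => e.map φ) '' E) x ω) ∈ S} :=
  half_tr_inj p φ.injective E hS ω

end Pool.Agent.H75.TA
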