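import Pool.Agent.H75.TA.Defs

/-!
# TA module AxisEx: existence of the axis path

Proof. `a = (u 0).toNat / 2`, `W = Λ * (u 0).toNat`, `len = (u 0).toNat + (n + 1) * W`. On `0 ≤ s ≤ len`
put `seg s 0 = min s a + max 0 (s - a - (n + 1) * W)` and, for a coordinate `i = j + 1`,
`seg s i = sign (u i) * min |u i| (max 0 (s - a - j * W))`. At every step at most one coordinate
changes, by one. `ax s = (s / len) • u + seg (s % len)` (`seg 0 = 0`, `seg len = u`).
-/

open MeasureTheory Filter Topology
open Pool.Agent.H17.IIC Pool.Agent.H41.QC Pool.Agent.H47.GM Pool.Agent.H17.QA Pool.Agent.H41.QA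

namespace Pool.Agent.H75.TA

variable {n : ℕ}

lemma AxisEx_adj {d : ℕ} {x y : V d} (h1 : ∀ i, |y i - x i| ≤ 1)
    (h2 : ∀ i k, x i ≠ y i → x k ≠ y k → i = k) : x = y ∨ LatAdj x y := by
  by_cases hxy : x = y
  · exact Or.inl hxy
  right
  obtain ⟨i, hi⟩ : ∃ i, x i ≠ y i := by
    by_contra hc
    push Not at hc
    exact hxy (funext hc)
  have h3 : ∀ k, k ≠ i → x k = y k := by
    intro k hk
    by_contra hc
    exact hk (h2 k i hc hi)
  have h4 := abs_le.1 (h1 i)
  rcases lt_or_gt_of_ne hi with hlt | hlt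
  · refine ⟨(i, true), funext fun k => ?_⟩
    rw [Pi.add_apply]
    unfold stepVec
    by_cases hk : k = i
    · subst hk
      simp only [Pi.single_eq_same, if_true]
      omega
    · rw [Pi.single_eq_of_ne hk, h3 k hk, add_zero]
  · refine ⟨(i, false), funext fun k => ?_⟩
    rw [Pi.add_apply]
    unfold stepVec
    by_cases hk : k = i
    · subst hk
      simp only [Pi.single_eq_same]
      simp only [Bool.false_eq_true, if_false]
      omega
    · rw [Pi.single_eq_of_ne hk, h3 k hk, add_zero]

/-- the coordinate `j + 1` of a segment -/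
def AxisEx_f (w a W : ℤ) (j : ℤ) (s : ℤ) : ℤ := w.sign * min |w| (max 0 (s - a - j * W))

lemma AxisEx_f_before {w a W j s : ℤ} (h : s ≤ a + j * W) : AxisEx_f w a W j s = 0 := by
  unfold AxisEx_f
  rw [max_eq_left (by linarith), min_eq_right (abs_nonneg w), mul_zero]

lemma AxisEx_f_after {w a W j s : ℤ} (hw : |w| ≤ W) (h : a + (j + 1) * W ≤ s) :
    AxisEx_f w a W j s = w := by
  unfold AxisEx_f
  have h1 : |w| ≤ s - a - j * W := by linarith
  rw [min_eq_left (h1.trans (le_max_right _ _)), Int.sign_mul_abs]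

lemma AxisEx_f_lip (w a W j s : ℤ) : |AxisEx_f w a W j (s + 1) - AxisEx_f w a W j s| ≤ 1 := by
  unfold AxisEx_f
  rw [← mul_sub, abs_mul]
  have h1 : |w.sign| ≤ 1 := by
    rcases lt_trichotomy w 0 with h | h | h
    · rw [Int.sign_eq_neg_one_of_neg h]; simp
    · rw [h]; simp
    · rw [Int.sign_eq_one_of_pos h]; simp
  have h2 : |min |w| (max 0 (s + 1 - a - j * W)) - min |w| (max 0 (s - a - j * W))| ≤ 1 := by
    rw [abs_le]
    constructor <;> (simp only [min_def, max_def]; split_ifs <;> linarith)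
  calc |w.sign| * _ ≤ 1 * 1 := mul_le_mul h1 h2 (abs_nonneg _) (by norm_num)
    _ = 1 := one_mul 1

/-- the coordinate `0` of a segment -/
def AxisEx_g (a B : ℤ) (s : ℤ) : ℤ := min s a + max 0 (s - a - B)

lemma AxisEx_g_step {a B s : ℤ} (hB : 0 ≤ B) :
    AxisEx_g a B s ≤ AxisEx_g a B (s + 1) ∧ AxisEx_g a B (s + 1) ≤ AxisEx_g a B s + 1 ∧
      (a ≤ s → s < a + B → AxisEx_g a B (s + 1) = AxisEx_g a B s) := by
  unfold AxisEx_g
  refine ⟨?_, ?_, ?_⟩
  · simp only [min_def, max_def]; split_ifs <;> linarith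
  · simp only [min_def, max_def]; split_ifs <;> linarith
  · intro h1 h2
    rw [min_eq_right (by linarith), min_eq_right (by linarith), max_eq_left (by linarith),
      max_eq_left (by linarith)]

/-- one segment of the axis -/
def AxisEx_seg (u : V (n + 2)) (a W : ℤ) (s : ℤ) : V (n + 2) :=
  Fin.cases (AxisEx_g a ((n + 1) * W) s) (fun j => AxisEx_f (u j.succ) a W (j : ℕ) s)

lemma AxisEx_seg_zero' (u : V (n + 2)) (a W s : ℤ) :
    AxisEx_seg u a W s 0 = AxisEx_g a ((n + 1) * W) s := rfl

lemma AxisEx_seg_succ (u : V (n + 2)) (a W s : ℤ) (j : Fin (n + 1)) :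
    AxisEx_seg u a W s j.succ = AxisEx_f (u j.succ) a W (j : ℕ) s := rfl

lemma AxisEx_seg_step (u : V (n + 2)) {a W : ℤ} (hW : 0 ≤ W) (hu : ∀ j : Fin (n + 1), |u j.succ| ≤ W)
    (s : ℤ) : AxisEx_seg u a W s = AxisEx_seg u a W (s + 1) ∨
      LatAdj (AxisEx_seg u a W s) (AxisEx_seg u a W (s + 1)) := by
  have hB : 0 ≤ ((n : ℤ) + 1) * W := by positivity
  have hg := AxisEx_g_step (a := a) (s := s) hB
  have hch : ∀ j : Fin (n + 1), AxisEx_seg u a W s j.succ ≠ AxisEx_seg u a W (s + 1) j.succ →
      a + (j : ℕ) * W ≤ s ∧ s < a + ((j : ℕ) + 1) * W := by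
    intro j hj
    rw [AxisEx_seg_succ, AxisEx_seg_succ] at hj
    constructor
    · by_contra hc
      push Not at hc
      apply hj
      rw [AxisEx_f_before (by linarith), AxisEx_f_before (by linarith)]
    · by_contra hc
      push Not at hc
      apply hj
      rw [AxisEx_f_after (hu j) (by linarith), AxisEx_f_after (hu j) (by linarith)]
  have hch0 : AxisEx_seg u a W s 0 ≠ AxisEx_seg u a W (s + 1) 0 →
      s < a ∨ a + ((n : ℤ) + 1) * W ≤ s := by
    intro h
    rw [AxisEx_seg_zero', AxisEx_seg_zero'] at h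
    by_contra hc
    push Not at hc
    exact h (hg.2.2 hc.1 hc.2).symm
  have hj0 : ∀ j : Fin (n + 1), AxisEx_seg u a W s j.succ ≠ AxisEx_seg u a W (s + 1) j.succ →
      AxisEx_seg u a W s 0 ≠ AxisEx_seg u a W (s + 1) 0 → False := by
    intro j h1 h2
    have h3 := hch j h1
    have h4 : ((j : ℕ) : ℤ) + 1 ≤ (n : ℤ) + 1 := by
      have := j.2
      have : ((j : ℕ) : ℤ) < ((n + 1 : ℕ) : ℤ) := by exact_mod_cast this
      push_cast at this
      linarith
    have h5 : (((j : ℕ) : ℤ) + 1) * W ≤ ((n : ℤ) + 1) * W := mul_le_mul_of_nonneg_right h4 hW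
    have h6 : 0 ≤ ((j : ℕ) : ℤ) * W := by positivity
    rcases hch0 h2 with h | h <;> linarith [h3.1, h3.2]
  apply AxisEx_adj
  · intro i
    refine Fin.cases ?_ (fun j => ?_) i
    · rw [AxisEx_seg_zero', AxisEx_seg_zero', abs_le]
      constructor <;> linarith [hg.1, hg.2.1]
    · rw [AxisEx_seg_succ, AxisEx_seg_succ]
      exact AxisEx_f_lip _ _ _ _ _
  · intro i k
    refine Fin.cases ?_ (fun j => ?_) i
    · refine Fin.cases ?_ (fun j => ?_) k
      · intro _ _
        rfl
      · intro h1 h2
        exact (hj0 j h2 h1).elim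
    · refine Fin.cases ?_ (fun j' => ?_) k
      · intro h1 h2
        exact (hj0 j h1 h2).elim
      · intro h1 h2
        have h3 := hch j h1
        have h4 := hch j' h2
        have : j = j' := by
          by_contra hne
          rcases lt_or_gt_of_ne hne with h | h
          · have h5 : ((j : ℕ) : ℤ) + 1 ≤ ((j' : ℕ) : ℤ) := by
              have : (j : ℕ) < (j' : ℕ) := h
              exact_mod_cast this
            have h6 := mul_le_mul_of_nonneg_right h5 hW
            linarith [h3.2, h4.1]
          · have h5 : ((j' : ℕ) : ℤ) + 1 ≤ ((j : ℕ) : ℤ) := by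
              have : (j' : ℕ) < (j : ℕ) := h
              exact_mod_cast this
            have h6 := mul_le_mul_of_nonneg_right h5 hW
            linarith [h4.2, h3.1]
        rw [this]

theorem axis_exists (u : V (n + 2)) (Λ : ℕ) (hu : 1 ≤ u 0) (hΛ : ∀ i, |u i| ≤ Λ * u 0) :
    Nonempty (Axis u ((n + 2) * Λ + 1)) := by
  obtain ⟨U, hU⟩ := Int.eq_ofNat_of_zero_le (show 0 ≤ u 0 by linarith)
  have hU1 : 1 ≤ U := by
    have : (1 : ℤ) ≤ U := by rw [← hU]; exact hu
    exact_mod_cast this
  set a : ℕ := U / 2 with ha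
  set W : ℕ := Λ * U with hW
  set len : ℕ := U + (n + 1) * W with hlen
  have hWu : ∀ i, |u i| ≤ (W : ℤ) := by
    intro i
    rw [hW]
    push_cast
    rw [← hU]
    exact hΛ i
  have hlen1 : 1 ≤ len := by omega
  have hlenZ : (0 : ℤ) < len := by exact_mod_cast hlen1
  have haU : 2 * (a : ℤ) ≤ U := by
    have : 2 * a ≤ U := by omega
    exact_mod_cast this
  have hlenU : (len : ℤ) = U + (n + 1) * W := by
    rw [hlen]
    push_cast
    ring
  have hseg0 : AxisEx_seg u a W 0 = 0 := by
    funext i
    refine Fin.cases ?_ (fun j => ?_) i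
    · rw [AxisEx_seg_zero']
      unfold AxisEx_g
      rw [min_eq_left (by positivity), max_eq_left]
      · rfl
      · have : 0 ≤ ((n : ℤ) + 1) * W := by positivity
        have : (0 : ℤ) ≤ a := by positivity
        linarith
    · rw [AxisEx_seg_succ, AxisEx_f_before]
      · rfl
      · positivity
  have hsegj : ∀ (s : ℤ) (j : Fin (n + 1)), (a : ℤ) + (n + 1) * W ≤ s →
      AxisEx_seg u a W s j.succ = u j.succ := by
    intro s j hs
    rw [AxisEx_seg_succ, AxisEx_f_after (hWu _)]
    have h4 : ((j : ℕ) : ℤ) + 1 ≤ (n : ℤ) + 1 := by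
      have := j.2
      have : ((j : ℕ) : ℤ) < ((n + 1 : ℕ) : ℤ) := by exact_mod_cast this
      push_cast at this
      linarith
    have h5 : (((j : ℕ) : ℤ) + 1) * W ≤ ((n : ℤ) + 1) * W :=
      mul_le_mul_of_nonneg_right h4 (by positivity)
    linarith
  have hsegl : AxisEx_seg u a W len = u := by
    funext i
    refine Fin.cases ?_ (fun j => ?_) i
    · rw [AxisEx_seg_zero', hU]
      unfold AxisEx_g
      have h1 : 0 ≤ ((n : ℤ) + 1) * W := by positivity
      rw [min_eq_right (by linarith), max_eq_right (by linarith), hlenU]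
      ring
    · exact hsegj _ j (by linarith)
  -- the axis
  let ax : ℤ → V (n + 2) := fun s => (s / len) • u + AxisEx_seg u a W (s % len)
  have hsucc : ∀ s : ℤ, ax (s + 1) = (s / len) • u + AxisEx_seg u a W (s % len + 1) := by
    intro s
    show ((s + 1) / len) • u + AxisEx_seg u a W ((s + 1) % len) = _
    have hdm := Int.emod_add_mul_ediv s len
    have h0 := Int.emod_nonneg s hlenZ.ne'
    have h1 := Int.emod_lt_of_pos s hlenZ
    by_cases hc : s % len + 1 < len
    · have h2 : (s + 1) / len = s / len ∧ (s + 1) % len = s % len + 1 := by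
        rw [Int.ediv_emod_unique hlenZ]
        refine ⟨?_, by linarith, hc⟩
        linarith
      rw [h2.1, h2.2]
    · have h2 : (s + 1) / len = s / len + 1 ∧ (s + 1) % len = 0 := by
        rw [Int.ediv_emod_unique hlenZ]
        refine ⟨?_, le_rfl, hlenZ⟩
        have : s % len + 1 = len := by omega
        rw [mul_add]
        linarith
      have h3 : s % len + 1 = len := by omega
      rw [h2.1, h2.2, hseg0, h3, hsegl, add_smul, one_smul, add_zero]
  refine ⟨⟨len, ax, hlen1, ?_, ?_, ?_, ?_, ?_⟩⟩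
  · rw [hlenU, hU, hW]
    push_cast
    have : 0 ≤ (Λ : ℤ) * U := by positivity
    nlinarith
  · intro s
    rw [hsucc s]
    rcases AxisEx_seg_step u (a := a) (W := W) (by positivity) (fun j => hWu _) (s % len) with h | h
    · left
      show _ + _ = _
      rw [h]
    · right
      obtain ⟨q, hq⟩ := h
      refine ⟨q, ?_⟩
      show _ = ((s / len) • u + AxisEx_seg u a W (s % len)) + _
      rw [hq, add_assoc]
  · intro s
    show ((s + len) / len) • u + AxisEx_seg u a W ((s + len) % len) = _
    rw [Int.add_ediv_of_dvd_right (dvd_refl _), Int.ediv_self hlenZ.ne', Int.add_emod_right,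
      add_smul, one_smul]
    show _ = ((s / len) • u + AxisEx_seg u a W (s % len)) + u
    abel
  · intro s
    rw [hsucc s]
    show ((s / len) • u + AxisEx_seg u a W (s % len)) 0 ≤ _
    rw [Pi.add_apply, Pi.add_apply, AxisEx_seg_zero', AxisEx_seg_zero']
    have := (AxisEx_g_step (a := (a : ℤ)) (B := ((n : ℤ) + 1) * W) (s := s % len) (by positivity)).1
    linarith
  · intro s hs
    rw [hU] at hs
    rcases le_or_gt 0 s with h0 | h0
    · rw [abs_of_nonneg h0] at hs
      have h1 : s < len := by
        have : 0 ≤ ((n : ℤ) + 1) * W := by positivity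
        have : (1 : ℤ) ≤ U := by exact_mod_cast hU1
        omega
      show (s / len) • u + AxisEx_seg u a W (s % len) = _
      rw [Int.ediv_eq_zero_of_lt h0 h1, Int.emod_eq_of_lt h0 h1, zero_smul, zero_add]
      have h2 : s ≤ a := by omega
      funext i
      refine Fin.cases ?_ (fun j => ?_) i
      · rw [AxisEx_seg_zero']
        unfold AxisEx_g e0
        rw [Pi.single_eq_same, min_eq_left h2, max_eq_left, add_zero]
        have : 0 ≤ ((n : ℤ) + 1) * W := by positivity
        linarith
      · rw [AxisEx_seg_succ, AxisEx_f_before]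
        · unfold e0
          rw [Pi.single_eq_of_ne (Fin.succ_ne_zero j)]
        · have : 0 ≤ ((j : ℕ) : ℤ) * W := by positivity
          linarith
    · rw [abs_of_neg h0] at hs
      have hB : 0 ≤ ((n : ℤ) + 1) * W := by positivity
      have h2 : s / len = -1 ∧ s % len = len + s := by
        rw [Int.ediv_emod_unique hlenZ]
        refine ⟨by ring, ?_, by linarith⟩
        omega
      show (s / len) • u + AxisEx_seg u a W (s % len) = _
      rw [h2.1, h2.2]
      have h3 : (a : ℤ) + (n + 1) * W ≤ len + s := by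
        rw [hlenU]
        omega
      funext i
      refine Fin.cases ?_ (fun j => ?_) i
      · rw [Pi.add_apply, AxisEx_seg_zero']
        unfold AxisEx_g e0
        rw [Pi.single_eq_same, min_eq_right (by linarith), max_eq_right (by linarith),
          Pi.smul_apply, smul_eq_mul, hU, hlenU]
        ring
      · rw [Pi.add_apply, hsegj _ j h3]
        unfold e0
        rw [Pi.single_eq_of_ne (Fin.succ_ne_zero j), Pi.smul_apply, smul_eq_mul]
        ring

end Pool.Agent.H75.TA
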