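import Pool.Agent.H75.TA.Defs

/-!
# TA module AxisFacts: consequences of the axis axioms
-/

open MeasureTheory Filter Topology
open Pool.Agent.H17.IIC Pool.Agent.H41.QC Pool.Agent.H47.GM Pool.Agent.H17.QA Pool.Agent.H41.QA

namespace Pool.Agent.H75.TA

variable {n : ℕ} {u : V (n + 2)} {K : ℕ}

theorem Axis.per_mul (A : Axis u K) (m s : ℤ) : A.ax (m * A.len + s) = A.ax s + m • u := by
  induction m using Int.induction_on with
  | zero => simp
  | succ m ih =>
    have h1 : ((m : ℤ) + 1) * A.len + s = ((m : ℤ) * A.len + s) + A.len := by ring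
    rw [h1, A.per, ih, add_smul, one_smul, add_assoc]
  | pred m ih =>
    have h1 : (-(m : ℤ)) * A.len + s = ((-(m : ℤ) - 1) * A.len + s) + A.len := by ring
    rw [h1, A.per] at ih
    have h2 : A.ax ((-(m : ℤ) - 1) * A.len + s) = A.ax s + (-(m : ℤ)) • u - u :=
      eq_sub_of_add_eq ih
    rw [h2, sub_smul, one_smul, add_sub_assoc]

theorem Axis.ax_mul (A : Axis u K) (hu : 0 ≤ u 0) (m : ℤ) : A.ax (m * A.len) = m • u := by
  have h1 := A.per_mul m 0
  rw [add_zero] at h1
  have h2 : A.ax 0 = 0 := by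
    rw [A.near 0 (by simpa using hu)]
    unfold e0
    exact Pi.single_zero 0
  rw [h1, h2, zero_add]

theorem Axis.monotone (A : Axis u K) : Monotone (fun s => A.ax s 0) :=
  monotone_int_of_le_succ A.mono

theorem AxisFacts_step {x y : V (n + 2)} (h : x = y ∨ LatAdj x y) : |y 0 - x 0| ≤ 1 := by
  rcases h with rfl | ⟨⟨k, c⟩, rfl⟩
  · simp
  · rw [Pi.add_apply, add_sub_cancel_left]
    unfold stepVec
    by_cases h : (0 : Fin (n + 2)) = k
    · subst h
      rw [Pi.single_eq_same]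
      cases c <;> simp
    · rw [Pi.single_eq_of_ne h]
      simp

theorem Axis.lip (A : Axis u K) (s : ℤ) : A.ax (s + 1) 0 ≤ A.ax s 0 + 1 := by
  have h := AxisFacts_step (A.step s)
  have := (abs_le.1 h).2
  linarith

theorem off_zero (A : Axis u K) (σ m : ℤ) (t : ℕ) : off A σ m t = off A σ 0 t := by
  unfold off
  rw [A.per_mul m, A.per_mul 0]
  simp only [Pi.add_apply, Pi.smul_apply, smul_eq_mul]
  ring

theorem AxisFacts_off0 (A : Axis u K) (σ : ℤ) (t : ℕ) :
    off A σ 0 t = σ * A.ax (σ * t) 0 := by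
  unfold off
  rw [zero_mul, zero_mul, zero_add, sub_zero]

theorem off_mono (A : Axis u K) {σ : ℤ} (hσ : σ = 1 ∨ σ = -1) (m : ℤ) : Monotone (off A σ m) := by
  intro s t hst
  rw [off_zero A σ m s, off_zero A σ m t, AxisFacts_off0, AxisFacts_off0]
  have hst' : (s : ℤ) ≤ t := by exact_mod_cast hst
  rcases hσ with rfl | rfl
  · have := A.monotone (show (1 : ℤ) * s ≤ 1 * t by linarith)
    simpa using this
  · have := A.monotone (show (-1 : ℤ) * t ≤ -1 * s by linarith)
    simpa using this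

theorem off_lip (A : Axis u K) {σ : ℤ} (hσ : σ = 1 ∨ σ = -1) (m : ℤ) (t : ℕ) :
    off A σ m (t + 1) ≤ off A σ m t + 1 := by
  rw [off_zero A σ m t, off_zero A σ m (t + 1), AxisFacts_off0, AxisFacts_off0]
  rcases hσ with rfl | rfl
  · have := A.lip (1 * t)
    have h2 : (1 : ℤ) * ((t + 1 : ℕ) : ℤ) = 1 * (t : ℤ) + 1 := by
      push_cast
      ring
    rw [h2]
    linarith
  · have := A.lip (-1 * ((t + 1 : ℕ) : ℤ))
    have h2 : (-1 : ℤ) * ((t + 1 : ℕ) : ℤ) + 1 = -1 * (t : ℤ) := by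
      push_cast
      ring
    rw [h2] at this
    linarith

theorem off_near (A : Axis u K) {σ : ℤ} (hσ : σ = 1 ∨ σ = -1) (m : ℤ) {t : ℕ}
    (ht : 4 * (t : ℤ) ≤ u 0) : off A σ m t = t := by
  rw [off_zero A σ m t, AxisFacts_off0]
  have h1 : |σ * (t : ℤ)| = t := by
    rcases hσ with rfl | rfl <;> simp
  rw [A.near _ (by rw [h1]; exact ht)]
  unfold e0
  rw [Pi.single_eq_same, ← mul_assoc]
  rcases hσ with rfl | rfl <;> simp

theorem AxisFacts_Kpos (A : Axis u K) : 1 ≤ K := by
  by_contra h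
  have h0 : (K : ℤ) = 0 := by
    have : K = 0 := by omega
    exact_mod_cast this
  have h1 := A.len_le
  have h2 := A.len_pos
  rw [h0, zero_mul] at h1
  omega

theorem off_grow (A : Axis u K) (hu : 4 ≤ u 0) {σ : ℤ} (hσ : σ = 1 ∨ σ = -1) (m : ℤ) (t : ℕ) :
    (t : ℤ) ≤ 8 * K * off A σ m t := by
  have hK := AxisFacts_Kpos A
  have hlen := A.len_pos
  have hle := A.len_le
  have hK' : (1 : ℤ) ≤ K := by exact_mod_cast hK
  rw [off_zero A σ m t]
  -- write `t = q * len + r`
  obtain ⟨q, r, hr, ht⟩ : ∃ q r : ℕ, r < A.len ∧ t = q * A.len + r :=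
    ⟨t / A.len, t % A.len, Nat.mod_lt _ (by omega), by rw [mul_comm]; exact (Nat.div_add_mod t A.len).symm⟩
  have hoff : off A σ 0 t = off A σ 0 r + q * u 0 := by
    rw [AxisFacts_off0, AxisFacts_off0]
    have h1 : σ * ((t : ℕ) : ℤ) = (σ * q) * A.len + σ * r := by
      rw [ht]
      push_cast
      ring
    rw [h1, A.per_mul]
    simp only [Pi.add_apply, Pi.smul_apply, smul_eq_mul]
    have h2 : σ * σ = 1 := by rcases hσ with rfl | rfl <;> rfl
    linear_combination (↑q * u 0) * h2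
  have h0 : off A σ 0 0 = 0 := by
    have := off_near A hσ 0 (t := 0) (by simp; linarith)
    simpa using this
  have hr0 : 0 ≤ off A σ 0 r := by
    have := off_mono A hσ 0 (Nat.zero_le r)
    rw [h0] at this
    exact this
  have hrl : (r : ℤ) < A.len := by exact_mod_cast hr
  rw [hoff]
  rcases Nat.eq_zero_or_pos q with hq | hq
  · subst hq
    have ht' : (t : ℤ) = r := by rw [ht]; simp
    rw [ht']
    simp only [Nat.cast_zero, zero_mul, add_zero]
    by_cases h4 : 4 * (r : ℤ) ≤ u 0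
    · rw [off_near A hσ 0 h4]
      nlinarith [Int.natCast_nonneg r]
    · -- `off r ≥ off (u 0 / 4) = u 0 / 4 ≥ u 0 / 8`
      set w : ℕ := ((u 0) / 4).toNat with hw
      have hw' : (w : ℤ) = u 0 / 4 := by
        rw [hw]
        exact Int.toNat_of_nonneg (by omega)
      have hwr : w ≤ r := by
        have : (w : ℤ) ≤ r := by omega
        exact_mod_cast this
      have h5 := off_mono A hσ 0 hwr
      rw [off_near A hσ 0 (t := w) (by omega)] at h5
      have h6 : u 0 ≤ 8 * off A σ 0 r := by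
        have : u 0 ≤ 8 * (w : ℤ) := by omega
        linarith
      calc (r : ℤ) ≤ A.len := hrl.le
        _ ≤ K * u 0 := hle
        _ ≤ K * (8 * off A σ 0 r) := by
          apply mul_le_mul_of_nonneg_left h6
          linarith
        _ = 8 * K * off A σ 0 r := by ring
  · have hq' : (1 : ℤ) ≤ q := by exact_mod_cast hq
    have h1 : (t : ℤ) ≤ 2 * (q * A.len) := by
      rw [ht]
      push_cast
      nlinarith
    have h2 : (q : ℤ) * A.len ≤ q * (K * u 0) := mul_le_mul_of_nonneg_left hle (by linarith)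
    have h3 : 0 ≤ (K : ℤ) * off A σ 0 r := by positivity
    have h4 : 0 ≤ (q : ℤ) * (K * u 0) := by positivity
    nlinarith

/-- heights grow at least linearly -/
theorem Axis.grow (A : Axis u K) (hu : 4 ≤ u 0) (s : ℤ) : |s| ≤ 8 * K * |A.ax s 0| := by
  have hK : (0 : ℤ) ≤ K := Int.natCast_nonneg K
  rcases le_total 0 s with hs | hs
  · obtain ⟨t, rfl⟩ := Int.eq_ofNat_of_zero_le hs
    have h1 := off_grow A hu (Or.inl rfl : (1 : ℤ) = 1 ∨ (1 : ℤ) = -1) 0 t
    rw [AxisFacts_off0, one_mul, one_mul] at h1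
    rw [abs_of_nonneg hs]
    refine h1.trans ?_
    apply mul_le_mul_of_nonneg_left (le_abs_self _)
    positivity
  · obtain ⟨t, ht⟩ := Int.eq_ofNat_of_zero_le (show 0 ≤ -s by linarith)
    have h1 := off_grow A hu (Or.inr rfl : (-1 : ℤ) = 1 ∨ (-1 : ℤ) = -1) 0 t
    have h2 : (-1 : ℤ) * t = s := by linarith
    rw [AxisFacts_off0, h2] at h1
    rw [abs_of_nonpos hs, ht]
    refine h1.trans ?_
    apply mul_le_mul_of_nonneg_left _ (by positivity)
    rw [neg_one_mul]
    exact neg_le_abs _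

end Pool.Agent.H75.TA
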