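import Mathlib

/-!
# TA module Birk: maximal ergodic inequality and the pointwise ergodic theorem (ergodic case)
-/

open MeasureTheory Filter Topology

namespace Pool.Agent.H75.TA

variable {Ω : Type*} [MeasurableSpace Ω] {μ : Measure Ω}

/-- `M n x = max_{k ≤ n} S_k f (x)` -/
noncomputable def gMax (T : Ω → Ω) (f : Ω → ℝ) : ℕ → Ω → ℝ
  | 0, _ => 0
  | n + 1, x => max 0 (f x + gMax T f n (T x))

lemma gMax_nonneg (T : Ω → Ω) (f : Ω → ℝ) (n : ℕ) (x : Ω) : 0 ≤ gMax T f n x := by
  cases n with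
  | zero => exact le_rfl
  | succ n => exact le_max_left _ _

lemma gMax_mono (T : Ω → Ω) (f : Ω → ℝ) (n : ℕ) (x : Ω) : gMax T f n x ≤ gMax T f (n + 1) x := by
  induction n generalizing x with
  | zero => exact gMax_nonneg _ _ _ _
  | succ n ih =>
    show max 0 (f x + gMax T f n (T x)) ≤ max 0 (f x + gMax T f (n + 1) (T x))
    exact max_le_max le_rfl (by linarith [ih (T x)])

lemma gMax_meas {T : Ω → Ω} {f : Ω → ℝ} (hT : Measurable T) (hf : Measurable f) (n : ℕ) :
    Measurable (gMax T f n) := by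
  induction n with
  | zero => exact measurable_const
  | succ n ih => exact measurable_const.max (hf.add (ih.comp hT))

lemma gMax_int {T : Ω → Ω} {f : Ω → ℝ} (hT : MeasurePreserving T μ μ) (hf : Integrable f μ)
    (n : ℕ) : Integrable (gMax T f n) μ := by
  induction n with
  | zero => exact integrable_zero _ _ _
  | succ n ih =>
    have h1 : Integrable (fun x => f x + gMax T f n (T x)) μ :=
      hf.add (hT.integrable_comp_of_integrable ih)
    exact (integrable_zero _ _ _).sup h1

lemma gMax_ge (T : Ω → Ω) (f : Ω → ℝ) (n : ℕ) (x : Ω) : birkhoffSum T f n x ≤ gMax T f n x := by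
  induction n generalizing x with
  | zero => simp [gMax]
  | succ n ih =>
    rw [birkhoffSum_succ']
    exact (add_le_add le_rfl (ih (T x))).trans (le_max_right _ _)

/-- Garsia -/
lemma garsia {T : Ω → Ω} {f : Ω → ℝ} (hT : MeasurePreserving T μ μ) (hfm : Measurable f)
    (hf : Integrable f μ) (n : ℕ) : 0 ≤ ∫ x in {x | 0 < gMax T f n x}, f x ∂μ := by
  cases n with
  | zero => simp [gMax]
  | succ n =>
    set M := gMax T f (n + 1) with hM
    set A : Set Ω := {x | 0 < M x} with hA
    have hMm : Measurable M := gMax_meas hT.measurable hfm _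
    have hAm : MeasurableSet A := measurableSet_lt measurable_const hMm
    have hMi : Integrable M μ := gMax_int hT hf _
    have hMT : Integrable (fun x => M (T x)) μ := hT.integrable_comp_of_integrable hMi
    have h1 : ∀ x ∈ A, M x - M (T x) ≤ f x := by
      intro x hx
      have hx' : 0 < max 0 (f x + gMax T f n (T x)) := hx
      have h2 : M x = f x + gMax T f n (T x) := by
        show max 0 (f x + gMax T f n (T x)) = _
        rcases lt_max_iff.1 hx' with h | h
        · exact absurd h (lt_irrefl _)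
        · exact max_eq_right h.le
      have h3 : gMax T f n (T x) ≤ M (T x) := gMax_mono T f n (T x)
      linarith
    have h2 : ∫ x in A, (M x - M (T x)) ∂μ ≤ ∫ x in A, f x ∂μ :=
      setIntegral_mono_on (hMi.sub hMT).integrableOn hf.integrableOn hAm h1
    have h3 : ∫ x in A, M x ∂μ = ∫ x, M x ∂μ := by
      apply setIntegral_eq_integral_of_forall_compl_eq_zero
      intro x hx
      exact le_antisymm (not_lt.1 hx) (gMax_nonneg _ _ _ _)
    have h4 : ∫ x in A, M (T x) ∂μ ≤ ∫ x, M (T x) ∂μ :=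
      setIntegral_le_integral hMT (Eventually.of_forall fun x => gMax_nonneg _ _ _ _)
    have h5 : ∫ x, M (T x) ∂μ = ∫ x, M x ∂μ := by
      have h6 := integral_map (μ := μ) hT.measurable.aemeasurable
        (f := M) (hMm.aestronglyMeasurable)
      rw [hT.map_eq] at h6
      exact h6.symm
    rw [integral_sub hMi.integrableOn hMT.integrableOn] at h2
    linarith

/-- if almost every point has a positive partial sum, the integral is nonnegative -/
lemma maximal {T : Ω → Ω} {f : Ω → ℝ} (hT : MeasurePreserving T μ μ) (hfm : Measurable f)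
    (hf : Integrable f μ) (h : ∀ᵐ x ∂μ, ∃ n, 0 < birkhoffSum T f n x) : 0 ≤ ∫ x, f x ∂μ := by
  have hmono : Monotone fun n => {x | 0 < gMax T f n x} := by
    apply monotone_nat_of_le_succ
    intro n x hx
    exact lt_of_lt_of_le hx (gMax_mono T f n x)
  have h1 := tendsto_setIntegral_of_monotone (μ := μ) (f := f)
    (fun n => measurableSet_lt measurable_const (gMax_meas hT.measurable hfm n)) hmono
    hf.integrableOn
  have h2 : 0 ≤ ∫ x in ⋃ n, {x | 0 < gMax T f n x}, f x ∂μ :=
    ge_of_tendsto' h1 fun n => garsia hT hfm hf n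
  have h3 : (⋃ n, {x | 0 < gMax T f n x}) =ᵐ[μ] Set.univ := by
    rw [eventuallyEq_univ]
    filter_upwards [h] with x hx
    obtain ⟨n, hn⟩ := hx
    exact Set.mem_iUnion.2 ⟨n, lt_of_lt_of_le hn (gMax_ge T f n x)⟩
  rwa [setIntegral_congr_set h3, setIntegral_univ] at h2

/-- the invariant set used in the proof -/
def exc (T : Ω → Ω) (h : Ω → ℝ) : Set Ω :=
  {x | ∃ k : ℕ, ∃ᶠ n : ℕ in atTop, (n : ℝ) / (k + 1) < birkhoffSum T h n x}

lemma birkhoffSum_meas {T : Ω → Ω} {f : Ω → ℝ} (hT : Measurable T) (hf : Measurable f) (n : ℕ) :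
    Measurable (birkhoffSum T f n) := by
  unfold birkhoffSum
  exact Finset.measurable_fun_sum _ fun i _ => hf.comp (hT.iterate i)

lemma exc_meas {T : Ω → Ω} {h : Ω → ℝ} (hT : Measurable T) (hh : Measurable h) :
    MeasurableSet (exc T h) := by
  have : exc T h = ⋃ k : ℕ, ⋂ m : ℕ, ⋃ n : ℕ, {x | m ≤ n ∧ (n : ℝ) / (k + 1) < birkhoffSum T h n x} := by
    ext x
    simp only [exc, Set.mem_setOf_eq, Set.mem_iUnion, Set.mem_iInter, frequently_atTop]
  rw [this]
  refine MeasurableSet.iUnion fun k => MeasurableSet.iInter fun m => MeasurableSet.iUnion fun n => ?_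
  by_cases hmn : m ≤ n
  · simp only [hmn, true_and]
    exact measurableSet_lt measurable_const (birkhoffSum_meas hT hh n)
  · simp only [hmn, false_and, Set.setOf_false]
    exact MeasurableSet.empty

lemma exc_lin (k : ℕ) (A : ℝ) : ∀ᶠ n : ℕ in atTop, (n : ℝ) / (k + 2) + A ≤ (n : ℝ) / (k + 1) := by
  have hk1 : (0 : ℝ) < k + 1 := by positivity
  have hk2 : (0 : ℝ) < k + 2 := by positivity
  have h1 : ∀ᶠ n : ℕ in atTop, A * ((k + 1) * (k + 2)) ≤ (n : ℝ) :=
    tendsto_natCast_atTop_atTop.eventually_ge_atTop _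
  filter_upwards [h1] with n hn
  have h2 : (n : ℝ) / (k + 1) - (n : ℝ) / (k + 2) = n / ((k + 1) * (k + 2)) := by
    field_simp
    ring
  have h3 : A ≤ (n : ℝ) / ((k + 1) * (k + 2)) := by
    rw [le_div_iff₀ (by positivity)]
    exact hn
  linarith

lemma exc_inv (T : Ω → Ω) (h : Ω → ℝ) : T ⁻¹' exc T h = exc T h := by
  ext x
  constructor
  · rintro ⟨k, hk⟩
    refine ⟨k + 1, ?_⟩
    have h1 := hk.and_eventually (exc_lin k (1 + |h x|))
    rw [frequently_atTop] at h1 ⊢
    intro m
    obtain ⟨n, hmn, h2, h3⟩ := h1 m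
    refine ⟨n + 1, by omega, ?_⟩
    rw [birkhoffSum_succ']
    push_cast
    have h4 : ((n : ℝ) + 1) / (k + 1 + 1) ≤ n / (k + 2) + 1 := by
      have : (k : ℝ) + 1 + 1 = k + 2 := by ring
      rw [this, add_div]
      have : (1 : ℝ) / (k + 2) ≤ 1 := by
        rw [div_le_one (by positivity)]
        have : (0 : ℝ) ≤ k := Nat.cast_nonneg k
        linarith
      linarith
    have h5 := neg_abs_le (h x)
    linarith
  · rintro ⟨k, hk⟩
    refine ⟨k + 1, ?_⟩
    have h1 := hk.and_eventually (exc_lin k (|h x|))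
    rw [frequently_atTop] at h1 ⊢
    intro m
    obtain ⟨n, hmn, h2, h3⟩ := h1 (m + 1)
    obtain ⟨n', rfl⟩ : ∃ n', n = n' + 1 := ⟨n - 1, by omega⟩
    refine ⟨n', by omega, ?_⟩
    rw [birkhoffSum_succ'] at h2
    push_cast at h2 h3 ⊢
    have h4 : (n' : ℝ) / (k + 1 + 1) ≤ (n' + 1) / (k + 2) := by
      have : (k : ℝ) + 1 + 1 = k + 2 := by ring
      rw [this]
      exact div_le_div_of_nonneg_right (by linarith) (by positivity)
    have h5 := le_abs_self (h x)
    linarith

variable [IsProbabilityMeasure μ]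

lemma exc_null {T : Ω → Ω} {h : Ω → ℝ} (hT : Ergodic T μ) (hm : Measurable h)
    (hi : Integrable h μ) (hneg : ∫ x, h x ∂μ < 0) : μ (exc T h) = 0 := by
  rcases hT.toPreErgodic.prob_eq_zero_or_one (exc_meas hT.measurable hm) (exc_inv T h) with h0 | h1
  · exact h0
  · exfalso
    have h2 : ∀ᵐ x ∂μ, x ∈ exc T h :=
      (mem_ae_iff_prob_eq_one (exc_meas hT.measurable hm)).2 h1
    have h3 : 0 ≤ ∫ x, h x ∂μ := by
      apply maximal hT.toMeasurePreserving hm hi
      filter_upwards [h2] with x hx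
      obtain ⟨k, hk⟩ := hx
      obtain ⟨n, hn⟩ := hk.exists
      exact ⟨n, lt_of_le_of_lt (by positivity) hn⟩
    linarith

/-- pointwise ergodic theorem, upper half -/
theorem birk_le {T : Ω → Ω} {f : Ω → ℝ} (hT : Ergodic T μ) (hm : Measurable f)
    (hi : Integrable f μ) {a : ℝ} (ha : ∫ x, f x ∂μ < a) :
    ∀ᵐ x ∂μ, ∀ᶠ n : ℕ in atTop, birkhoffSum T f n x ≤ a * n := by
  obtain ⟨a', h1, h2⟩ := exists_between ha
  have h3 := exc_null hT (hm.sub_const a') (hi.sub (integrable_const a')) (by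
    rw [integral_sub hi (integrable_const a')]
    simpa using h1)
  obtain ⟨k, hk⟩ := exists_nat_one_div_lt (sub_pos.2 h2)
  have h4 : ∀ᵐ x ∂μ, x ∉ exc T (fun x => f x - a') := measure_eq_zero_iff_ae_notMem.1 h3
  filter_upwards [h4] with x hx
  have h5 : ¬ ∃ᶠ n : ℕ in atTop, (n : ℝ) / (k + 1) < birkhoffSum T (fun x => f x - a') n x :=
    fun h => hx ⟨k, h⟩
  rw [not_frequently] at h5
  filter_upwards [h5] with n hn
  have h6 : birkhoffSum T (fun x => f x - a') n x = birkhoffSum T f n x - a' * n := by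
    simp only [birkhoffSum, Finset.sum_sub_distrib, Finset.sum_const, Finset.card_range,
      nsmul_eq_mul]
    ring
  rw [not_lt, h6] at hn
  have h7 : (n : ℝ) / (k + 1) = (1 / (k + 1)) * n := by ring
  have h8 : (1 / ((k : ℝ) + 1)) * n ≤ (a - a') * n :=
    mul_le_mul_of_nonneg_right hk.le (Nat.cast_nonneg n)
  rw [h7] at hn
  linarith

/-- pointwise ergodic theorem, lower half -/
theorem birk_ge {T : Ω → Ω} {f : Ω → ℝ} (hT : Ergodic T μ) (hm : Measurable f)
    (hi : Integrable f μ) {a : ℝ} (ha : a < ∫ x, f x ∂μ) :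
    ∀ᵐ x ∂μ, ∀ᶠ n : ℕ in atTop, a * n ≤ birkhoffSum T f n x := by
  have h1 := birk_le hT hm.neg hi.neg (a := -a) (by
    simp only [Pi.neg_apply, integral_neg]
    linarith)
  filter_upwards [h1] with x hx
  filter_upwards [hx] with n hn
  have h2 : birkhoffSum T (-f) n x = - birkhoffSum T f n x := by
    simp only [birkhoffSum, Pi.neg_apply, Finset.sum_neg_distrib]
  rw [h2] at hn
  linarith

end Pool.Agent.H75.TA
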