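import Pool.Agent.H75.TA.StShift

/-!
# TA module Cost: the stationary cost bound
-/

open MeasureTheory Filter Topology
open Pool.Agent.H17.IIC Pool.Agent.H41.QC Pool.Agent.H47.GM Pool.Agent.H17.QA Pool.Agent.H41.QA

namespace Pool.Agent.H75.TA

variable {n : ℕ} {κ : Kind} {p : unitInterval} {u : V (n + 2)} {K : ℕ}

theorem sg_meas (RS : RoadSys κ (n + 2) p) (A : Axis u K) (j : ℤ) : Measurable (Sg RS A j) := by
  unfold Sg
  exact Finset.measurable_fun_sum _ fun i _ => RS.dom_meas _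

theorem sg_int (RS : RoadSys κ (n + 2) p) (A : Axis u K) (j : ℤ) :
    ∫⁻ ω, Sg RS A j ω ∂(prodBern (El (n + 2)) p) ≤ A.len * ENNReal.ofReal RS.C := by
  unfold Sg
  rw [lintegral_finsetSum _ (fun i _ => RS.dom_meas _)]
  refine (Finset.sum_le_sum fun i _ => RS.dom_int _).trans ?_
  rw [Finset.sum_const, Finset.card_range, nsmul_eq_mul]

theorem Cost_dom (RS : RoadSys κ (n + 2) p) (hL : ∀ i, (RS.L : ℤ) ∣ u i)
    (m : ℤ) (z : V (n + 2)) (ω : El (n + 2) → Bool) :
    RS.dom (z + m • u) ω = RS.dom z (tr (fun y => y + m • u) ω) := by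
  choose w hw using hL
  have h : m • u = (RS.L : ℤ) • (m • w) := by
    funext i
    simp only [Pi.smul_apply, smul_eq_mul]
    rw [hw i]
    ring
  rw [h]
  exact RS.shift_dom _ _ _

theorem sg_shift (RS : RoadSys κ (n + 2) p) (A : Axis u K) (hL : ∀ i, (RS.L : ℤ) ∣ u i)
    (m j : ℤ) (ω : El (n + 2) → Bool) :
    Sg RS A (m + j) ω = Sg RS A j (tr (fun y => y + m • u) ω) := by
  unfold Sg
  refine Finset.sum_congr rfl fun i _ => ?_
  have h : (m + j) * A.len + (i : ℤ) = m * A.len + (j * A.len + i) := by ring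
  rw [h, A.per_mul, Cost_dom RS hL]

theorem cost_meas (RS : RoadSys κ (n + 2) p) (A : Axis u K) (r : ℕ) (j : ℤ) :
    Measurable (cost RS A r j) := by
  unfold cost
  exact ((measurable_const.add (sg_meas RS A j)).add
    ((avg_meas p _ (sg_meas RS A j)).const_mul 2)).add ((avg_meas p _ (sg_meas RS A j)).const_mul 2)

theorem cost_int (RS : RoadSys κ (n + 2) p) (A : Axis u K) (r : ℕ) (j : ℤ) :
    ∫⁻ ω, cost RS A r j ω ∂(prodBern (El (n + 2)) p) ≤
      ((2 * (Bx (0 : V (n + 2)) (3 * r - 1)).card + 2 : ℕ) : ENNReal)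
        + 5 * (A.len * ENNReal.ofReal RS.C) := by
  unfold cost
  have hm := sg_meas RS A j
  have ha := fun E => avg_meas p E hm
  rw [lintegral_add_right _ ((ha _).const_mul 2), lintegral_add_right _ ((ha _).const_mul 2),
    lintegral_add_right _ hm, lintegral_const_mul _ (ha _), lintegral_const_mul _ (ha _),
    avg_lint p _ hm, avg_lint p _ hm, lintegral_const, measure_univ, mul_one]
  have hI := sg_int RS A j
  set I := ∫⁻ ω, Sg RS A j ω ∂(prodBern (El (n + 2)) p)
  have h5 : ((2 * (Bx (0 : V (n + 2)) (3 * r - 1)).card + 2 : ℕ) : ENNReal) + I + 2 * I + 2 * I =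
      ((2 * (Bx (0 : V (n + 2)) (3 * r - 1)).card + 2 : ℕ) : ENNReal) + 5 * I := by
    ring
  rw [h5]
  gcongr

theorem Cost_avg (RS : RoadSys κ (n + 2) p) (A : Axis u K) (hL : ∀ i, (RS.L : ℤ) ∣ u i) (r : ℕ)
    (σ m m' j : ℤ) (ω : El (n + 2) → Bool) :
    avg p (HB u r σ (m + m')) (Sg RS A (m + j)) ω =
      avg p (HB u r σ m') (Sg RS A j) (tr (fun y => y + m • u) ω) := by
  have h1 := avg_tr p (Equiv.addRight (m • u)) (HB u r σ m') (sg_meas RS A j) ω
  have h2 : (fun y : V (n + 2) => y + m • u) = ⇑(Equiv.addRight (m • u)) := rfl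
  rw [h2, h1]
  have h3 : (fun e : El (n + 2) => e.map ⇑(Equiv.addRight (m • u))) '' HB u r σ m' =
      HB u r σ (m + m') := hb_shift u r σ m m'
  rw [h3]
  congr 1
  funext ω
  exact sg_shift RS A hL m j ω

theorem cost_shift (RS : RoadSys κ (n + 2) p) (A : Axis u K) (hL : ∀ i, (RS.L : ℤ) ∣ u i) (r : ℕ)
    (m j : ℤ) (ω : El (n + 2) → Bool) :
    cost RS A r (m + j) ω = cost RS A r j (tr (fun y => y + m • u) ω) := by
  unfold cost
  have h1 : m + j + 1 = m + (j + 1) := by ring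
  rw [h1, Cost_avg RS A hL, Cost_avg RS A hL, sg_shift RS A hL]

end Pool.Agent.H75.TA
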