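import Pool.Agent.H47.GM.Aut
import Pool.Agent.H47.GM.Erg

/-!
# TA2 module ErgSh: the shift by a nonzero vector is ergodic for the Bernoulli product measure

Mixing by approximation with sets depending on finitely many coordinates.
-/

open MeasureTheory Filter Topology
open Pool.Agent.H17.IIC Pool.Agent.H41.QC Pool.Agent.H47.GM
open scoped symmDiff

namespace Pool.Agent.H75.TA

section Gen

variable {ι : Type*}

/-- sets depending on finitely many coordinates -/
def ErgSh_alg (ι : Type*) : Set (Set (ι → Bool)) := {A | ∃ Λ : Finset ι, On (Λ : Set ι) A}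

lemma ErgSh_isAlg : IsSetAlgebra (ErgSh_alg ι) where
  empty_mem := ⟨∅, fun _ _ _ => Iff.rfl⟩
  compl_mem := by
    rintro A ⟨Λ, h⟩
    exact ⟨Λ, Erg_compl h⟩
  union_mem := by
    classical
    rintro A B ⟨Λ, hA⟩ ⟨Λ', hB⟩
    refine ⟨Λ ∪ Λ', fun ω ω' h => ?_⟩
    exact or_congr
      (hA ω ω' fun i hi => h i (Finset.mem_coe.2 (Finset.mem_union_left _ (Finset.mem_coe.1 hi))))
      (hB ω ω' fun i hi => h i (Finset.mem_coe.2 (Finset.mem_union_right _ (Finset.mem_coe.1 hi))))

lemma ErgSh_generate :
    (MeasurableSpace.pi : MeasurableSpace (ι → Bool)) =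
      MeasurableSpace.generateFrom (ErgSh_alg ι) := by
  apply le_antisymm
  · refine iSup_le fun i => ?_
    rintro _ ⟨t, -, rfl⟩
    refine MeasurableSpace.measurableSet_generateFrom ⟨{i}, fun ω ω' h => ?_⟩
    show ω i ∈ t ↔ ω' i ∈ t
    rw [h i (by simp)]
  · refine MeasurableSpace.generateFrom_le ?_
    rintro A ⟨Λ, h⟩
    exact h.measurableSet

lemma ErgSh_iter (s : ι → ι) (k : ℕ) (ω : ι → Bool) :
    (fun (ω : ι → Bool) i => ω (s i))^[k] ω = fun i => ω (s^[k] i) := by
  induction k generalizing ω with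
  | zero => rfl
  | succ k ih =>
    rw [Function.iterate_succ_apply, ih]
    funext i
    rw [Function.iterate_succ_apply']

/-- a relabelling that moves every finite set away from itself is ergodic -/
theorem ergodic_of_far (par : ι → unitInterval) (s : ι → ι) (hinj : Function.Injective s)
    (hpar : ∀ i, par (s i) = par i)
    (hfar : ∀ Λ : Finset ι, ∃ k : ℕ, ∀ i ∈ Λ, s^[k] i ∉ Λ) :
    Ergodic (fun (ω : ι → Bool) i => ω (s i)) (mu par) := by
  have hmp : MeasurePreserving (fun (ω : ι → Bool) i => ω (s i)) (mu par) (mu par) := by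
    refine ⟨mu_measurable_comp s, ?_⟩
    rw [mu_comp par s hinj]
    congr 1
    funext i
    exact hpar i
  refine ⟨hmp, ⟨?_⟩⟩
  intro A hA hinv
  set a := (mu par).real A with ha
  have ha1 : a ≤ 1 := measureReal_le_one
  have ha0 : 0 ≤ a := measureReal_nonneg
  have key : ∀ ε : ℝ, 0 < ε → |a - a ^ 2| ≤ 4 * ε := by
    intro ε hε
    obtain ⟨B, ⟨Λ, hΛ⟩, hB⟩ := (Measure.MeasureDense.of_generateFrom_isSetAlgebra_finite
      (mu par) ErgSh_isAlg ErgSh_generate).approx A hA (measure_ne_top _ _) ε hε
    have hBr : (mu par).real (A ∆ B) < ε :=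
      (ENNReal.toReal_lt_of_lt_ofReal hB)
    have hBm : MeasurableSet B := hΛ.measurableSet
    obtain ⟨k, hk⟩ := hfar Λ
    have hinvk : (fun (ω : ι → Bool) i => ω (s i))^[k] ⁻¹' A = A := by
      clear hk
      induction k with
      | zero => rfl
      | succ k ih =>
        rw [Function.iterate_succ, Set.preimage_comp, ih, hinv]
    have hmpk := hmp.iterate k
    set B' : Set (ι → Bool) := (fun (ω : ι → Bool) i => ω (s i))^[k] ⁻¹' B with hB'
    have hB'm : MeasurableSet B' := hmpk.measurable hBm
    have h1 : (mu par).real (A ∆ B') < ε := by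
      have h2 : A ∆ B' = (fun (ω : ι → Bool) i => ω (s i))^[k] ⁻¹' (A ∆ B) := by
        rw [Set.preimage_symmDiff, hinvk]
      rw [h2, measureReal_def, hmpk.measure_preimage
        ((hA.symmDiff hBm).nullMeasurableSet)]
      exact hBr
    have h3 : (mu par).real B' = (mu par).real B := by
      rw [measureReal_def, hmpk.measure_preimage hBm.nullMeasurableSet]
      rfl
    have hind : (mu par).real (B ∩ B') = (mu par).real B * (mu par).real B' := by
      refine mu_indep par (Λ : Set ι) hBm hB'm hΛ ?_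
      intro ω ω' h
      show (fun (ω : ι → Bool) i => ω (s i))^[k] ω ∈ B ↔
        (fun (ω : ι → Bool) i => ω (s i))^[k] ω' ∈ B
      rw [ErgSh_iter, ErgSh_iter]
      refine hΛ _ _ fun i hi => h _ ?_
      exact fun hc => hk i (Finset.mem_coe.1 hi) (Finset.mem_coe.1 hc)
    have e1 : (mu par).real (A \ B) ≤ (mu par).real (A ∆ B) :=
      measureReal_mono (Set.subset_union_left) (measure_ne_top _ _)
    have e2 : (mu par).real (B \ A) ≤ (mu par).real (A ∆ B) :=
      measureReal_mono (Set.subset_union_right) (measure_ne_top _ _)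
    have e3 : (mu par).real (A \ B') ≤ (mu par).real (A ∆ B') :=
      measureReal_mono (Set.subset_union_left) (measure_ne_top _ _)
    have f1 : a ≤ (mu par).real B + (mu par).real (A \ B) := by
      refine (measureReal_mono (s₂ := B ∪ (A \ B)) ?_ (measure_ne_top _ _)).trans
        (measureReal_union_le _ _)
      intro x hx
      by_cases h : x ∈ B
      · exact Or.inl h
      · exact Or.inr ⟨hx, h⟩
    have f2 : (mu par).real B ≤ a + (mu par).real (B \ A) := by
      refine (measureReal_mono (s₂ := A ∪ (B \ A)) ?_ (measure_ne_top _ _)).trans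
        (measureReal_union_le _ _)
      intro x hx
      by_cases h : x ∈ A
      · exact Or.inl h
      · exact Or.inr ⟨hx, h⟩
    have f3 : a ≤ (mu par).real (B ∩ B') + (mu par).real (A \ B) + (mu par).real (A \ B') := by
      refine (measureReal_mono (s₂ := ((B ∩ B') ∪ (A \ B)) ∪ (A \ B')) ?_
        (measure_ne_top _ _)).trans ((measureReal_union_le _ _).trans ?_)
      · intro x hx
        by_cases h : x ∈ B
        · by_cases h' : x ∈ B'
          · exact Or.inl (Or.inl ⟨h, h'⟩)
          · exact Or.inr ⟨hx, h'⟩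
        · exact Or.inl (Or.inr ⟨hx, h⟩)
      · gcongr
        exact measureReal_union_le _ _
    have f4 : (mu par).real (B ∩ B') ≤ a + (mu par).real (B \ A) := by
      refine (measureReal_mono (s₂ := A ∪ (B \ A)) ?_ (measure_ne_top _ _)).trans
        (measureReal_union_le _ _)
      intro x hx
      by_cases h : x ∈ A
      · exact Or.inl h
      · exact Or.inr ⟨hx.1, h⟩
    have hb0 : 0 ≤ (mu par).real B := measureReal_nonneg
    have hb1 : (mu par).real B ≤ 1 := measureReal_le_one
    rw [hind, h3] at f3 f4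
    set b := (mu par).real B
    rw [abs_le]
    constructor <;> nlinarith
  have hsq : a - a ^ 2 = 0 := by
    by_contra hne
    have hpos : 0 < |a - a ^ 2| := abs_pos.2 hne
    have := key (|a - a ^ 2| / 8) (by positivity)
    linarith
  have hcase : a = 0 ∨ a = 1 := by
    have : a * (1 - a) = 0 := by linarith [hsq, sq a]
    rcases mul_eq_zero.1 this with h | h
    · exact Or.inl h
    · exact Or.inr (by linarith)
  rw [Filter.eventuallyConst_set']
  rcases hcase with h | h
  · left
    have h0 : (mu par) A = 0 := by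
      rwa [ha, measureReal_eq_zero_iff (measure_ne_top _ _)] at h
    exact ae_eq_empty.2 h0
  · right
    rw [ae_eq_univ]
    have h1 : (mu par).real Aᶜ = 0 := by
      rw [probReal_compl_eq_one_sub hA, ← ha, h, sub_self]
    rwa [measureReal_eq_zero_iff (measure_ne_top _ _)] at h1

end Gen

variable {d : ℕ}

lemma ErgSh_iter_map (v : V d) (k : ℕ) (e : El d) :
    (fun e : El d => e.map (fun y => y + v))^[k] e = e.map (fun y => y + (k : ℤ) • v) := by
  induction k with
  | zero =>
    simp only [Function.iterate_zero, id_eq, Nat.cast_zero, zero_smul, add_zero]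
    exact (congrFun Sym2.map_id' e).symm
  | succ k ih =>
    rw [Function.iterate_succ_apply', ih, Sym2.map_map]
    congr 1
    funext y
    simp only [Function.comp_apply]
    push_cast
    rw [add_smul, one_smul]
    abel

/-- the shift by a nonzero vector is ergodic -/
theorem erg_shift (p : unitInterval) (v : V d) (hv : v ≠ 0) :
    Ergodic (tr (fun y => y + v)) (prodBern (El d) p) := by
  classical
  have h := ergodic_of_far (fun _ : El d => p) (fun e => e.map (fun y => y + v))
    (Sym2.map.injective (add_left_injective v)) (fun _ => rfl) ?_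
  · exact h
  intro Λ
  obtain ⟨j, hj⟩ : ∃ j, v j ≠ 0 := by
    by_contra hc
    push Not at hc
    exact hv (funext hc)
  -- a bound for the coordinates of all vertices of the elements of `Λ`
  obtain ⟨R, hR⟩ : ∃ R : ℕ, ∀ e ∈ Λ, ∀ x ∈ e, |x j| ≤ R := by
    have hb : ∀ e : El d, ∃ n : ℕ, ∀ x ∈ e, |x j| ≤ (n : ℤ) := by
      intro e
      refine Sym2.ind (fun a b => ?_) e
      refine ⟨(max |a j| |b j|).toNat, fun x hx => ?_⟩
      rcases Sym2.mem_iff.1 hx with rfl | rfl
      · exact (le_max_left _ _).trans (Int.self_le_toNat _)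
      · exact (le_max_right _ _).trans (Int.self_le_toNat _)
    choose f hf using hb
    refine ⟨Λ.sup f, fun e he x hx => (hf e x hx).trans ?_⟩
    exact_mod_cast Finset.le_sup (f := f) he
  refine ⟨2 * R + 1, fun e he hc => ?_⟩
  rw [ErgSh_iter_map] at hc
  obtain ⟨x, hx⟩ : ∃ x, x ∈ e := by
    exact Sym2.ind (f := fun e => ∃ x, x ∈ e) (fun a b => ⟨a, Sym2.mem_mk_left a b⟩) e
  have h1 := hR e he x hx
  have h2 := hR _ hc (x + ((2 * R + 1 : ℕ) : ℤ) • v) (Sym2.mem_map.2 ⟨x, hx, rfl⟩)
  rw [Pi.add_apply, Pi.smul_apply, smul_eq_mul] at h2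
  have h3 : ((2 * R + 1 : ℕ) : ℤ) ≤ |((2 * R + 1 : ℕ) : ℤ) * v j| := by
    rw [abs_mul, Nat.abs_cast]
    have : 1 ≤ |v j| := Int.one_le_abs hj
    nlinarith
  have h4 : |((2 * R + 1 : ℕ) : ℤ) * v j| ≤ |x j + ((2 * R + 1 : ℕ) : ℤ) * v j| + |x j| := by
    have := abs_sub (x j + ((2 * R + 1 : ℕ) : ℤ) * v j) (x j)
    simpa using this
  push_cast at h1 h2 h3 h4
  omega

end Pool.Agent.H75.TA
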