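import Pool.Agent.H75.TA.Birk
import Pool.Agent.H75.TA.Cost
import Pool.Agent.H75.TA.ErgSh
import Pool.Agent.H75.TA.StPos

/-!
# TA module CostBirk: costs as Birkhoff sums, frequency of ports
-/

open MeasureTheory Filter Topology
open Pool.Agent.H17.IIC Pool.Agent.H41.QC Pool.Agent.H47.GM Pool.Agent.H17.QA Pool.Agent.H41.QA

namespace Pool.Agent.H75.TA

variable {n : ℕ} {κ : Kind} {p : unitInterval} {u : V (n + 2)} {K : ℕ}

lemma costBirk_int (RS : RoadSys κ (n + 2) p) (A : Axis u K) (r : ℕ) (j : ℤ) :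
    ∫⁻ ω, cost RS A r j ω ∂(prodBern (El (n + 2)) p) ≠ ⊤ := by
  refine ne_top_of_le_ne_top ?_ (cost_int RS A r j)
  refine ENNReal.add_ne_top.2 ⟨ENNReal.natCast_ne_top _, ?_⟩
  exact ENNReal.mul_ne_top (by norm_num)
    (ENNReal.mul_ne_top (ENNReal.natCast_ne_top _) ENNReal.ofReal_ne_top)

lemma costBirk_Ico (f : ℤ → ENNReal) (a b : ℕ) :
    ∑ j ∈ Finset.Ico (a : ℤ) b, f j = ∑ j ∈ Finset.Ico a b, f (j : ℤ) := by
  refine Finset.sum_nbij' (fun j => j.toNat) (fun j => (j : ℤ)) ?_ ?_ ?_ ?_ ?_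
  · intro j hj
    rw [Finset.mem_Ico] at hj ⊢
    omega
  · intro j hj
    rw [Finset.mem_Ico] at hj ⊢
    omega
  · intro j hj
    rw [Finset.mem_Ico] at hj
    show ((j.toNat : ℕ) : ℤ) = j
    omega
  · intro j _
    simp
  · intro j hj
    rw [Finset.mem_Ico] at hj
    have : ((j.toNat : ℕ) : ℤ) = j := by omega
    rw [this]

/-- sums of the costs as Birkhoff sums -/
theorem cost_birk (RS : RoadSys κ (n + 2) p) (A : Axis u K) (hL : ∀ i, (RS.L : ℤ) ∣ u i) (r : ℕ) :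
    ∀ᵐ ω ∂(prodBern (El (n + 2)) p), ∀ a b : ℕ, a ≤ b →
      ∑ j ∈ Finset.Ico (a : ℤ) b, cost RS A r j ω = ENNReal.ofReal
        (birkhoffSum (tr (fun y => y + u)) (fun ω => (cost RS A r 0 ω).toReal) b ω
          - birkhoffSum (tr (fun y => y + u)) (fun ω => (cost RS A r 0 ω).toReal) a ω) := by
  have hfin : ∀ᵐ ω ∂(prodBern (El (n + 2)) p), ∀ j : ℕ, cost RS A r j ω < ⊤ := by
    rw [ae_all_iff]
    intro j
    exact ae_lt_top (cost_meas RS A r j) (costBirk_int RS A r j)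
  filter_upwards [hfin] with ω hω a b hab
  have hc : ∀ j : ℕ, cost RS A r j ω = cost RS A r 0 ((tr (fun y => y + u))^[j] ω) := by
    intro j
    rw [tr_iter, ← cost_shift RS A hL r j 0 ω, add_zero]
  rw [costBirk_Ico]
  have h1 : birkhoffSum (tr (fun y => y + u)) (fun ω => (cost RS A r 0 ω).toReal) b ω
      - birkhoffSum (tr (fun y => y + u)) (fun ω => (cost RS A r 0 ω).toReal) a ω =
      ∑ j ∈ Finset.Ico a b, (cost RS A r 0 ((tr (fun y => y + u))^[j] ω)).toReal := by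
    rw [Finset.sum_Ico_eq_sub _ hab]
    rfl
  rw [h1, ENNReal.ofReal_sum_of_nonneg (fun _ _ => ENNReal.toReal_nonneg)]
  refine Finset.sum_congr rfl fun j _ => ?_
  rw [ENNReal.ofReal_toReal, hc]
  rw [← hc]
  exact (hω j).ne

lemma costBirk_lim {Ω : Type*} [MeasurableSpace Ω] {μ : Measure Ω} [IsProbabilityMeasure μ]
    {T : Ω → Ω} {f : Ω → ℝ} (hT : Ergodic T μ) (hm : Measurable f) (hi : Integrable f μ) {ε : ℝ}
    (hε : 0 < ε) : ∀ᵐ x ∂μ, ∀ᶠ m : ℕ in atTop,
      |birkhoffSum T f m x - (∫ x, f x ∂μ) * m| ≤ ε * m := by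
  have h1 := birk_le hT hm hi (a := ∫ x, f x ∂μ + ε) (by linarith)
  have h2 := birk_ge hT hm hi (a := ∫ x, f x ∂μ - ε) (by linarith)
  filter_upwards [h1, h2] with x hx1 hx2
  filter_upwards [hx1, hx2] with m hm1 hm2
  rw [abs_le]
  constructor
  · rw [sub_mul] at hm2
    linarith
  · rw [add_mul] at hm1
    linarith

/-- ports have a positive frequency (`birk_le`, `birk_ge` for the indicator) -/
theorem port_count (RS : RoadSys κ (n + 2) p) (A : Axis u K) (hu : u ≠ 0) (r : ℕ) {ε : ℝ}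
    (hε : 0 < ε) : ∀ᵐ ω ∂(prodBern (El (n + 2)) p), ∀ᶠ m : ℕ in atTop,
      |(birkhoffSum (tr (fun y => y + u)) (Set.indicator (Port RS A r) (fun _ => (1 : ℝ))) m ω)
        - (prodBern (El (n + 2)) p).real (Port RS A r) * m| ≤ ε * m := by
  have hm := port_meas RS A r
  have h := costBirk_lim (erg_shift p u hu) (f := Set.indicator (Port RS A r) (fun _ => (1 : ℝ)))
    (measurable_const.indicator hm) ((integrable_const 1).indicator hm) hε
  rw [integral_indicator_const _ hm, smul_eq_mul, mul_one] at h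
  exact h

/-- the same for the costs -/
theorem cost_lim (RS : RoadSys κ (n + 2) p) (A : Axis u K) (hu : u ≠ 0) (r : ℕ) {ε : ℝ}
    (hε : 0 < ε) : ∀ᵐ ω ∂(prodBern (El (n + 2)) p), ∀ᶠ m : ℕ in atTop,
      |(birkhoffSum (tr (fun y => y + u)) (fun ω => (cost RS A r 0 ω).toReal) m ω)
        - (∫⁻ ω, cost RS A r 0 ω ∂(prodBern (El (n + 2)) p)).toReal * m| ≤ ε * m := by
  have hm := cost_meas RS A r 0
  have hf := costBirk_int RS A r 0
  have h := costBirk_lim (erg_shift p u hu) (f := fun ω => (cost RS A r 0 ω).toReal)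
    hm.ennreal_toReal (integrable_toReal_of_lintegral_ne_top hm.aemeasurable hf) hε
  rw [integral_toReal hm.aemeasurable (ae_lt_top hm hf)] at h
  exact h

/-- a port in `(m, (1 + η) m]` for all large `m` -/
lemma costBirk_next (RS : RoadSys κ (n + 2) p) (A : Axis u K) (hu : u ≠ 0) {r : ℕ}
    (hpos : 0 < (prodBern (El (n + 2)) p).real (Port RS A r)) {η : ℝ} (hη : 0 < η) :
    ∀ᵐ ω ∂(prodBern (El (n + 2)) p), ∀ᶠ m : ℕ in atTop, ∃ M : ℕ, m < M ∧ (M : ℝ) ≤ (1 + η) * m ∧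
      (tr (fun y => y + u))^[M] ω ∈ Port RS A r := by
  set P : ℝ := (prodBern (El (n + 2)) p).real (Port RS A r) with hP
  have hε : 0 < P * η / (2 * (2 + η)) := by positivity
  filter_upwards [port_count RS A hu r hε] with ω hω
  obtain ⟨N, hN⟩ := eventually_atTop.1 hω
  have htend : Tendsto (fun m : ℕ => P * η / 2 * (m : ℝ)) atTop atTop :=
    tendsto_natCast_atTop_atTop.const_mul_atTop (by positivity)
  filter_upwards [eventually_ge_atTop N,
    htend.eventually_gt_atTop (P + 2 * (P * η / (2 * (2 + η))))] with m hm hm2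
  by_contra hno
  push Not at hno
  set ε : ℝ := P * η / (2 * (2 + η)) with hεd
  set M₀ : ℕ := ⌊(1 + η) * (m : ℝ)⌋₊ with hM₀
  have hm0 : (0 : ℝ) ≤ m := Nat.cast_nonneg m
  have hnn : (0 : ℝ) ≤ (1 + η) * m := by positivity
  have hM0 : m ≤ M₀ := Nat.le_floor (by nlinarith)
  have hfl : (M₀ : ℝ) ≤ (1 + η) * m := Nat.floor_le hnn
  have hfl2 : (1 + η) * m < M₀ + 1 := Nat.lt_floor_add_one _
  have h1 := hN (m + 1) (by omega)
  have h2 := hN (M₀ + 1) (by omega)
  have h3 : birkhoffSum (tr (fun y => y + u)) (Set.indicator (Port RS A r) (fun _ => (1 : ℝ)))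
      (m + 1) ω = birkhoffSum (tr (fun y => y + u))
        (Set.indicator (Port RS A r) (fun _ => (1 : ℝ))) (M₀ + 1) ω := by
    unfold birkhoffSum
    refine Finset.sum_subset (Finset.range_subset_range.2 (by omega)) ?_
    intro x hx hx'
    rw [Finset.mem_range] at hx hx'
    refine Set.indicator_of_notMem ?_ _
    refine hno x (by omega) (le_trans ?_ hfl)
    exact_mod_cast (by omega : x ≤ M₀)
  rw [h3, abs_le] at h1
  rw [abs_le] at h2
  push_cast at h1 h2
  have h4 : P * (M₀ - m) ≤ ε * (M₀ + m + 2) := by linarith [h1.1, h1.2, h2.1, h2.2]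
  have h5 : P * (η * m - 1) ≤ P * (M₀ - m) := mul_le_mul_of_nonneg_left (by linarith) hpos.le
  have h6 : ε * (M₀ + m + 2) ≤ ε * ((2 + η) * m + 2) :=
    mul_le_mul_of_nonneg_left (by linarith) hε.le
  have h7 : ε * (2 + η) = P * η / 2 := by
    rw [hεd]
    field_simp
  have h8 : ε * ((2 + η) * m + 2) = P * η / 2 * m + 2 * ε := by
    rw [← h7]; ring
  have h9 : P * (η * m - 1) = P * η / 2 * m + P * η / 2 * m - P := by ring
  linarith

theorem port_freq (RS : RoadSys κ (n + 2) p) (A : Axis u K) (hu : u ≠ 0) {r : ℕ}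
    (hpos : 0 < (prodBern (El (n + 2)) p).real (Port RS A r)) :
    ∀ᵐ ω ∂(prodBern (El (n + 2)) p), ∃ᶠ k : ℕ in atTop,
      (tr (fun y => y + u))^[k] ω ∈ Port RS A r := by
  filter_upwards [costBirk_next RS A hu hpos (η := 1) one_pos] with ω hω
  obtain ⟨N, hN⟩ := eventually_atTop.1 hω
  rw [frequently_atTop]
  intro a
  obtain ⟨M, h1, -, h2⟩ := hN (max a N) (le_max_right _ _)
  exact ⟨M, (le_max_left _ _).trans h1.le, h2⟩

/-- a port in `(m, (1 + η) m]` for all large `m` -/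
theorem port_next (RS : RoadSys κ (n + 2) p) (A : Axis u K) (hu : u ≠ 0) {r : ℕ}
    (hpos : 0 < (prodBern (El (n + 2)) p).real (Port RS A r)) {η : ℝ} (hη : 0 < η) :
    ∀ᵐ ω ∂(prodBern (El (n + 2)) p), ∀ᶠ m : ℕ in atTop, ∃ M : ℕ, m < M ∧ (M : ℝ) ≤ (1 + η) * m ∧
      (tr (fun y => y + u))^[M] ω ∈ Port RS A r :=
  costBirk_next RS A hu hpos hη

end Pool.Agent.H75.TA
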