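import Pool.Agent.H17.QA.ModDefs
import Pool.Agent.H41.QA.MaxIneq
import Pool.Agent.H75.TA.Avg

/-!
# TA: definitions (Theorem A of the QA project: non-summable modules give good starts)

`Axis u K`: bi-infinite path through all `m u`, monotone in the coordinate `0`, straight near the `m u`.
`HB σ m`: finite set of elements (a ball in front of `m u` in direction `σ = ±1` and the first edge).
`Rg σ m J`: all axis vertices in front of `m u`, at distance in `J`, are regular (radius `≈ distance / 16`).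
`St σ m J` (half station): `HB σ m` fully open and, with probability at least one half, the configuration
with `HB σ m` resampled is in `Rg σ m J`. `cost j`: stationary bound for the segment from `j u` to `(j+1) u`.
-/

open MeasureTheory Filter Topology
open Pool.Agent.H17.IIC Pool.Agent.H41.QC Pool.Agent.H47.GM Pool.Agent.H17.QA Pool.Agent.H41.QA

namespace Pool.Agent.H75.TA

variable {n : ℕ}

/-- multiples of the unit vector of the slab direction -/
def e0 (s : ℤ) : V (n + 2) := Pi.single 0 s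

/-- bi-infinite axis path through all `m • u` -/
structure Axis (u : V (n + 2)) (K : ℕ) where
  len : ℕ
  ax : ℤ → V (n + 2)
  len_pos : 1 ≤ len
  len_le : (len : ℤ) ≤ K * u 0
  step : ∀ s, ax s = ax (s + 1) ∨ LatAdj (ax s) (ax (s + 1))
  per : ∀ s, ax (s + len) = ax s + u
  mono : ∀ s, ax s 0 ≤ ax (s + 1) 0
  near : ∀ s, 4 * |s| ≤ u 0 → ax s = e0 s

/-- the fully open elements of the half station -/
def HB (u : V (n + 2)) (r : ℕ) (σ m : ℤ) : Set (El (n + 2)) :=
  InE (Bx (m • u + e0 (3 * r * σ)) (3 * r - 1) : Set (V (n + 2))) ∪ {s(m • u, m • u + e0 σ)}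

/-- radius at distance `t` -/
def rad (r : ℕ) (t : ℤ) : ℕ := max r (t.toNat / 16)

variable {κ : Kind} {p : unitInterval} {u : V (n + 2)} {K : ℕ}

/-- distance (coordinate `0`) of the axis vertex number `t` in direction `σ` seen from `m u` -/
def off (A : Axis u K) (σ m : ℤ) (t : ℕ) : ℤ := σ * (A.ax (m * A.len + σ * t) 0 - m * u 0)

/-- all axis vertices in front of `m u` in direction `σ`, at distance in `J`, are regular -/
def Rg (RS : RoadSys κ (n + 2) p) (A : Axis u K) (r : ℕ) (σ m : ℤ) (J : Set ℤ) :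
    Set (El (n + 2) → Bool) :=
  {ω | ∀ t : ℕ, 3 * r ≤ t → off A σ m t ∈ J →
    ω ∈ RS.reg (A.ax (m * A.len + σ * t)) (rad r (off A σ m t))}

/-- half station at `m u` in direction `σ` -/
def St (RS : RoadSys κ (n + 2) p) (A : Axis u K) (r : ℕ) (σ m : ℤ) (J : Set ℤ) :
    Set (El (n + 2) → Bool) :=
  {ω | (∀ e ∈ HB u r σ m, ω e = true) ∧
    1 / 2 ≤ (prodBern (El (n + 2)) p).real {x | mix (HB u r σ m) x ω ∈ Rg RS A r σ m J}}

/-- sum of the costs over the segment number `j` of the axis -/
noncomputable def Sg (RS : RoadSys κ (n + 2) p) (A : Axis u K) (j : ℤ) (ω : El (n + 2) → Bool) :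
    ENNReal := ∑ i ∈ Finset.range A.len, RS.dom (A.ax (j * A.len + i)) ω

/-- stationary bound for the cost of segment `j` -/
noncomputable def cost (RS : RoadSys κ (n + 2) p) (A : Axis u K) (r : ℕ) (j : ℤ)
    (ω : El (n + 2) → Bool) : ENNReal :=
  ((2 * (Bx (0 : V (n + 2)) (3 * r - 1)).card + 2 : ℕ) : ENNReal) + Sg RS A j ω
    + 2 * avg p (HB u r 1 j) (Sg RS A j) ω + 2 * avg p (HB u r (-1) (j + 1)) (Sg RS A j) ω

/-- the port event at `0` -/
def Port (RS : RoadSys κ (n + 2) p) (A : Axis u K) (r : ℕ) : Set (El (n + 2) → Bool) :=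
  St RS A r 1 0 Set.univ ∩ St RS A r (-1) 0 Set.univ ∩ {ω | ω s((0 : V (n + 2)), 0) = true}

/-- augmented module event -/
def AMod (RS : RoadSys κ (n + 2) p) (A : Axis u K) (r : ℕ) (b c C₁ : ℝ) (α β : ℕ) :
    Set (El (n + 2) → Bool) :=
  St RS A r (-1) α {h | 2 * h ≤ α * u 0} ∩ Mod κ b c C₁ u α β ∩
    St RS A r 1 β {h | 2 * h ≤ β * u 0}

end Pool.Agent.H75.TA
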