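import Mathlib

/-!
# TA module Kac: integrability of the cost up to the next port

`A j = {ω ∈ P, T^i ω ∉ P for 1 ≤ i ≤ j}`. For `N` fixed the sets `(T^(N-j))⁻¹ (A j)`, `j < N`, are pairwise
disjoint (`N - j` is the last time in `P`), so `∑_(j<N) ∫_(A j) f ∘ T^j = ∑_(j<N) ∫ 1_(A j) ∘ T^(N-j) f ∘ T^N
≤ ∫ f ∘ T^N = ∫ f`.
-/

open MeasureTheory Filter Topology

namespace Pool.Agent.H75.TA

variable {Ω : Type*} [MeasurableSpace Ω] {μ : Measure Ω}

/-- in `P` now, and no return during the next `j` steps -/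
def noRet (T : Ω → Ω) (P : Set Ω) (j : ℕ) : Set Ω :=
  {ω | ω ∈ P ∧ ∀ i, 1 ≤ i → i ≤ j → T^[i] ω ∉ P}

theorem noRet_meas {T : Ω → Ω} (hT : Measurable T) {P : Set Ω} (hP : MeasurableSet P) (j : ℕ) :
    MeasurableSet (noRet T P j) := by
  have e : noRet T P j = P ∩ ⋂ i : ℕ, ⋂ (_ : 1 ≤ i), ⋂ (_ : i ≤ j), (T^[i] ⁻¹' P)ᶜ := by
    ext ω
    simp [noRet]
  rw [e]
  refine hP.inter (MeasurableSet.iInter fun i => MeasurableSet.iInter fun _ =>
    MeasurableSet.iInter fun _ => ?_)
  exact ((hT.iterate i) hP).compl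

theorem kac {T : Ω → Ω} (hT : MeasurePreserving T μ μ) {P : Set Ω} (hP : MeasurableSet P)
    {f : Ω → ENNReal} (hf : Measurable f) :
    ∑' j : ℕ, ∫⁻ ω in noRet T P j, f (T^[j] ω) ∂μ ≤ ∫⁻ ω, f ω ∂μ := by
  refine ENNReal.tsum_le_of_sum_range_le fun N => ?_
  have h1 : ∀ j ∈ Finset.range N, ∫⁻ ω in noRet T P j, f (T^[j] ω) ∂μ =
      ∫⁻ ω in T^[N - j] ⁻¹' noRet T P j, f (T^[N] ω) ∂μ := by
    intro j hj
    have hjN := Finset.mem_range.mp hj
    have h2 := (hT.iterate (N - j)).setLIntegral_comp_preimage (noRet_meas hT.measurable hP j)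
      (f := fun ω => f (T^[j] ω)) (hf.comp (hT.measurable.iterate j))
    rw [← h2]
    refine lintegral_congr fun ω => ?_
    rw [← Function.iterate_add_apply]
    congr 2
    have : j + (N - j) = N := by omega
    rw [this]
  rw [Finset.sum_congr rfl h1, ← lintegral_biUnion_finset]
  · refine (setLIntegral_le_lintegral _ _).trans ?_
    rw [(hT.iterate N).lintegral_comp hf]
  · intro j hj k hk hjk
    have key : ∀ j k : ℕ, k < N → j < k → Disjoint (T^[N - j] ⁻¹' noRet T P j)
        (T^[N - k] ⁻¹' noRet T P k) := by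
      intro j k hk hjk
      rw [Set.disjoint_left]
      intro ω h2 h3
      have h4 := h3.2 (k - j) (by omega) (by omega)
      rw [← Function.iterate_add_apply] at h4
      have : k - j + (N - k) = N - j := by omega
      rw [this] at h4
      exact h4 h2.1
    have hj' := Finset.mem_range.mp (Finset.mem_coe.mp hj)
    have hk' := Finset.mem_range.mp (Finset.mem_coe.mp hk)
    rcases lt_or_gt_of_ne hjk with h | h
    · exact key j k hk' h
    · exact (key k j hj' h).symm
  · intro j _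
    exact (hT.measurable.iterate _) (noRet_meas hT.measurable hP j)

end Pool.Agent.H75.TA
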