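import Pool.Agent.H75.TA.StLoc

/-!
# TA module LinkAux: the spliced configuration between two stations, regularity and costs
-/

open MeasureTheory Filter Topology
open Pool.Agent.H17.IIC Pool.Agent.H41.QC Pool.Agent.H47.GM Pool.Agent.H17.QA Pool.Agent.H41.QA

namespace Pool.Agent.H75.TA

variable {n : ℕ} {κ : Kind} {p : unitInterval} {u : V (n + 2)} {K : ℕ}

/-- open slab between `a u` and `b u`, with the two end vertices -/
def Gap (u : V (n + 2)) (a b : ℤ) : Set (V (n + 2)) :=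
  {v | a * u 0 < v 0 ∧ v 0 < b * u 0} ∪ {a • u, b • u}

/-- radius used at the axis vertex `s` between the stations `a` and `b` -/
def rd (A : Axis u K) (r : ℕ) (a b s : ℤ) : ℕ :=
  rad r (min (A.ax s 0 - a * u 0) (b * u 0 - A.ax s 0))

lemma rad_ge (r : ℕ) (t : ℤ) : r ≤ rad r t := le_max_left _ _

/-- `rad` in integers -/
lemma rad_le {r : ℕ} {t : ℤ} (ht : 0 ≤ t) : (rad r t : ℤ) = r ∨ 16 * (rad r t : ℤ) ≤ t := by
  unfold rad
  rcases le_total (t.toNat / 16) r with h | h
  · left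
    rw [max_eq_left h]
  · right
    rw [max_eq_right h]
    have h1 : 16 * (t.toNat / 16) ≤ t.toNat := Nat.mul_div_le _ _
    have h2 : (t.toNat : ℤ) = t := Int.toNat_of_nonneg ht
    have h3 : (16 : ℤ) * ((t.toNat / 16 : ℕ) : ℤ) ≤ (t.toNat : ℤ) := by exact_mod_cast h1
    linarith

lemma rad_lip {r : ℕ} (hr : 1 ≤ r) {s t : ℤ} (h : s ≤ t + 1) : rad r s ≤ 2 * rad r t := by
  have h1 : s.toNat ≤ t.toNat + 1 := by omega
  have h2 : s.toNat / 16 ≤ t.toNat / 16 + 1 := by omega
  unfold rad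
  omega

/-- sums over blocks -/
lemma sum_blocks (len : ℕ) (g : ℤ → ENNReal) (a : ℤ) (k : ℕ) :
    ∑ s ∈ Finset.Ico (a * len) ((a + k) * len), g s =
      ∑ j ∈ Finset.Ico a (a + k), ∑ i ∈ Finset.range len, g (j * len + i) := by
  induction k with
  | zero => simp
  | succ k ih =>
    have h0 : (0 : ℤ) ≤ len := Int.natCast_nonneg _
    have h1 : a * len ≤ (a + k) * len := by
      apply mul_le_mul_of_nonneg_right _ h0
      have : (0 : ℤ) ≤ k := Int.natCast_nonneg _
      linarith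
    have h2 : (a + k) * len ≤ (a + (k + 1 : ℕ)) * len := by
      apply mul_le_mul_of_nonneg_right _ h0
      push_cast
      linarith
    rw [← Finset.Ico_union_Ico_eq_Ico h1 h2,
      Finset.sum_union (Finset.Ico_disjoint_Ico_consecutive _ _ _), ih]
    have h3 : Finset.Ico a (a + (k + 1 : ℕ)) = insert (a + k) (Finset.Ico a (a + k)) := by
      ext x
      simp only [Finset.mem_Ico, Finset.mem_insert]
      push_cast
      omega
    rw [h3, Finset.sum_insert (by simp), add_comm]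
    congr 1
    symm
    apply Finset.sum_bij (fun (i : ℕ) _ => (a + k) * (len : ℤ) + (i : ℤ))
    · intro i hi
      rw [Finset.mem_range] at hi
      rw [Finset.mem_Ico]
      have : (i : ℤ) < len := by exact_mod_cast hi
      push_cast
      constructor
      · linarith [Int.natCast_nonneg i]
      · linarith
    · intro i _ j _ hij
      have : (i : ℤ) = j := by linarith
      exact_mod_cast this
    · intro s hs
      rw [Finset.mem_Ico] at hs
      push_cast at hs
      refine ⟨(s - (a + k) * len).toNat, ?_, ?_⟩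
      · rw [Finset.mem_range]
        have : ((s - (a + k) * len).toNat : ℤ) < len := by
          rw [Int.toNat_of_nonneg (by linarith [hs.1])]
          linarith [hs.2]
        exact_mod_cast this
      · rw [Int.toNat_of_nonneg (by linarith [hs.1])]
        ring
    · intro i _
      rfl

/-- the data of a road between the stations `a` and `b` -/
structure RoadD (RS : RoadSys κ (n + 2) p) (A : Axis u K) (r : ℕ) (a b : ℤ)
    (ω xa xb : El (n + 2) → Bool) : Prop where
  hr : 1 ≤ r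
  hu : 100 * (r : ℤ) ≤ u 0
  hab : a < b
  rega : ∀ t : ℕ, 3 * r ≤ t → 2 * off A 1 a t ≤ (b - a) * u 0 →
    mix (HB u r 1 a) xa ω ∈ RS.reg (A.ax (a * A.len + t)) (rad r (off A 1 a t))
  regb : ∀ t : ℕ, 3 * r ≤ t → 2 * off A (-1) b t ≤ (b - a) * u 0 →
    mix (HB u r (-1) b) xb ω ∈ RS.reg (A.ax (b * A.len - t)) (rad r (off A (-1) b t))

/-- the spliced configuration -/
noncomputable def spl (u : V (n + 2)) (r : ℕ) (a b : ℤ) (ω xa xb : El (n + 2) → Bool) :
    El (n + 2) → Bool :=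
  mix (HB u r 1 a) xa (mix (HB u r (-1) b) xb ω)

section
variable {RS : RoadSys κ (n + 2) p} {A : Axis u K} {r : ℕ} {a b : ℤ} {ω xa xb : El (n + 2) → Bool}

lemma RoadD.hlen (h : RoadD RS A r a b ω xa xb) : a * A.len + 3 * r ≤ b * A.len - 3 * r := by
  have hr := h.hr
  have hu := h.hu
  have hab := h.hab
  have h1 : (u 0 : ℤ) ≤ A.len := by
    have h2 : A.ax A.len 0 = A.ax 0 0 + u 0 := by
      have := A.per 0
      rw [zero_add] at this
      rw [this, Pi.add_apply]
    have h3 : ∀ k : ℕ, A.ax k 0 ≤ A.ax 0 0 + k := by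
      intro k
      induction k with
      | zero => simp
      | succ k ih =>
        have := A.lip k
        push_cast
        linarith
    have := h3 A.len
    linarith
  have h2 : (1 : ℤ) ≤ b - a := by linarith
  have h3 : (A.len : ℤ) ≤ (b - a) * A.len := by
    have : (0 : ℤ) ≤ A.len := Int.natCast_nonneg _
    nlinarith
  have hr' : (1 : ℤ) ≤ r := by exact_mod_cast hr
  nlinarith

/-- the height at the first axis vertex of the road -/
lemma RoadD.h_lo (h : RoadD RS A r a b ω xa xb) :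
    A.ax (a * A.len + 3 * r) = a • u + e0 (3 * r) := by
  have h1 : A.ax (3 * (r : ℤ)) = e0 (3 * r) := A.near _ (by
    rw [abs_of_nonneg (by positivity)]
    linarith [h.hu, (by exact_mod_cast h.hr : (1 : ℤ) ≤ r)])
  rw [A.per_mul a (3 * r), h1]
  exact add_comm _ _

lemma RoadD.h_hi (h : RoadD RS A r a b ω xa xb) :
    A.ax (b * A.len - 3 * r) = b • u + e0 (-(3 * r)) := by
  have h1 : A.ax (-(3 * (r : ℤ))) = e0 (-(3 * r)) := A.near _ (by
    rw [abs_neg, abs_of_nonneg (by positivity)]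
    linarith [h.hu, (by exact_mod_cast h.hr : (1 : ℤ) ≤ r)])
  rw [sub_eq_add_neg, A.per_mul b (-(3 * r)), h1]
  exact add_comm _ _

lemma e0_zero (s : ℤ) : (e0 s : V (n + 2)) 0 = s := by
  simp [e0]

lemma RoadD.dlo (h : RoadD RS A r a b ω xa xb) {s : ℤ} (hs : a * A.len + 3 * r ≤ s) :
    3 * (r : ℤ) ≤ A.ax s 0 - a * u 0 := by
  have h1 : A.ax (a * A.len + 3 * r) 0 ≤ A.ax s 0 := A.monotone hs
  rw [h.h_lo, Pi.add_apply, e0_zero] at h1
  have h2 : (a • u) 0 = a * u 0 := by simp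
  linarith

lemma RoadD.dhi (h : RoadD RS A r a b ω xa xb) {s : ℤ} (hs : s ≤ b * A.len - 3 * r) :
    3 * (r : ℤ) ≤ b * u 0 - A.ax s 0 := by
  have h1 : A.ax s 0 ≤ A.ax (b * A.len - 3 * r) 0 := A.monotone hs
  rw [h.h_hi, Pi.add_apply, e0_zero] at h1
  have h2 : (b • u) 0 = b * u 0 := by simp
  linarith

lemma RoadD.wid (h : RoadD RS A r a b ω xa xb) : 100 * (r : ℤ) ≤ b * u 0 - a * u 0 := by
  have h1 : (1 : ℤ) ≤ b - a := by linarith [h.hab]
  have h2 := h.hu
  have hr' : (1 : ℤ) ≤ r := by exact_mod_cast h.hr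
  nlinarith

/-- in the left half the ball does not meet the right half station -/
lemma RoadD.sepb (h : RoadD RS A r a b ω xa xb) {s : ℤ} (hs : a * A.len + 3 * r ≤ s)
    (hhalf : A.ax s 0 - a * u 0 ≤ b * u 0 - A.ax s 0) {e : El (n + 2)}
    (he : e ∈ InE (Bx (A.ax s) (rad r (A.ax s 0 - a * u 0)) : Set (V (n + 2)))) :
    e ∉ HB u r (-1) b := by
  intro he'
  obtain ⟨v, hv⟩ : ∃ v, v ∈ e := by
    induction e using Sym2.ind with
    | _ x y => exact ⟨x, Sym2.mem_mk_left _ _⟩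
  have h1 := hb_near u h.hr (Or.inr rfl) b he' hv
  have h2 := mem_Bx.1 (Finset.mem_coe.1 (he v hv)) 0
  have h3 := (abs_le.1 h2).2
  have h4 := h.dlo hs
  have h5 := h.wid
  have hr' : (1 : ℤ) ≤ r := by exact_mod_cast h.hr
  rcases rad_le (r := r) (t := A.ax s 0 - a * u 0) (by linarith) with h6 | h6
  · rw [h6] at h3
    linarith
  · linarith

lemma RoadD.sepa (h : RoadD RS A r a b ω xa xb) {s : ℤ} (hs : s ≤ b * A.len - 3 * r)
    (hhalf : b * u 0 - A.ax s 0 ≤ A.ax s 0 - a * u 0) {e : El (n + 2)}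
    (he : e ∈ InE (Bx (A.ax s) (rad r (b * u 0 - A.ax s 0)) : Set (V (n + 2)))) :
    e ∉ HB u r 1 a := by
  intro he'
  obtain ⟨v, hv⟩ : ∃ v, v ∈ e := by
    induction e using Sym2.ind with
    | _ x y => exact ⟨x, Sym2.mem_mk_left _ _⟩
  have h1 := hb_near u h.hr (Or.inl rfl) a he' hv
  have h2 := mem_Bx.1 (Finset.mem_coe.1 (he v hv)) 0
  have h3 := (abs_le.1 h2).1
  have h4 := h.dhi hs
  have h5 := h.wid
  have hr' : (1 : ℤ) ≤ r := by exact_mod_cast h.hr
  rcases rad_le (r := r) (t := b * u 0 - A.ax s 0) (by linarith) with h6 | h6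
  · rw [h6] at h3
    linarith
  · linarith

/-- beyond the first segment the ball does not meet the left half station -/
lemma RoadD.fara (h : RoadD RS A r a b ω xa xb) {s : ℤ} (hs : (a + 1) * A.len ≤ s) {e : El (n + 2)}
    (he : e ∈ InE (Bx (A.ax s) (rad r (A.ax s 0 - a * u 0)) : Set (V (n + 2)))) :
    e ∉ HB u r 1 a := by
  intro he'
  obtain ⟨v, hv⟩ : ∃ v, v ∈ e := by
    induction e using Sym2.ind with
    | _ x y => exact ⟨x, Sym2.mem_mk_left _ _⟩
  have h1 := hb_near u h.hr (Or.inl rfl) a he' hv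
  have h2 := mem_Bx.1 (Finset.mem_coe.1 (he v hv)) 0
  have h3 := (abs_le.1 h2).1
  have hr' : (1 : ℤ) ≤ r := by exact_mod_cast h.hr
  have hu := h.hu
  have h4 : (a + 1) * u 0 ≤ A.ax s 0 := by
    have h7 : A.ax ((a + 1) * A.len) 0 ≤ A.ax s 0 := A.monotone hs
    rw [A.ax_mul (by linarith)] at h7
    simpa using h7
  rcases rad_le (r := r) (t := A.ax s 0 - a * u 0) (by linarith) with h6 | h6
  · rw [h6] at h3
    linarith
  · linarith

lemma RoadD.farb (h : RoadD RS A r a b ω xa xb) {s : ℤ} (hs : s ≤ (b - 1) * A.len) {e : El (n + 2)}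
    (he : e ∈ InE (Bx (A.ax s) (rad r (b * u 0 - A.ax s 0)) : Set (V (n + 2)))) :
    e ∉ HB u r (-1) b := by
  intro he'
  obtain ⟨v, hv⟩ : ∃ v, v ∈ e := by
    induction e using Sym2.ind with
    | _ x y => exact ⟨x, Sym2.mem_mk_left _ _⟩
  have h1 := hb_near u h.hr (Or.inr rfl) b he' hv
  have h2 := mem_Bx.1 (Finset.mem_coe.1 (he v hv)) 0
  have h3 := (abs_le.1 h2).2
  have hr' : (1 : ℤ) ≤ r := by exact_mod_cast h.hr
  have hu := h.hu
  have h4 : A.ax s 0 ≤ (b - 1) * u 0 := by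
    have h7 : A.ax s 0 ≤ A.ax ((b - 1) * A.len) 0 := A.monotone hs
    rw [A.ax_mul (by linarith)] at h7
    simpa using h7
  rcases rad_le (r := r) (t := b * u 0 - A.ax s 0) (by linarith) with h6 | h6
  · rw [h6] at h3
    linarith
  · linarith

/-- left half: the spliced configuration agrees with the left splice on the ball -/
lemma RoadD.eqa (h : RoadD RS A r a b ω xa xb) {s : ℤ} (hs : a * A.len + 3 * r ≤ s)
    (hhalf : A.ax s 0 - a * u 0 ≤ b * u 0 - A.ax s 0) {e : El (n + 2)}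
    (he : e ∈ InE (Bx (A.ax s) (rad r (A.ax s 0 - a * u 0)) : Set (V (n + 2)))) :
    mix (HB u r 1 a) xa ω e = spl u r a b ω xa xb e := by
  unfold spl
  by_cases h1 : e ∈ HB u r 1 a
  · rw [mix_in _ _ h1, mix_in _ _ h1]
  · rw [mix_out _ _ h1, mix_out _ _ h1, mix_out _ _ (h.sepb hs hhalf he)]

lemma RoadD.eqb (h : RoadD RS A r a b ω xa xb) {s : ℤ} (hs : s ≤ b * A.len - 3 * r)
    (hhalf : b * u 0 - A.ax s 0 ≤ A.ax s 0 - a * u 0) {e : El (n + 2)}
    (he : e ∈ InE (Bx (A.ax s) (rad r (b * u 0 - A.ax s 0)) : Set (V (n + 2)))) :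
    mix (HB u r (-1) b) xb ω e = spl u r a b ω xa xb e := by
  unfold spl
  rw [mix_out (E := HB u r 1 a) _ _ (h.sepa hs hhalf he)]

/-- regularity of the left splice -/
lemma RoadD.ra (h : RoadD RS A r a b ω xa xb) {s : ℤ} (hs : a * A.len + 3 * r ≤ s)
    (hhalf : A.ax s 0 - a * u 0 ≤ b * u 0 - A.ax s 0) :
    mix (HB u r 1 a) xa ω ∈ RS.reg (A.ax s) (rad r (A.ax s 0 - a * u 0)) := by
  obtain ⟨t, ht⟩ : ∃ t : ℕ, s = a * A.len + t := ⟨(s - a * A.len).toNat, by
    rw [Int.toNat_of_nonneg (by linarith [Int.natCast_nonneg r])]; ring⟩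
  subst ht
  have h1 : off A 1 a t = A.ax (a * A.len + t) 0 - a * u 0 := by simp [off]
  have h2 := h.rega t (by
    have : (3 : ℤ) * r ≤ t := by linarith
    exact_mod_cast this) (by rw [h1]; linarith)
  rwa [h1] at h2

lemma RoadD.rb (h : RoadD RS A r a b ω xa xb) {s : ℤ} (hs : s ≤ b * A.len - 3 * r)
    (hhalf : b * u 0 - A.ax s 0 ≤ A.ax s 0 - a * u 0) :
    mix (HB u r (-1) b) xb ω ∈ RS.reg (A.ax s) (rad r (b * u 0 - A.ax s 0)) := by
  obtain ⟨t, ht⟩ : ∃ t : ℕ, s = b * A.len - t := ⟨(b * A.len - s).toNat, by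
    rw [Int.toNat_of_nonneg (by linarith [Int.natCast_nonneg r])]; ring⟩
  subst ht
  have h1 : off A (-1) b t = b * u 0 - A.ax (b * A.len - t) 0 := by
    simp only [off]
    rw [show b * (A.len : ℤ) + -1 * (t : ℤ) = b * A.len - t by ring]
    ring
  have h2 := h.regb t (by
    have : (3 : ℤ) * r ≤ t := by linarith
    exact_mod_cast this) (by rw [h1]; linarith)
  rwa [h1] at h2

/-- all axis vertices between the stations are regular for the spliced configuration -/
theorem RoadD.reg (h : RoadD RS A r a b ω xa xb) {s : ℤ} (hs : a * A.len + 3 * r ≤ s)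
    (hs' : s ≤ b * A.len - 3 * r) : spl u r a b ω xa xb ∈ RS.reg (A.ax s) (rd A r a b s) := by
  unfold rd
  rcases le_total (A.ax s 0 - a * u 0) (b * u 0 - A.ax s 0) with h1 | h1
  · rw [min_eq_left h1]
    exact (RS.reg_on _ _ _ _ fun e he => h.eqa hs h1 he).1 (h.ra hs h1)
  · rw [min_eq_right h1]
    exact (RS.reg_on _ _ _ _ fun e he => h.eqb hs' h1 he).1 (h.rb hs' h1)

/-- cost bound at the axis vertex `s` of segment `j` -/
theorem RoadD.lam (h : RoadD RS A r a b ω xa xb) {s j : ℤ} (hs : a * A.len + 3 * r ≤ s)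
    (hs' : s ≤ b * A.len - 3 * r) (hj : j * A.len ≤ s) (hj' : s < (j + 1) * A.len) (haj : a ≤ j)
    (hjb : j < b) :
    (RS.lam (A.ax s) (rd A r a b s) (spl u r a b ω xa xb) : ENNReal) ≤
      RS.dom (A.ax s) ω + (if j = a then RS.dom (A.ax s) (mix (HB u r 1 a) xa ω) else 0)
        + (if j = b - 1 then RS.dom (A.ax s) (mix (HB u r (-1) b) xb ω) else 0) := by
  have hlen : (0 : ℤ) ≤ A.len := Int.natCast_nonneg _
  unfold rd
  rcases le_total (A.ax s 0 - a * u 0) (b * u 0 - A.ax s 0) with h1 | h1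
  · rw [min_eq_left h1, ← RS.lam_on _ _ _ _ (h.ra hs h1) fun e he => h.eqa hs h1 he]
    by_cases hja : j = a
    · rw [if_pos hja]
      exact (RS.lam_le _ _ _ (h.ra hs h1)).trans (le_add_left le_rfl |>.trans le_self_add)
    · have h2 : (a + 1) * A.len ≤ s := by
        have : a + 1 ≤ j := by omega
        nlinarith
      have h3 : ∀ e ∈ InE (Bx (A.ax s) (rad r (A.ax s 0 - a * u 0)) : Set (V (n + 2))),
          mix (HB u r 1 a) xa ω e = ω e := fun e he => mix_out _ _ (h.fara h2 he)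
      rw [RS.lam_on _ _ _ _ (h.ra hs h1) h3]
      have h4 : ω ∈ RS.reg (A.ax s) (rad r (A.ax s 0 - a * u 0)) :=
        (RS.reg_on _ _ _ _ h3).1 (h.ra hs h1)
      exact (RS.lam_le _ _ _ h4).trans (le_self_add.trans le_self_add)
  · rw [min_eq_right h1, ← RS.lam_on _ _ _ _ (h.rb hs' h1) fun e he => h.eqb hs' h1 he]
    by_cases hjb' : j = b - 1
    · rw [if_pos hjb']
      exact (RS.lam_le _ _ _ (h.rb hs' h1)).trans (le_add_left le_rfl)
    · have h2 : s ≤ (b - 1) * A.len := by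
        have : j + 1 ≤ b - 1 := by omega
        nlinarith
      have h3 : ∀ e ∈ InE (Bx (A.ax s) (rad r (b * u 0 - A.ax s 0)) : Set (V (n + 2))),
          mix (HB u r (-1) b) xb ω e = ω e := fun e he => mix_out _ _ (h.farb h2 he)
      rw [RS.lam_on _ _ _ _ (h.rb hs' h1) h3]
      have h4 : ω ∈ RS.reg (A.ax s) (rad r (b * u 0 - A.ax s 0)) :=
        (RS.reg_on _ _ _ _ h3).1 (h.rb hs' h1)
      exact (RS.lam_le _ _ _ h4).trans (le_self_add.trans le_self_add)

end

end Pool.Agent.H75.TA
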