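import Pool.Agent.H41.QA.ListPath
import Pool.Agent.H94.BM.Walks

/-!
# TA module Lists: open connections as lists
-/

open MeasureTheory Filter Topology
open Pool.Agent.H17.IIC Pool.Agent.H41.QC Pool.Agent.H47.GM Pool.Agent.H17.QA Pool.Agent.H41.QA

namespace Pool.Agent.H75.TA

variable {d : ℕ} {κ : Kind}

theorem rw_mono {ω ω' : El d → Bool} (h : ∀ e, ω e = true → ω' e = true) {U U' : Set (V d)}
    (hU : U ⊆ U') {x y : V d} {N N' : ℕ} (hN : N ≤ N') (hr : Rw κ ω U x y N) :
    Rw κ ω' U' x y N' :=
  Pool.Agent.H94.BM.rw_mono h hU hN hr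

/-- concatenation and loop erasure -/
theorem rw_trans {ω : El d → Bool} {U : Set (V d)} {x y z : V d} {N M : ℕ}
    (h1 : Rw κ ω U x y N) (h2 : Rw κ ω U y z M) : Rw κ ω U x z (N + M) :=
  Pool.Agent.H94.BM.rw_trans h1 h2

/-- connections inside a fully open ball -/
theorem rw_box {ω : El d → Bool} (c : V d) (r : ℕ)
    (hfull : ∀ e ∈ InE (Bx c r : Set (V d)), ω e = true) {x y : V d} (hx : x ∈ Bx c r)
    (hy : y ∈ Bx c r) : Rw κ ω (Bx c r : Set (V d)) x y (Bx c r).card :=
  Pool.Agent.H94.BM.rw_box hfull hx hy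

lemma Lists_cons {R : V d → V d → Prop} {l : List (V d)} {x x' : V d} (h : l.IsChain R)
    (hx : l.head? = some x') (hR : R x x') : (x :: l).IsChain R := by
  cases l with
  | nil => simp
  | cons a t =>
    simp only [List.head?_cons, Option.some.injEq] at hx
    subst hx
    exact List.isChain_cons_cons.2 ⟨hR, h⟩

lemma Lists_snoc {R : V d → V d → Prop} {l : List (V d)} {y y' : V d} (h : l.IsChain R)
    (hy : l.getLast? = some y') (hR : R y' y) : (l ++ [y]).IsChain R := by
  rw [List.isChain_append]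
  refine ⟨h, by simp, ?_⟩
  intro a ha b hb
  rw [hy] at ha
  simp only [Option.mem_def, Option.some.injEq, List.head?_cons] at ha hb
  subst ha
  subst hb
  exact hR

/-- adding the two end vertices -/
theorem zc_ends {ω : El d → Bool} {U : Set (V d)} {x x' y y' : V d} {N : ℕ}
    (h : Rw κ ω U x' y' N) (hx : x ∉ U) (hy : y ∉ U) (hxy : x ≠ y) (hxx : LatAdj x x')
    (hyy : LatAdj y' y) (hex : ω s(x, x') = true) (hey : ω s(y', y) = true)
    (hvx : κ = .site → ω s(x, x) = true) (hvy : κ = .site → ω s(y, y) = true) :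
    ∃ N' : ℕ, N' ≤ N + 2 ∧ 1 ≤ Zc κ ω (U ∪ {x, y}) x y N' := by
  obtain ⟨l, hl, h1, h2, hU, hN⟩ := h
  have hxl : x ∉ l := fun h => hx (hU x h)
  have hyl : y ∉ l := fun h => hy (hU y h)
  have h3 : (l ++ [y]).head? = some x' := by
    cases l with
    | nil => simp at h1
    | cons a t => simpa using h1
  refine ⟨l.length + 1, by omega, ?_⟩
  have hmem : x :: (l ++ [y]) ∈ Fam κ ω (U ∪ {x, y}) x y (l.length + 1) := by
    refine ⟨⟨?_, ?_, ?_⟩, by simp, rfl, ?_, ?_⟩
    · rw [List.nodup_cons]
      refine ⟨?_, ?_⟩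
      · simp only [List.mem_append, List.mem_singleton, not_or]
        exact ⟨hxl, hxy⟩
      · rw [List.nodup_append]
        refine ⟨hl.nodup, by simp, ?_⟩
        intro a ha b hb
        rw [List.mem_singleton] at hb
        subst hb
        rintro rfl
        exact hyl ha
    · exact Lists_cons (Lists_snoc hl.chain h2 hyy) h3 hxx
    · have ho := hl.opn
      cases κ with
      | bond =>
        exact Lists_cons (R := fun a b => ω s(a, b) = true)
          (Lists_snoc (R := fun a b => ω s(a, b) = true) ho h2 hey) h3 hex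
      | site =>
        intro a ha
        rw [List.mem_cons, List.mem_append, List.mem_singleton] at ha
        rcases ha with rfl | ha | rfl
        · exact hvx rfl
        · exact ho a ha
        · exact hvy rfl
    · rw [List.getLast?_cons, List.getLast?_append]
      simp
    · intro v hv
      rw [List.mem_cons, List.mem_append, List.mem_singleton] at hv
      rcases hv with rfl | hv | rfl
      · exact Or.inr (Or.inl rfl)
      · exact Or.inl (hU v hv)
      · exact Or.inr (Or.inr rfl)
  unfold Zc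
  have hpos : 0 < (Fam κ ω (U ∪ {x, y}) x y (l.length + 1)).ncard :=
    (Set.ncard_pos (fam_finite κ ω _ x y _)).2 ⟨_, hmem⟩
  omega

end Pool.Agent.H75.TA
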