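import Pool.Agent.H75.TA.Cost
import Pool.Agent.H75.TA.LinkAux
import Pool.Agent.H75.TA.Lists

/-!
# TA module Link: the road between two stations (deterministic)
-/

open MeasureTheory Filter Topology
open Pool.Agent.H17.IIC Pool.Agent.H41.QC Pool.Agent.H47.GM Pool.Agent.H17.QA Pool.Agent.H41.QA

namespace Pool.Agent.H75.TA

variable {n : ℕ} {κ : Kind} {p : unitInterval} {u : V (n + 2)} {K : ℕ}

lemma card_bx (c : V (n + 2)) (r : ℕ) : (Bx c r).card = (Bx (0 : V (n + 2)) r).card := by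
  unfold Bx
  rw [Fintype.card_piFinset, Fintype.card_piFinset]
  apply Finset.prod_congr rfl
  intro i _
  rw [Int.card_Icc, Int.card_Icc]
  congr 1
  simp only [Pi.zero_apply]
  ring

section
variable {RS : RoadSys κ (n + 2) p} {A : Axis u K} {r : ℕ} {a b : ℤ} {ω xa xb : El (n + 2) → Bool}

/-- the list of pairs (axis vertex, radius) of the road -/
noncomputable def road (A : Axis u K) (r : ℕ) (a b : ℤ) (L : ℕ) : List (V (n + 2) × ℕ) :=
  (List.range (L + 1)).map fun i : ℕ =>
    (A.ax (a * A.len + 3 * r + i), rd A r a b (a * A.len + 3 * r + i))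

lemma rd_step (A : Axis u K) {r : ℕ} (hr : 1 ≤ r) (a b s : ℤ) :
    rd A r a b s ≤ 2 * rd A r a b (s + 1) ∧ rd A r a b (s + 1) ≤ 2 * rd A r a b s := by
  have h1 := A.mono s
  have h2 := A.lip s
  constructor
  · apply rad_lip hr
    rcases le_total (A.ax (s + 1) 0 - a * u 0) (b * u 0 - A.ax (s + 1) 0) with h | h
    · rw [min_eq_left h]
      exact (min_le_left _ _).trans (by linarith)
    · rw [min_eq_right h]
      exact (min_le_right _ _).trans (by linarith)
  · apply rad_lip hr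
    rcases le_total (A.ax s 0 - a * u 0) (b * u 0 - A.ax s 0) with h | h
    · rw [min_eq_left h]
      exact (min_le_left _ _).trans (by linarith)
    · rw [min_eq_right h]
      exact (min_le_right _ _).trans (by linarith)

/-- the balls of the road stay in the open slab -/
lemma RoadD.region (h : RoadD RS A r a b ω xa xb) {s : ℤ} (hs : a * A.len + 3 * r ≤ s)
    (hs' : s ≤ b * A.len - 3 * r) {v : V (n + 2)} (hv : v ∈ Bx (A.ax s) (rd A r a b s)) :
    a * u 0 < v 0 ∧ v 0 < b * u 0 := by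
  have h1 := abs_le.1 (mem_Bx.1 hv 0)
  have h2 := h.dlo hs
  have h3 := h.dhi hs'
  have hr' : (1 : ℤ) ≤ r := by exact_mod_cast h.hr
  have h4 : 0 ≤ min (A.ax s 0 - a * u 0) (b * u 0 - A.ax s 0) := le_min (by linarith) (by linarith)
  have h5 := min_le_left (A.ax s 0 - a * u 0) (b * u 0 - A.ax s 0)
  have h6 := min_le_right (A.ax s 0 - a * u 0) (b * u 0 - A.ax s 0)
  unfold rd at h1
  rcases rad_le (r := r) h4 with h7 | h7
  · rw [h7] at h1
    constructor <;> linarith [h1.1, h1.2]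
  · constructor
    · linarith [h1.1]
    · linarith [h1.2]

lemma spl_le (hfa : ∀ e ∈ HB u r 1 a, ω e = true) (hfb : ∀ e ∈ HB u r (-1) b, ω e = true)
    (e : El (n + 2)) (he : spl u r a b ω xa xb e = true) : ω e = true := by
  unfold spl at he
  by_cases h1 : e ∈ HB u r 1 a
  · exact hfa e h1
  · rw [mix_out _ _ h1] at he
    by_cases h2 : e ∈ HB u r (-1) b
    · exact hfb e h2
    · rwa [mix_out _ _ h2] at he

/-- the middle part of the road -/
lemma RoadD.mid (h : RoadD RS A r a b ω xa xb) (hfa : ∀ e ∈ HB u r 1 a, ω e = true)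
    (hfb : ∀ e ∈ HB u r (-1) b, ω e = true) {L : ℕ}
    (hL : (L : ℤ) = (b * A.len - 3 * r) - (a * A.len + 3 * r)) :
    Rw κ ω {v | a * u 0 < v 0 ∧ v 0 < b * u 0}
      (RS.hub (A.ax (a * A.len + 3 * r)) r (spl u r a b ω xa xb))
      (RS.hub (A.ax (b * A.len - 3 * r)) r (spl u r a b ω xa xb))
      (∑ i ∈ Finset.range (L + 1), RS.lam (A.ax (a * A.len + 3 * r + i))
        (rd A r a b (a * A.len + 3 * r + i)) (spl u r a b ω xa xb)) := by
  have hr' : (1 : ℤ) ≤ r := by exact_mod_cast h.hr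
  have hu := h.hu
  have hrange : ∀ i : ℕ, i ≤ L → a * A.len + 3 * (r : ℤ) + i ≤ b * A.len - 3 * r := by
    intro i hi
    have : (i : ℤ) ≤ L := by exact_mod_cast hi
    linarith
  have h0 : rd A r a b (a * A.len + 3 * r) = r := by
    unfold rd
    have h1 : A.ax (a * A.len + 3 * r) 0 - a * u 0 = 3 * r := by
      rw [h.h_lo, Pi.add_apply, e0_zero]
      simp
    have h2 := h.dhi (s := a * A.len + 3 * r) h.hlen
    rw [min_eq_left (by linarith), h1]
    unfold rad
    apply max_eq_left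
    have : (3 * (r : ℤ)).toNat = 3 * r := by
      have : (3 * (r : ℤ)) = ((3 * r : ℕ) : ℤ) := by push_cast; ring
      rw [this, Int.toNat_natCast]
    rw [this]
    omega
  have h1 : rd A r a b (b * A.len - 3 * r) = r := by
    unfold rd
    have h1 : b * u 0 - A.ax (b * A.len - 3 * r) 0 = 3 * r := by
      rw [h.h_hi, Pi.add_apply, e0_zero]
      simp
    have h2 := h.dlo (s := b * A.len - 3 * r) h.hlen
    rw [min_eq_right (by linarith), h1]
    unfold rad
    apply max_eq_left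
    have : (3 * (r : ℤ)).toNat = 3 * r := by
      have : (3 * (r : ℤ)) = ((3 * r : ℕ) : ℤ) := by push_cast; ring
      rw [this, Int.toNat_natCast]
    rw [this]
    omega
  have hpath := RS.path (spl u r a b ω xa xb) (road A r a b L) ?_ ?_
    (A.ax (a * A.len + 3 * r), r) (A.ax (b * A.len - 3 * r), r) ?_ ?_
  · have hsum : ((road A r a b L).map fun q => RS.lam q.1 q.2 (spl u r a b ω xa xb)).sum =
        ∑ i ∈ Finset.range (L + 1), RS.lam (A.ax (a * A.len + 3 * r + i))
          (rd A r a b (a * A.len + 3 * r + i)) (spl u r a b ω xa xb) := by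
      rw [road, List.map_map]
      rfl
    rw [hsum] at hpath
    refine rw_mono (spl_le hfa hfb) ?_ le_rfl hpath
    rintro v ⟨q, hq, hv⟩
    obtain ⟨i, hi, rfl⟩ := List.mem_map.1 hq
    rw [List.mem_range] at hi
    exact h.region (by linarith [Int.natCast_nonneg i]) (hrange i (by omega)) hv
  · rw [road, List.isChain_map, List.isChain_range_succ]
    intro m _
    have h2 := rd_step A h.hr a b (a * A.len + 3 * r + m)
    have h3 : a * A.len + 3 * (r : ℤ) + (m.succ : ℕ) = a * A.len + 3 * r + m + 1 := by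
      push_cast
      ring
    simp only [h3]
    exact ⟨A.step _, h2.1, h2.2⟩
  · intro q hq
    obtain ⟨i, hi, rfl⟩ := List.mem_map.1 hq
    rw [List.mem_range] at hi
    exact ⟨h.hr.trans (rad_ge _ _),
      h.reg (by linarith [Int.natCast_nonneg i]) (hrange i (by omega))⟩
  · rw [road, List.head?_map, List.head?_range]
    simp [h0]
  · rw [road, List.getLast?_map, List.getLast?_range]
    have h4 : a * A.len + 3 * (r : ℤ) + L = b * A.len - 3 * r := by linarith
    simp [h4, h1]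

/-- the total cost of the middle part -/
lemma RoadD.sum_le (h : RoadD RS A r a b ω xa xb) {L : ℕ}
    (hL : (L : ℤ) = (b * A.len - 3 * r) - (a * A.len + 3 * r)) :
    ((∑ i ∈ Finset.range (L + 1), RS.lam (A.ax (a * A.len + 3 * r + i))
        (rd A r a b (a * A.len + 3 * r + i)) (spl u r a b ω xa xb) : ℕ) : ENNReal) ≤
      (∑ j ∈ Finset.Ico a b, Sg RS A j ω) + Sg RS A a (mix (HB u r 1 a) xa ω)
        + Sg RS A (b - 1) (mix (HB u r (-1) b) xb ω) := by
  have hr' : (1 : ℤ) ≤ r := by exact_mod_cast h.hr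
  have hlen : (1 : ℤ) ≤ A.len := by exact_mod_cast A.len_pos
  set g : ℤ → ENNReal := fun s =>
    if a * A.len + 3 * r ≤ s ∧ s ≤ b * A.len - 3 * r then
      (RS.lam (A.ax s) (rd A r a b s) (spl u r a b ω xa xb) : ENNReal) else 0 with hg
  have h1 : ((∑ i ∈ Finset.range (L + 1), RS.lam (A.ax (a * A.len + 3 * r + i))
        (rd A r a b (a * A.len + 3 * r + i)) (spl u r a b ω xa xb) : ℕ) : ENNReal) ≤
      ∑ s ∈ Finset.Ico (a * (A.len : ℤ)) (b * A.len), g s := by
    push_cast
    have h2 : ∀ i ∈ Finset.range (L + 1), (RS.lam (A.ax (a * A.len + 3 * r + i))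
        (rd A r a b (a * A.len + 3 * r + i)) (spl u r a b ω xa xb) : ENNReal) =
        g (a * A.len + 3 * r + i) := by
      intro i hi
      rw [Finset.mem_range] at hi
      have : (i : ℤ) ≤ L := by exact_mod_cast (by omega : i ≤ L)
      rw [hg]
      simp only
      rw [if_pos ⟨by linarith [Int.natCast_nonneg i], by linarith⟩]
    rw [Finset.sum_congr rfl h2]
    have hinj : Function.Injective (fun i : ℕ => a * (A.len : ℤ) + 3 * r + i) := by
      intro i j hij
      simpa using hij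
    have h3 := Finset.sum_map (Finset.range (L + 1)) ⟨_, hinj⟩ g
    simp only [Function.Embedding.coeFn_mk] at h3
    rw [← h3]
    apply Finset.sum_le_sum_of_subset
    intro s hs
    rw [Finset.mem_map] at hs
    obtain ⟨i, hi, rfl⟩ := hs
    rw [Finset.mem_range] at hi
    have : (i : ℤ) ≤ L := by exact_mod_cast (by omega : i ≤ L)
    simp only [Function.Embedding.coeFn_mk, Finset.mem_Ico]
    constructor
    · linarith [Int.natCast_nonneg i]
    · linarith
  obtain ⟨k, hk⟩ : ∃ k : ℕ, b = a + k := ⟨(b - a).toNat, by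
    rw [Int.toNat_of_nonneg (by linarith [h.hab])]; ring⟩
  refine h1.trans ?_
  have h3 := sum_blocks A.len g a k
  rw [← hk] at h3
  rw [h3]
  have h4 : ∀ j ∈ Finset.Ico a b, ∑ i ∈ Finset.range A.len, g (j * A.len + i) ≤
      Sg RS A j ω + (if j = a then Sg RS A j (mix (HB u r 1 a) xa ω) else 0)
        + (if j = b - 1 then Sg RS A j (mix (HB u r (-1) b) xb ω) else 0) := by
    intro j hj
    rw [Finset.mem_Ico] at hj
    have h5 : ∀ i ∈ Finset.range A.len, g (j * A.len + i) ≤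
        RS.dom (A.ax (j * A.len + i)) ω
          + (if j = a then RS.dom (A.ax (j * A.len + i)) (mix (HB u r 1 a) xa ω) else 0)
          + (if j = b - 1 then RS.dom (A.ax (j * A.len + i)) (mix (HB u r (-1) b) xb ω) else 0) := by
      intro i hi
      rw [Finset.mem_range] at hi
      have hi' : (i : ℤ) < A.len := by exact_mod_cast hi
      rw [hg]
      simp only
      by_cases h6 : a * A.len + 3 * r ≤ j * A.len + (i : ℤ) ∧ j * A.len + (i : ℤ) ≤ b * A.len - 3 * r
      · rw [if_pos h6]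
        exact h.lam h6.1 h6.2 (by linarith [Int.natCast_nonneg i]) (by linarith) hj.1 hj.2
      · rw [if_neg h6]
        exact zero_le
    refine (Finset.sum_le_sum h5).trans (le_of_eq ?_)
    rw [Finset.sum_add_distrib, Finset.sum_add_distrib]
    unfold Sg
    split_ifs <;> simp
  refine (Finset.sum_le_sum h4).trans (le_of_eq ?_)
  rw [Finset.sum_add_distrib, Finset.sum_add_distrib, Finset.sum_ite_eq' , Finset.sum_ite_eq']
  have hab := h.hab
  rw [if_pos (Finset.mem_Ico.2 ⟨le_rfl, hab⟩), if_pos (Finset.mem_Ico.2 ⟨by omega, by omega⟩)]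

end

theorem link (RS : RoadSys κ (n + 2) p) (A : Axis u K) {r : ℕ} (hr : 1 ≤ r)
    (hu : 100 * (r : ℤ) ≤ u 0) {a b : ℤ} (hab : a < b) {Ja Jb : Set ℤ}
    (hJa : ∀ h : ℤ, 0 ≤ h → 2 * h ≤ (b - a) * u 0 → h ∈ Ja)
    (hJb : ∀ h : ℤ, 0 ≤ h → 2 * h ≤ (b - a) * u 0 → h ∈ Jb) {ω : El (n + 2) → Bool}
    (ha : ω ∈ St RS A r 1 a Ja) (hb : ω ∈ St RS A r (-1) b Jb)
    (hva : κ = .site → ω s(a • u, a • u) = true) (hvb : κ = .site → ω s(b • u, b • u) = true) :
    ∃ N : ℕ, 1 ≤ Zc κ ω (Gap u a b) (a • u) (b • u) N ∧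
      (N : ENNReal) ≤ ∑ j ∈ Finset.Ico a b, cost RS A r j ω := by
  have hr' : (1 : ℤ) ≤ r := by exact_mod_cast hr
  obtain ⟨hfa, hpa⟩ := ha
  obtain ⟨hfb, hpb⟩ := hb
  obtain ⟨xa, hxa, hca⟩ := avg_sel p (HB u r 1 a) (sg_meas RS A a) (rg_meas RS A r 1 a Ja) hpa
  obtain ⟨xb, hxb, hcb⟩ := avg_sel p (HB u r (-1) b) (sg_meas RS A (b - 1))
    (rg_meas RS A r (-1) b Jb) hpb
  have hoff : ∀ (σ : ℤ), (σ = 1 ∨ σ = -1) → ∀ (m : ℤ) (t : ℕ), 3 * r ≤ t → 0 ≤ off A σ m t := by
    intro σ hσ m t ht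
    have h1 : off A σ m 0 ≤ off A σ m t := off_mono A hσ m (Nat.zero_le t)
    have h2 : off A σ m 0 = (0 : ℕ) := off_near A hσ m (by
      push_cast
      linarith)
    rw [h2] at h1
    exact_mod_cast h1
  have h : RoadD RS A r a b ω xa xb :=
    { hr := hr
      hu := hu
      hab := hab
      rega := by
        intro t ht h2
        have h3 := hxa t ht (hJa _ (hoff 1 (Or.inl rfl) a t ht) h2)
        rwa [one_mul] at h3
      regb := by
        intro t ht h2
        have h3 := hxb t ht (hJb _ (hoff (-1) (Or.inr rfl) b t ht) h2)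
        rwa [show b * (A.len : ℤ) + -1 * (t : ℤ) = b * A.len - t by ring] at h3 }
  obtain ⟨L, hL⟩ : ∃ L : ℕ, (L : ℤ) = (b * A.len - 3 * r) - (a * A.len + 3 * r) :=
    ⟨_, Int.toNat_of_nonneg (by linarith [h.hlen])⟩
  have hmid := h.mid hfa hfb hL
  have hsum := h.sum_le hL
  set Lm := ∑ i ∈ Finset.range (L + 1), RS.lam (A.ax (a * A.len + 3 * r + i))
        (rd A r a b (a * A.len + 3 * r + i)) (spl u r a b ω xa xb) with hLm
  set U : Set (V (n + 2)) := {v | a * u 0 < v 0 ∧ v 0 < b * u 0} with hU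
  have hwid := h.wid
  have hau : (a • u) 0 = a * u 0 := by simp
  have hbu : (b • u) 0 = b * u 0 := by simp
  have hrd0 : rd A r a b (a * A.len + 3 * r) = r := by
    unfold rd
    have h1 : A.ax (a * A.len + 3 * r) 0 - a * u 0 = 3 * r := by
      rw [h.h_lo, Pi.add_apply, e0_zero]
      simp
    have h2 := h.dhi (s := a * A.len + 3 * r) h.hlen
    rw [min_eq_left (by linarith), h1]
    unfold rad
    apply max_eq_left
    have : (3 * (r : ℤ)).toNat = 3 * r := by
      have : (3 * (r : ℤ)) = ((3 * r : ℕ) : ℤ) := by push_cast; ring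
      rw [this, Int.toNat_natCast]
    rw [this]
    omega
  have hrd1 : rd A r a b (b * A.len - 3 * r) = r := by
    unfold rd
    have h1 : b * u 0 - A.ax (b * A.len - 3 * r) 0 = 3 * r := by
      rw [h.h_hi, Pi.add_apply, e0_zero]
      simp
    have h2 := h.dlo (s := b * A.len - 3 * r) h.hlen
    rw [min_eq_right (by linarith), h1]
    unfold rad
    apply max_eq_left
    have : (3 * (r : ℤ)).toNat = 3 * r := by
      have : (3 * (r : ℤ)) = ((3 * r : ℕ) : ℤ) := by push_cast; ring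
      rw [this, Int.toNat_natCast]
    rw [this]
    omega
  have hcast : ((3 * r - 1 : ℕ) : ℤ) = 3 * r - 1 := by
    have : 1 ≤ 3 * r := by omega
    push_cast [Nat.cast_sub this]
    ring
  -- the two boxes
  have hregA := h.reg (s := a * A.len + 3 * r) le_rfl h.hlen
  have hregB := h.reg (s := b * A.len - 3 * r) h.hlen le_rfl
  rw [hrd0] at hregA
  rw [hrd1] at hregB
  have hhA := RS.hub_mem _ _ _ hregA
  have hhB := RS.hub_mem _ _ _ hregB
  have hA1 : RS.hub (A.ax (a * A.len + 3 * r)) r (spl u r a b ω xa xb) ∈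
      Bx (a • u + e0 (3 * r * 1)) (3 * r - 1) := by
    rw [mem_Bx] at hhA ⊢
    intro i
    have h1 := hhA i
    rw [h.h_lo] at h1 ⊢
    rw [mul_one, hcast]
    exact h1.trans (by linarith)
  have hB1 : RS.hub (A.ax (b * A.len - 3 * r)) r (spl u r a b ω xa xb) ∈
      Bx (b • u + e0 (3 * r * (-1))) (3 * r - 1) := by
    rw [mem_Bx] at hhB ⊢
    intro i
    have h1 := hhB i
    rw [h.h_hi] at h1 ⊢
    rw [show (3 * (r : ℤ) * (-1)) = -(3 * r) by ring, hcast]
    exact h1.trans (by linarith)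
  have hA2 : a • u + e0 1 ∈ Bx (a • u + e0 (3 * r * 1)) (3 * r - 1) := by
    rw [mem_Bx]
    intro i
    rw [hcast]
    simp only [Pi.add_apply, add_sub_add_left_eq_sub]
    by_cases hi : i = 0
    · subst hi
      rw [e0_zero, e0_zero, abs_le]
      constructor <;> linarith
    · simp only [e0, Pi.single_apply, hi, if_false, sub_zero, abs_zero]
      linarith
  have hB2 : b • u + e0 (-1) ∈ Bx (b • u + e0 (3 * r * (-1))) (3 * r - 1) := by
    rw [mem_Bx]
    intro i
    rw [hcast]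
    simp only [Pi.add_apply, add_sub_add_left_eq_sub]
    by_cases hi : i = 0
    · subst hi
      rw [e0_zero, e0_zero, abs_le]
      constructor <;> linarith
    · simp only [e0, Pi.single_apply, hi, if_false, sub_zero, abs_zero]
      linarith
  have hUA : (Bx (a • u + e0 (3 * r * 1)) (3 * r - 1) : Set (V (n + 2))) ⊆ U := by
    intro v hv
    have h1 := abs_le.1 (mem_Bx.1 (Finset.mem_coe.1 hv) 0)
    rw [hcast, Pi.add_apply, hau, e0_zero] at h1
    constructor <;> linarith [h1.1, h1.2]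
  have hUB : (Bx (b • u + e0 (3 * r * (-1))) (3 * r - 1) : Set (V (n + 2))) ⊆ U := by
    intro v hv
    have h1 := abs_le.1 (mem_Bx.1 (Finset.mem_coe.1 hv) 0)
    rw [hcast, Pi.add_apply, hbu, e0_zero] at h1
    constructor <;> linarith [h1.1, h1.2]
  have hrw1 : Rw κ ω U (a • u + e0 1) (RS.hub (A.ax (a * A.len + 3 * r)) r (spl u r a b ω xa xb))
      (Bx (0 : V (n + 2)) (3 * r - 1)).card := by
    have := rw_box (κ := κ) (ω := ω) _ _ (fun e he => hfa e (Or.inl he)) hA2 hA1
    rw [card_bx] at this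
    exact rw_mono (fun _ h => h) hUA le_rfl this
  have hrw3 : Rw κ ω U (RS.hub (A.ax (b * A.len - 3 * r)) r (spl u r a b ω xa xb))
      (b • u + e0 (-1)) (Bx (0 : V (n + 2)) (3 * r - 1)).card := by
    have := rw_box (κ := κ) (ω := ω) _ _ (fun e he => hfb e (Or.inl he)) hB1 hB2
    rw [card_bx] at this
    exact rw_mono (fun _ h => h) hUB le_rfl this
  have hrw := rw_trans (rw_trans hrw1 hmid) hrw3
  have hadjA : LatAdj (a • u) (a • u + e0 1) := ⟨(0, true), by simp [stepVec, e0]⟩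
  have hadjB : LatAdj (b • u + e0 (-1)) (b • u) := by
    apply LatAdj.symm
    exact ⟨(0, false), by simp [stepVec, e0]⟩
  obtain ⟨N, hN, hZ⟩ := zc_ends (x := a • u) (y := b • u) hrw
    (by intro h1; have := h1.1; rw [hau] at this; exact lt_irrefl _ this)
    (by intro h1; have := h1.2; rw [hbu] at this; exact lt_irrefl _ this)
    (by intro h1; have := congrFun h1 0; rw [hau, hbu] at this; linarith)
    hadjA hadjB (hfa _ (Or.inr rfl))
    (by rw [Sym2.eq_swap]; exact hfb _ (Or.inr rfl)) hva hvb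
  refine ⟨N, hZ, ?_⟩
  have hN' : (N : ENNReal) ≤ ((2 * (Bx (0 : V (n + 2)) (3 * r - 1)).card + 2 : ℕ) : ENNReal)
      + (Lm : ENNReal) := by
    have : N ≤ (2 * (Bx (0 : V (n + 2)) (3 * r - 1)).card + 2) + Lm := by omega
    exact_mod_cast this
  refine hN'.trans ?_
  have hmema : a ∈ Finset.Ico a b := Finset.mem_Ico.2 ⟨le_rfl, hab⟩
  have hmemb : b - 1 ∈ Finset.Ico a b := Finset.mem_Ico.2 ⟨by omega, by omega⟩
  set c0 : ENNReal := ((2 * (Bx (0 : V (n + 2)) (3 * r - 1)).card + 2 : ℕ) : ENNReal) with hc0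
  have hsplit : ∑ j ∈ Finset.Ico a b, cost RS A r j ω =
      ∑ j ∈ Finset.Ico a b, c0 + ∑ j ∈ Finset.Ico a b, Sg RS A j ω
        + ∑ j ∈ Finset.Ico a b, 2 * avg p (HB u r 1 j) (Sg RS A j) ω
        + ∑ j ∈ Finset.Ico a b, 2 * avg p (HB u r (-1) (j + 1)) (Sg RS A j) ω := by
    rw [← Finset.sum_add_distrib, ← Finset.sum_add_distrib, ← Finset.sum_add_distrib]
    rfl
  have e1 : c0 ≤ ∑ j ∈ Finset.Ico a b, c0 :=
    Finset.single_le_sum (f := fun _ : ℤ => c0) (fun _ _ => zero_le) hmema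
  have e2 : Sg RS A a (mix (HB u r 1 a) xa ω) ≤
      ∑ j ∈ Finset.Ico a b, 2 * avg p (HB u r 1 j) (Sg RS A j) ω :=
    hca.trans (Finset.single_le_sum (f := fun j : ℤ => 2 * avg p (HB u r 1 j) (Sg RS A j) ω)
      (fun _ _ => zero_le) hmema)
  have e3 : Sg RS A (b - 1) (mix (HB u r (-1) b) xb ω) ≤
      ∑ j ∈ Finset.Ico a b, 2 * avg p (HB u r (-1) (j + 1)) (Sg RS A j) ω := by
    have := Finset.single_le_sum
      (f := fun j : ℤ => 2 * avg p (HB u r (-1) (j + 1)) (Sg RS A j) ω)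
      (fun _ _ => zero_le) hmemb
    simp only [sub_add_cancel] at this
    exact hcb.trans this
  rw [hsplit]
  calc c0 + (Lm : ENNReal) ≤ c0 + ((∑ j ∈ Finset.Ico a b, Sg RS A j ω)
        + Sg RS A a (mix (HB u r 1 a) xa ω) + Sg RS A (b - 1) (mix (HB u r (-1) b) xb ω)) :=
        add_le_add le_rfl hsum
    _ = c0 + (∑ j ∈ Finset.Ico a b, Sg RS A j ω) + Sg RS A a (mix (HB u r 1 a) xa ω)
        + Sg RS A (b - 1) (mix (HB u r (-1) b) xb ω) := by ring
    _ ≤ _ := add_le_add (add_le_add (add_le_add e1 le_rfl) e2) e3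

end Pool.Agent.H75.TA
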