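import Pool.Agent.H41.QA.AbsDefs
import Pool.Agent.H75.TA.Link

/-!
# TA module RichDet: road from the port `0` to the module, module, road from the module to the port `M`

Two applications of `link` and `zc_mul` (families in regions sharing one vertex), `zc_mono`. A nonempty family
gives the openness of its end vertices (site case).
-/

open MeasureTheory Filter Topology
open Pool.Agent.H17.IIC Pool.Agent.H41.QC Pool.Agent.H47.GM Pool.Agent.H17.QA Pool.Agent.H41.QA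

namespace Pool.Agent.H75.TA

variable {n : ℕ} {κ : Kind} {p : unitInterval} {u : V (n + 2)} {K : ℕ}

lemma richDet_smul (u : V (n + 2)) (m : ℤ) : (m • u) 0 = m * u 0 := by
  simp

theorem gap_hs (u : V (n + 2)) {a b M : ℤ} (ha : 0 ≤ a) (hab : a < b) (hb : b ≤ M) (hu : 1 ≤ u 0) :
    Gap u a b ⊆ HS 0 0 (M • u) := by
  have h1 : 0 ≤ a * u 0 := mul_nonneg ha (by linarith)
  have h2 : a * u 0 < b * u 0 := mul_lt_mul_of_pos_right hab (by linarith)
  have h3 : b * u 0 ≤ M * u 0 := mul_le_mul_of_nonneg_right hb (by linarith)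
  rintro v (hv | hv)
  · obtain ⟨h4, h5⟩ := hv
    refine ⟨?_, Or.inl ?_⟩
    · show (0 : ℤ) ≤ v 0
      linarith
    · rw [richDet_smul]
      linarith
  · rcases hv with rfl | hv
    · refine ⟨?_, Or.inl ?_⟩
      · rw [richDet_smul]
        exact h1
      · rw [richDet_smul, richDet_smul]
        linarith
    · rw [Set.mem_singleton_iff] at hv
      subst hv
      refine ⟨?_, ?_⟩
      · rw [richDet_smul]
        show (0 : ℤ) ≤ _
        linarith
      · rcases hb.lt_or_eq with h | h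
        · left
          rw [richDet_smul, richDet_smul]
          exact mul_lt_mul_of_pos_right h (by linarith)
        · right
          rw [h]

/-- end vertices of a nonempty family are open in the site case -/
lemma richDet_ends {ω : El (n + 2) → Bool} {A : Set (V (n + 2))} {x y : V (n + 2)} {N : ℕ}
    (h : 1 ≤ Zc κ ω A x y N) (hκ : κ = .site) : ω s(x, x) = true ∧ ω s(y, y) = true := by
  have hne : (Fam κ ω A x y N).Nonempty := by
    rw [← Set.ncard_pos (fam_finite κ ω A x y N)]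
    exact h
  obtain ⟨l, h1, -, h2, h3, -⟩ := hne
  subst hκ
  have h4 : ∀ a ∈ l, ω s(a, a) = true := h1.opn
  exact ⟨h4 x (List.mem_of_head? h2), h4 y (List.mem_of_getLast? h3)⟩

/-- deterministic part: road, module, road -/
theorem rich_det (RS : RoadSys κ (n + 2) p) (A : Axis u K) {r : ℕ} (hr : 1 ≤ r)
    (hu : 100 * (r : ℤ) ≤ u 0) (b c C₁ : ℝ) {α β M : ℕ} (h1 : 1 ≤ α) (hab : α < β) (hM : β < M)
    (hM2 : M ≤ 2 * β) {ω : El (n + 2) → Bool} (h0 : ω ∈ St RS A r 1 0 Set.univ)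
    (hv0 : ω s((0 : V (n + 2)), 0) = true) (hmod : ω ∈ AMod RS A r b c C₁ α β)
    (hMs : ω ∈ St RS A r (-1) M Set.univ) (hvM : ω s((M : ℤ) • u, (M : ℤ) • u) = true) :
    ∃ N₁ N N₂ : ℕ, (N₁ : ENNReal) ≤ ∑ j ∈ Finset.Ico (0 : ℤ) α, cost RS A r j ω ∧
      (N₂ : ENNReal) ≤ ∑ j ∈ Finset.Ico (β : ℤ) M, cost RS A r j ω ∧
      Real.exp (b * N + c * β) ≤ Zc κ ω (HS 0 0 ((M : ℤ) • u)) 0 ((M : ℤ) • u) (N₁ + N + N₂) := by
  have hr' : (1 : ℤ) ≤ r := by exact_mod_cast hr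
  have hu1 : 1 ≤ u 0 := by linarith
  have hu0 : (0 : ℤ) < u 0 := by linarith
  have h1' : (1 : ℤ) ≤ α := by exact_mod_cast h1
  have hab' : (α : ℤ) < β := by exact_mod_cast hab
  have hM' : (β : ℤ) < M := by exact_mod_cast hM
  have hM2' : (M : ℤ) ≤ 2 * β := by exact_mod_cast hM2
  obtain ⟨⟨hSa, hMd⟩, hSb⟩ := hmod
  obtain ⟨N, hN⟩ := hMd
  have hZ : 1 ≤ Zc κ ω (slab C₁ u α β) ((α : ℤ) • u) ((β : ℤ) • u) N := by
    have h2 : (0 : ℝ) < Zc κ ω (slab C₁ u α β) ((α : ℤ) • u) ((β : ℤ) • u) N :=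
      lt_of_lt_of_le (Real.exp_pos _) hN
    exact Nat.succ_le_of_lt (by exact_mod_cast h2)
  obtain ⟨N₁, hN1, hc1⟩ := link RS A hr hu (a := 0) (b := α) (by linarith)
    (Ja := Set.univ) (Jb := {h | 2 * h ≤ α * u 0}) (fun _ _ _ => Set.mem_univ _)
    (fun h _ hh => by
      rw [sub_zero] at hh
      exact hh) h0 hSa
    (fun _ => by rw [zero_smul]; exact hv0) (fun hκ => (richDet_ends hZ hκ).1)
  obtain ⟨N₂, hN2, hc2⟩ := link RS A hr hu (a := β) (b := M) hM'
    (Ja := {h | 2 * h ≤ β * u 0}) (Jb := Set.univ)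
    (fun h _ hh => by
      have h3 : ((M : ℤ) - β) * u 0 ≤ β * u 0 :=
        mul_le_mul_of_nonneg_right (by linarith) hu0.le
      show 2 * h ≤ β * u 0
      linarith)
    (fun _ _ _ => Set.mem_univ _) hSb hMs (fun hκ => (richDet_ends hZ hκ).2) (fun _ => hvM)
  rw [zero_smul] at hN1
  refine ⟨N₁, N, N₂, hc1, hc2, hN.trans ?_⟩
  have hαβ : (α : ℤ) * u 0 < β * u 0 := mul_lt_mul_of_pos_right hab' hu0
  have hβM : (β : ℤ) * u 0 < M * u 0 := mul_lt_mul_of_pos_right hM' hu0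
  have h0α : 0 < (α : ℤ) * u 0 := mul_pos (by linarith) hu0
  have e1 : Gap u 0 α ∩ slab C₁ u α β ⊆ {(α : ℤ) • u} := by
    rintro v ⟨hv | hv, hs⟩
    · exact absurd hs.1 (not_le.2 hv.2)
    · rcases hv with rfl | hv
      · have := hs.1
        rw [richDet_smul] at this
        exact absurd this (by rw [zero_mul]; exact not_le.2 h0α)
      · exact hv
  have hA : ∀ v ∈ Gap u 0 α ∪ slab C₁ u α β, v 0 ≤ β * u 0 := by
    rintro v ((hv | hv) | hv)
    · linarith [hv.2]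
    · rcases hv with rfl | hv
      · rw [richDet_smul, zero_mul]; linarith
      · rw [Set.mem_singleton_iff] at hv
        subst hv
        rw [richDet_smul]; exact hαβ.le
    · exact hv.2.1
  have e2 : (Gap u 0 α ∪ slab C₁ u α β) ∩ Gap u β M ⊆ {(β : ℤ) • u} := by
    rintro v ⟨hv, hg | hg⟩
    · exact absurd (hA v hv) (not_le.2 hg.1)
    · rcases hg with hg | hg
      · exact hg
      · rw [Set.mem_singleton_iff] at hg
        subst hg
        have := hA _ hv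
        rw [richDet_smul] at this
        exact absurd this (not_le.2 hβM)
  have m1 := zc_mul κ ω (A := Gap u 0 α) (A' := slab C₁ u α β) 0 ((α : ℤ) • u) ((β : ℤ) • u) e1 N₁ N
  have m2 := zc_mul κ ω (A := Gap u 0 α ∪ slab C₁ u α β) (A' := Gap u β M) 0 ((β : ℤ) • u)
    ((M : ℤ) • u) e2 (N₁ + N) N₂
  have hsub : (Gap u 0 α ∪ slab C₁ u α β) ∪ Gap u β M ⊆ HS 0 0 ((M : ℤ) • u) := by
    refine Set.union_subset (Set.union_subset ?_ ?_) ?_
    · exact gap_hs u le_rfl (by linarith) (by linarith) hu1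
    · intro v hv
      refine ⟨?_, Or.inl ?_⟩
      · show (0 : ℤ) ≤ v 0
        linarith [hv.1]
      · rw [richDet_smul]
        linarith [hv.2.1]
    · exact gap_hs u (by linarith) hM' le_rfl hu1
  have m3 := zc_mono κ ω hsub 0 ((M : ℤ) • u) (N₁ + N + N₂)
  have m4 : Zc κ ω (slab C₁ u α β) ((α : ℤ) • u) ((β : ℤ) • u) N ≤
      Zc κ ω (HS 0 0 ((M : ℤ) • u)) 0 ((M : ℤ) • u) (N₁ + N + N₂) := by
    calc Zc κ ω (slab C₁ u α β) ((α : ℤ) • u) ((β : ℤ) • u) N
        = 1 * Zc κ ω (slab C₁ u α β) ((α : ℤ) • u) ((β : ℤ) • u) N * 1 := by ring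
      _ ≤ Zc κ ω (Gap u 0 α) 0 ((α : ℤ) • u) N₁ *
            Zc κ ω (slab C₁ u α β) ((α : ℤ) • u) ((β : ℤ) • u) N *
            Zc κ ω (Gap u β M) ((β : ℤ) • u) ((M : ℤ) • u) N₂ := by gcongr
      _ ≤ Zc κ ω (Gap u 0 α ∪ slab C₁ u α β) 0 ((β : ℤ) • u) (N₁ + N) *
            Zc κ ω (Gap u β M) ((β : ℤ) • u) ((M : ℤ) • u) N₂ := by gcongr
      _ ≤ _ := m2.trans m3
  exact_mod_cast m4

end Pool.Agent.H75.TA
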