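import Pool.Agent.H75.TA.CostBirk
import Pool.Agent.H75.TA.Kac
import Pool.Agent.H75.TA.RichDet

/-!
# TA module Hone: hypothesis (H1), every port has a plain link with integrable cost

`c ω = ∑_j 1_(noRet j) ω * cost 0 (T^j ω)`; for a port with next port at `k`, `c ω = ∑_(j<k) cost j ω`.
Infinitely many ports on every half line: `erg_shift`, `birk_ge` for the indicator of `Port`.
-/

open MeasureTheory Filter Topology
open Pool.Agent.H17.IIC Pool.Agent.H41.QC Pool.Agent.H47.GM Pool.Agent.H17.QA Pool.Agent.H41.QA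

namespace Pool.Agent.H75.TA

variable {n : ℕ} {κ : Kind} {p : unitInterval} {u : V (n + 2)} {K : ℕ}

theorem plain_ae (RS : RoadSys κ (n + 2) p) (A : Axis u K) (hL : ∀ i, (RS.L : ℤ) ∣ u i) {r : ℕ}
    (hr : 1 ≤ r) (hu : 100 * (r : ℤ) ≤ u 0)
    (hpos : 0 < (prodBern (El (n + 2)) p).real (Port RS A r)) :
    ∃ c : (El (n + 2) → Bool) → ENNReal, Measurable c ∧
      ∫⁻ ω, c ω ∂(prodBern (El (n + 2)) p) ≠ ⊤ ∧
      ∀ᵐ ω ∂(prodBern (El (n + 2)) p), ω ∈ Port RS A r → ∃ k : ℕ, 1 ≤ k ∧
        (tr (fun y => y + u))^[k] ω ∈ Port RS A r ∧ ∃ N : ℕ, (N : ENNReal) ≤ c ω ∧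
        1 ≤ Zc κ ω (HS 0 0 ((k : ℤ) • u)) 0 ((k : ℤ) • u) N := by
  classical
  set T : (El (n + 2) → Bool) → (El (n + 2) → Bool) := tr (fun y => y + u) with hT
  have hlaw : (prodBern (El (n + 2)) p).map T = prodBern (El (n + 2)) p :=
    tr_law (Equiv.addRight u) p
  have hTm : Measurable T := measurable_pi_lambda _ fun e => measurable_pi_apply _
  have hmp : MeasurePreserving T (prodBern (El (n + 2)) p) (prodBern (El (n + 2)) p) :=
    ⟨hTm, hlaw⟩
  have hP := port_meas RS A r
  have hcm : Measurable (cost RS A r 0) := cost_meas RS A r 0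
  have hind : ∀ j : ℕ, Measurable ((noRet T (Port RS A r) j).indicator
      (fun ω => cost RS A r 0 (T^[j] ω))) := fun j =>
    (hcm.comp (hTm.iterate j)).indicator (noRet_meas hTm hP j)
  refine ⟨fun ω => ∑' j : ℕ, (noRet T (Port RS A r) j).indicator
    (fun ω => cost RS A r 0 (T^[j] ω)) ω, ?_, ?_, ?_⟩
  · exact Measurable.tsum hind
  · rw [lintegral_tsum (fun j => (hind j).aemeasurable)]
    have h1 : ∀ j : ℕ, ∫⁻ ω, (noRet T (Port RS A r) j).indicator
        (fun ω => cost RS A r 0 (T^[j] ω)) ω ∂(prodBern (El (n + 2)) p) =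
        ∫⁻ ω in noRet T (Port RS A r) j, cost RS A r 0 (T^[j] ω) ∂(prodBern (El (n + 2)) p) :=
      fun j => lintegral_indicator (noRet_meas hTm hP j) _
    rw [tsum_congr h1]
    refine ne_top_of_le_ne_top ?_ ((kac hmp hP hcm).trans (cost_int RS A r 0))
    exact ENNReal.add_ne_top.2 ⟨ENNReal.natCast_ne_top _,
      ENNReal.mul_ne_top (by norm_num) (ENNReal.mul_ne_top (ENNReal.natCast_ne_top _)
        ENNReal.ofReal_ne_top)⟩
  · have hu1 : 1 ≤ u 0 := by
      have : (1 : ℤ) ≤ r := by exact_mod_cast hr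
      linarith
    have hu0 : u ≠ 0 := by
      intro h
      rw [h] at hu1
      simp at hu1
    filter_upwards [port_freq RS A hu0 hpos] with ω hfreq hω
    have hex : ∃ k : ℕ, 1 ≤ k ∧ T^[k] ω ∈ Port RS A r := by
      obtain ⟨k, hk, hk'⟩ := (hfreq.and_eventually (eventually_ge_atTop 1)).exists
      exact ⟨k, hk', hk⟩
    obtain ⟨hk1, hkP⟩ := Nat.find_spec hex
    have hmin : ∀ i, 1 ≤ i → i < Nat.find hex → T^[i] ω ∉ Port RS A r :=
      fun i hi hik h => Nat.find_min hex hik ⟨hi, h⟩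
    generalize Nat.find hex = k at hk1 hkP hmin
    refine ⟨k, hk1, hkP, ?_⟩
    have hP0 := (port_iter RS A hL r 0 ω).1 (by simpa using hω)
    have hPk := (port_iter RS A hL r k ω).1 hkP
    have hk0 : (0 : ℤ) < k := by exact_mod_cast hk1
    obtain ⟨N, hN1, hN2⟩ := link RS A hr hu (a := 0) (b := k) hk0 (Ja := Set.univ)
      (Jb := Set.univ) (fun _ _ _ => Set.mem_univ _) (fun _ _ _ => Set.mem_univ _)
      (by simpa using hP0.1) hPk.2.1 (fun _ => by simpa using hP0.2.2) (fun _ => hPk.2.2)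
    refine ⟨N, hN2.trans ?_, ?_⟩
    · have h1 : ∑ j ∈ Finset.Ico (0 : ℤ) k, cost RS A r j ω =
          ∑ j ∈ Finset.range k, cost RS A r 0 (T^[j] ω) := by
        symm
        refine Finset.sum_nbij' (fun j : ℕ => (j : ℤ)) (fun j : ℤ => j.toNat) ?_ ?_ ?_ ?_ ?_
        · intro j hj
          rw [Finset.mem_range] at hj
          rw [Finset.mem_Ico]
          omega
        · intro j hj
          rw [Finset.mem_Ico] at hj
          rw [Finset.mem_range]
          omega
        · intro j hj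
          simp
        · intro j hj
          rw [Finset.mem_Ico] at hj
          exact Int.toNat_of_nonneg hj.1
        · intro j hj
          have h := cost_shift RS A hL r (j : ℤ) 0 ω
          rw [add_zero] at h
          rw [h, hT, tr_iter]
      rw [h1]
      refine le_trans (le_of_eq ?_) (ENNReal.sum_le_tsum (Finset.range k))
      refine Finset.sum_congr rfl fun j hj => ?_
      rw [Finset.mem_range] at hj
      rw [Set.indicator_of_mem]
      exact ⟨hω, fun i hi hij => hmin i hi (by omega)⟩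
    · have h2 := zc_mono κ ω (gap_hs u (a := 0) (b := k) (M := k) le_rfl hk0 le_rfl hu1)
        ((0 : ℤ) • u) ((k : ℤ) • u) N
      rw [zero_smul] at h2 hN1
      exact hN1.trans h2

end Pool.Agent.H75.TA
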