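import Pool.Agent.H75.TA.CostBirk
import Pool.Agent.H75.TA.RichDet

/-!
# TA module Htwo: hypothesis (H2), almost every port has a rich link

`f = (cost 0).toReal`, `E = ∫ f`. Almost surely: all `cost j` are finite, `∑_(j<m) cost j = S_m f`, and with
`ε`, `κ'` small (depending on `u`, `c`, `b`): eventually `S_m f ≤ (E + ε) m`, `(E - ε) m ≤ S_m f`, the number of
ports before `m` is in `[(q - ε) m, (q + ε) m]`. Take `k` large with `AMod (α k) (β k)`, then a port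
`M ∈ (β k, (1 + κ') β k]`; `b (N₁ + N₂) ≤ c β k`.
-/

open MeasureTheory Filter Topology
open Pool.Agent.H17.IIC Pool.Agent.H41.QC Pool.Agent.H47.GM Pool.Agent.H17.QA Pool.Agent.H41.QA

namespace Pool.Agent.H75.TA

variable {n : ℕ} {κ : Kind} {p : unitInterval} {u : V (n + 2)} {K : ℕ}

theorem Htwo_le {N : ℕ} {x X : ℝ} (h : (N : ENNReal) ≤ ENNReal.ofReal x) (hx : x ≤ X)
    (hX : 0 ≤ X) : (N : ℝ) ≤ X := by
  have h1 : ENNReal.ofReal x ≤ ENNReal.ofReal X := ENNReal.ofReal_le_ofReal hx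
  have h2 := h.trans h1
  have h3 := ENNReal.toReal_mono ENNReal.ofReal_ne_top h2
  rwa [ENNReal.toReal_natCast, ENNReal.toReal_ofReal hX] at h3

theorem Htwo_alg {b c c₀ E ε η α β M u₀ n₁ n₂ S₁ S₂ S₃ : ℝ} (hb : 0 ≤ b) (hc : 0 < c)
    (hc₀ : 0 < c₀) (hE0 : 0 ≤ E) (hu : 0 < u₀) (hβ : 0 ≤ β) (hα : 0 ≤ α)
    (hE : 8 * b * c₀ * (E + 1) ≤ u₀) (hε0 : 0 < ε) (hε1 : ε ≤ 1) (hη0 : 0 < η)
    (hε : 8 * (b + 1) * ε ≤ c) (hη : 8 * (b + 1) * (E + 1) * η ≤ c)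
    (hsm : α * u₀ ≤ c₀ * c * β) (hM1 : β ≤ M) (hM : M ≤ (1 + η) * β) (hM2 : M ≤ 2 * β)
    (h1 : |S₁ - E * α| ≤ ε * α) (h2 : |S₂ - E * β| ≤ ε * β) (h3 : |S₃ - E * M| ≤ ε * M)
    (hn₁ : n₁ ≤ max S₁ 0) (hn₂ : n₂ ≤ max (S₃ - S₂) 0) : b * (n₁ + n₂) ≤ c * β := by
  have e1 := (abs_le.1 h1).2
  have e2 := (abs_le.1 h2).1
  have e3 := (abs_le.1 h3).2
  have f1 : n₁ ≤ (E + 1) * α := by
    refine hn₁.trans (max_le ?_ (by positivity))
    have : ε * α ≤ 1 * α := mul_le_mul_of_nonneg_right hε1 hα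
    linarith
  have f2 : n₂ ≤ E * η * β + 3 * ε * β := by
    refine hn₂.trans (max_le ?_ (by positivity))
    have g1 : E * M ≤ E * ((1 + η) * β) := mul_le_mul_of_nonneg_left hM hE0
    have g2 : ε * M ≤ ε * (2 * β) := mul_le_mul_of_nonneg_left hM2 hε0.le
    nlinarith
  have f3 : b * n₁ ≤ c / 8 * β := by
    have g1 : b * n₁ ≤ b * ((E + 1) * α) := mul_le_mul_of_nonneg_left f1 hb
    have g2 : b * (E + 1) * (α * u₀) ≤ b * (E + 1) * (c₀ * c * β) :=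
      mul_le_mul_of_nonneg_left hsm (by positivity)
    have g3 : (8 * b * c₀ * (E + 1)) * (c * β) ≤ u₀ * (c * β) :=
      mul_le_mul_of_nonneg_right hE (by positivity)
    have g4 : (b * ((E + 1) * α)) * u₀ ≤ (c / 8 * β) * u₀ := by nlinarith
    exact g1.trans (le_of_mul_le_mul_right g4 hu)
  have f4 : b * n₂ ≤ c / 2 * β := by
    have g1 : b * n₂ ≤ b * (E * η * β + 3 * ε * β) := mul_le_mul_of_nonneg_left f2 hb
    have g2 : b * (E * η) ≤ c / 8 := by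
      have : 0 ≤ (b + 1) * η := by positivity
      have : 0 ≤ E * η := by positivity
      nlinarith
    have g3 : b * (3 * ε) ≤ 3 * c / 8 := by nlinarith
    have g4 : b * (E * η) * β ≤ c / 8 * β := mul_le_mul_of_nonneg_right g2 hβ
    have g5 : b * (3 * ε) * β ≤ 3 * c / 8 * β := mul_le_mul_of_nonneg_right g3 hβ
    nlinarith
  have f5 : 0 ≤ c * β := by positivity
  nlinarith

theorem rich_ae (RS : RoadSys κ (n + 2) p) (A : Axis u K) (hL : ∀ i, (RS.L : ℤ) ∣ u i) {r : ℕ}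
    (hr : 1 ≤ r) (hu : 100 * (r : ℤ) ≤ u 0)
    (hpos : 0 < (prodBern (El (n + 2)) p).real (Port RS A r))
    {b c c₀ C₁ : ℝ} (hb : 0 ≤ b) (hc : 0 < c) (hc₀ : 0 < c₀)
    (hE : 8 * b * c₀ * ((∫⁻ ω, cost RS A r 0 ω ∂(prodBern (El (n + 2)) p)).toReal + 1) ≤ u 0)
    {α β : ℕ → ℕ} (hs : ModSeq c₀ c u α β)
    (hio : ∀ᵐ ω ∂(prodBern (El (n + 2)) p), ∃ᶠ k in atTop, ω ∈ AMod RS A r b c C₁ (α k) (β k)) :
    ∀ᵐ ω ∂(prodBern (El (n + 2)) p), ω ∈ Port RS A r → ∃ k : ℕ, 1 ≤ k ∧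
      (tr (fun y => y + u))^[k] ω ∈ Port RS A r ∧ ∃ N : ℕ,
      Real.exp (b * N) ≤ Zc κ ω (HS 0 0 ((k : ℤ) • u)) 0 ((k : ℤ) • u) N := by
  have hu1 : 1 ≤ u 0 := by
    have : (1 : ℤ) ≤ r := by exact_mod_cast hr
    linarith
  have hu0 : u ≠ 0 := by
    intro h
    rw [h] at hu1
    simp at hu1
  have hur : (0 : ℝ) < u 0 := by exact_mod_cast (by linarith : 0 < u 0)
  set E : ℝ := (∫⁻ ω, cost RS A r 0 ω ∂(prodBern (El (n + 2)) p)).toReal with hEdef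
  have hE0 : 0 ≤ E := ENNReal.toReal_nonneg
  set ε : ℝ := min 1 (c / (8 * (b + 1))) with hεdef
  set η : ℝ := min 1 (c / (8 * (b + 1) * (E + 1))) with hηdef
  have hb1 : 0 < b + 1 := by linarith
  have hE1 : 0 < E + 1 := by linarith
  have hε0 : 0 < ε := lt_min one_pos (by positivity)
  have hη0 : 0 < η := lt_min one_pos (by positivity)
  have hε1 : ε ≤ 1 := min_le_left _ _
  have hη1 : η ≤ 1 := min_le_left _ _
  have hε2 : 8 * (b + 1) * ε ≤ c := by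
    have h1 : ε ≤ c / (8 * (b + 1)) := min_le_right _ _
    rw [le_div_iff₀ (by positivity)] at h1
    linarith
  have hη2 : 8 * (b + 1) * (E + 1) * η ≤ c := by
    have h1 : η ≤ c / (8 * (b + 1) * (E + 1)) := min_le_right _ _
    rw [le_div_iff₀ (by positivity)] at h1
    linarith
  have hαm : StrictMono α := by
    apply strictMono_nat_of_lt_succ
    intro k
    have h1 := hs.sparse k
    have h2 := (hs.pos k).2
    omega
  have hαt : Tendsto α atTop atTop := hαm.tendsto_atTop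
  have hβt : Tendsto β atTop atTop := tendsto_atTop_mono (fun k => (hs.pos k).2.le) hαt
  filter_upwards [hio, cost_birk RS A hL r, cost_lim RS A hu0 r hε0,
    port_next RS A hu0 hpos hη0] with ω h1 h2 h3 h4 hP
  obtain ⟨m₀, hm₀⟩ := eventually_atTop.1 h3
  obtain ⟨m₁, hm₁⟩ := eventually_atTop.1 h4
  obtain ⟨k, hk, hka, hkb⟩ := (h1.and_eventually ((hαt.eventually (eventually_ge_atTop m₀)).and
    (hβt.eventually (eventually_ge_atTop (max m₀ m₁))))).exists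
  have hb0 : m₀ ≤ β k := (le_max_left _ _).trans hkb
  obtain ⟨M, hM1, hM2, hM3⟩ := hm₁ (β k) ((le_max_right _ _).trans hkb)
  have hM4 : (M : ℝ) ≤ 2 * (β k : ℝ) := by
    refine hM2.trans ?_
    apply mul_le_mul_of_nonneg_right _ (Nat.cast_nonneg _)
    linarith
  have hM5 : M ≤ 2 * β k := by exact_mod_cast hM4
  obtain ⟨hPM1, hPM2, hPM3⟩ := (port_iter RS A hL r M ω).1 hM3
  have hP0 := (port_iter RS A hL r 0 ω).1 (by simpa using hP)
  obtain ⟨hP1, -, hP3⟩ := hP0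
  have hP1' : ω ∈ St RS A r 1 0 Set.univ := by simpa using hP1
  have hP3' : ω s((0 : V (n + 2)), 0) = true := by simpa using hP3
  obtain ⟨N₁, N, N₂, hN₁, hN₂, hZ⟩ := rich_det RS A hr hu b c C₁ (hs.pos k).1 (hs.pos k).2 hM1 hM5
    hP1' hP3' hk hPM2 hPM3
  refine ⟨M, by omega, hM3, N₁ + N + N₂, le_trans ?_ hZ⟩
  apply Real.exp_le_exp.2
  have hb1' := h2 0 (α k) (Nat.zero_le _)
  have hb2' := h2 (β k) M hM1.le
  rw [Nat.cast_zero] at hb1'
  rw [hb1'] at hN₁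
  rw [hb2'] at hN₂
  have g1 : (N₁ : ℝ) ≤ max (birkhoffSum (tr (fun y => y + u))
      (fun ω => (cost RS A r 0 ω).toReal) (α k) ω) 0 := by
    refine Htwo_le hN₁ ?_ (le_max_right _ _)
    rw [birkhoffSum_zero, sub_zero]
    exact le_max_left _ _
  have g2 : (N₂ : ℝ) ≤ max (birkhoffSum (tr (fun y => y + u))
      (fun ω => (cost RS A r 0 ω).toReal) M ω - birkhoffSum (tr (fun y => y + u))
      (fun ω => (cost RS A r 0 ω).toReal) (β k) ω) 0 :=
    Htwo_le hN₂ (le_max_left _ _) (le_max_right _ _)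
  have key := Htwo_alg hb hc hc₀ hE0 hur (Nat.cast_nonneg (β k)) (Nat.cast_nonneg (α k)) hE hε0 hε1
    hη0 hε2 hη2 (hs.small k) (by exact_mod_cast hM1.le) hM2 hM4 (hm₀ _ hka) (hm₀ _ hb0)
    (hm₀ M (by omega)) g1 g2
  push_cast
  linarith

end Pool.Agent.H75.TA
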