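import Pool.Agent.H47.GM.Mu

/-!
# TA module Ind: second Borel-Cantelli lemma for events on disjoint sets of coordinates
-/

open MeasureTheory Filter Topology
open Pool.Agent.H17.IIC Pool.Agent.H41.QC Pool.Agent.H47.GM

namespace Pool.Agent.H75.TA

variable {ι : Type*}

/-- independence of finitely many events on disjoint sets of coordinates -/
theorem Ind_prod (p : unitInterval) (A : ℕ → Set (ι → Bool)) (E : ℕ → Set ι)
    (hE : ∀ k l, k < l → Disjoint (E k) (E l)) (hA : ∀ k, On (E k) (A k))
    (hm : ∀ k, MeasurableSet (A k)) (t : Finset ℕ) :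
    (prodBern ι p) (⋂ k ∈ t, A k) = ∏ k ∈ t, (prodBern ι p) (A k) := by
  classical
  have hE' : ∀ k l, k ≠ l → Disjoint (E k) (E l) := by
    intro k l hkl
    rcases lt_or_gt_of_ne hkl with h | h
    · exact hE k l h
    · exact (hE l k h).symm
  have hmeas : ∀ t : Finset ℕ, MeasurableSet (⋂ k ∈ t, A k) := fun t =>
    Finset.measurableSet_biInter _ fun k _ => hm k
  have hon : ∀ t : Finset ℕ, On (⋃ k ∈ t, E k) (⋂ k ∈ t, A k) := by
    intro t ω ω' hω
    simp only [Set.mem_iInter]
    refine forall_congr' fun k => forall_congr' fun hk => hA k ω ω' fun i hi => hω i ?_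
    simp only [Set.mem_iUnion]
    exact ⟨k, hk, hi⟩
  induction t using Finset.induction_on with
  | empty => simp
  | insert a t ha ih =>
    have h1 : (⋂ k ∈ insert a t, A k) = A a ∩ ⋂ k ∈ t, A k := by
      ext ω
      simp only [Set.mem_iInter, Finset.mem_insert, Set.mem_inter_iff]
      constructor
      · intro h
        exact ⟨h a (Or.inl rfl), fun k hk => h k (Or.inr hk)⟩
      · rintro ⟨h, h'⟩ k (rfl | hk)
        · exact h
        · exact h' k hk
    have h2 : (mu (fun _ : ι => p)).real (A a ∩ ⋂ k ∈ t, A k) =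
        (mu (fun _ : ι => p)).real (A a) * (mu (fun _ : ι => p)).real (⋂ k ∈ t, A k) := by
      apply mu_indep (fun _ : ι => p) (E a) (hm a) (hmeas t) (hA a)
      refine (hon t).mono ?_
      intro i hi hia
      simp only [Set.mem_iUnion] at hi
      obtain ⟨k, hk, hik⟩ := hi
      have hne : a ≠ k := fun h => ha (h ▸ hk)
      exact (Set.disjoint_left.1 (hE' a k hne)) hia hik
    have h3 : (prodBern ι p) (A a ∩ ⋂ k ∈ t, A k) =
        (prodBern ι p) (A a) * (prodBern ι p) (⋂ k ∈ t, A k) := by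
      rw [← ENNReal.toReal_eq_toReal_iff' (measure_ne_top _ _)
        (ENNReal.mul_ne_top (measure_ne_top _ _) (measure_ne_top _ _)), ENNReal.toReal_mul]
      exact h2
    rw [h1, h3, Finset.prod_insert ha, ih]

theorem bc2 (p : unitInterval) (A : ℕ → Set (ι → Bool)) (E : ℕ → Set ι)
    (hE : ∀ k l, k < l → Disjoint (E k) (E l)) (hA : ∀ k, On (E k) (A k))
    (hm : ∀ k, MeasurableSet (A k)) (hns : ¬ Summable fun k => (prodBern ι p).real (A k)) :
    ∀ᵐ ω ∂(prodBern ι p), ∃ᶠ k in atTop, ω ∈ A k := by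
  have hind : ProbabilityTheory.iIndepSet A (prodBern ι p) :=
    (ProbabilityTheory.iIndepSet_iff_meas_biInter hm).2 (Ind_prod p A E hE hA hm)
  have htop : (∑' n, (prodBern ι p) (A n)) = ⊤ := by
    by_contra h
    exact hns (ENNReal.summable_toReal h)
  have h1 := ProbabilityTheory.measure_limsup_eq_one hm hind htop
  have h2 : MeasurableSet (limsup A atTop) := MeasurableSet.measurableSet_limsup hm
  have h3 : (prodBern ι p) (limsup A atTop)ᶜ = 0 := (prob_compl_eq_zero_iff h2).2 h1
  have h4 : ∀ᵐ ω ∂(prodBern ι p), ω ∈ limsup A atTop := mem_ae_iff.2 h3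
  filter_upwards [h4] with ω hω
  exact mem_limsup_iff_frequently_mem.1 hω

end Pool.Agent.H75.TA
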