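import Pool.Agent.H75.TA.AxisFacts

/-!
# TA module RegSum: for `r` large all the vertices in front of a station are regular (probability `≥ 3/4`)

Union bound: `P(Rgᶜ) ≤ ∑_(t ≥ 3r) C exp (- c rad r (off t))`, `rad r h ≥ (r + h / 16 - 1) / 2`,
`off t ≥ t / (8 K)`; hence at most `C exp (- c r / 2) exp (c / 2) ∑_t exp (- (c / 2) t / (128 K))`,
which tends to `0` as `r → ∞`, uniformly in `u` and the axis.
-/

open MeasureTheory Filter Topology
open Pool.Agent.H17.IIC Pool.Agent.H41.QC Pool.Agent.H47.GM Pool.Agent.H17.QA Pool.Agent.H41.QA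

namespace Pool.Agent.H75.TA

variable {n : ℕ} {κ : Kind} {p : unitInterval}

lemma RegSum_rad (r : ℕ) {h : ℤ} (hh : 0 ≤ h) :
    ((r : ℝ) + (h : ℝ) / 16 - 1) / 2 ≤ (rad r h : ℝ) := by
  have h1 : (r : ℝ) ≤ (rad r h : ℝ) := by
    exact_mod_cast le_max_left r (h.toNat / 16)
  have h2 : (h.toNat / 16 : ℕ) ≤ rad r h := le_max_right _ _
  have h3 : h ≤ 16 * (rad r h : ℤ) + 15 := by omega
  have h4 : (h : ℝ) ≤ 16 * (rad r h : ℝ) + 15 := by exact_mod_cast h3
  linarith

theorem reg_sum (RS : RoadSys κ (n + 2) p) (K : ℕ) : ∃ r : ℕ, 1 ≤ r ∧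
    ∀ (u : V (n + 2)) (A : Axis u K), 100 * (r : ℤ) ≤ u 0 → ∀ σ : ℤ, (σ = 1 ∨ σ = -1) →
      (prodBern (El (n + 2)) p).real (Rg RS A r σ 0 Set.univ)ᶜ ≤ 1 / 4 := by
  rcases Nat.eq_zero_or_pos K with hK | hK
  · subst hK
    refine ⟨1, le_rfl, fun u A _ => ?_⟩
    have h1 := A.len_le
    have h2 := A.len_pos
    simp only [Nat.cast_zero, zero_mul] at h1
    omega
  have hKr : (0 : ℝ) < K := by exact_mod_cast hK
  have hc := RS.hc
  have hC := RS.hC
  set q : ℝ := Real.exp (-(RS.c / (256 * K))) with hq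
  have hq0 : 0 < q := Real.exp_pos _
  have hq1 : q < 1 := by
    rw [hq, Real.exp_lt_one_iff]
    have : 0 < RS.c / (256 * K) := by positivity
    linarith
  set M : ℝ := 4 * (RS.C * Real.exp (RS.c / 2)) / (1 - q) with hM
  have hM0 : 0 < M := by
    have : 0 < 1 - q := by linarith
    positivity
  obtain ⟨r0, hr0⟩ := exists_nat_gt (M / (RS.c / 2))
  refine ⟨r0 + 1, by omega, fun u A hu σ hσ => ?_⟩
  set r : ℕ := r0 + 1 with hr
  have hrM : M ≤ RS.c / 2 * r := by
    have h1 : M / (RS.c / 2) < r := by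
      have : (r0 : ℝ) ≤ r := by rw [hr]; push_cast; linarith
      linarith
    rw [div_lt_iff₀ (by positivity)] at h1
    linarith
  have hexp : RS.C * Real.exp (RS.c / 2) * Real.exp (-(RS.c / 2 * r)) / (1 - q) ≤ 1 / 4 := by
    have h1 : M * Real.exp (-(RS.c / 2 * r)) ≤ 1 := by
      rw [Real.exp_neg, ← div_eq_mul_inv, div_le_one (Real.exp_pos _)]
      have := Real.add_one_le_exp (RS.c / 2 * r)
      linarith
    have h2 : RS.C * Real.exp (RS.c / 2) * Real.exp (-(RS.c / 2 * r)) / (1 - q) =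
        M * Real.exp (-(RS.c / 2 * r)) / 4 := by
      rw [hM]; ring
    rw [h2]
    linarith
  have hu4 : (4 : ℤ) ≤ u 0 := by
    have : (1 : ℤ) ≤ (r : ℤ) := by rw [hr]; push_cast; linarith
    linarith
  set B : ℕ → Set (El (n + 2) → Bool) := fun t =>
    if 3 * r ≤ t then (RS.reg (A.ax (0 * A.len + σ * t)) (rad r (off A σ 0 t)))ᶜ else ∅ with hB
  have hsub : (Rg RS A r σ 0 Set.univ)ᶜ ⊆ ⋃ t, B t := by
    intro ω hω
    simp only [Rg, Set.mem_compl_iff, Set.mem_ofPred_eq, not_forall] at hω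
    obtain ⟨t, ht, -, hreg⟩ := hω
    rw [Set.mem_iUnion]
    refine ⟨t, ?_⟩
    rw [hB]
    simp only [if_pos ht]
    exact hreg
  have hterm : ∀ t, (prodBern (El (n + 2)) p) (B t) ≤
      ENNReal.ofReal (RS.C * Real.exp (RS.c / 2) * Real.exp (-(RS.c / 2 * r)) * q ^ t) := by
    intro t
    by_cases ht : 3 * r ≤ t
    · have h1 : B t = (RS.reg (A.ax (0 * A.len + σ * t)) (rad r (off A σ 0 t)))ᶜ := by
        rw [hB]; simp only [if_pos ht]
      rw [h1, ← ofReal_measureReal (measure_ne_top _ _)]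
      refine ENNReal.ofReal_le_ofReal ((RS.prob _ _).trans ?_)
      have hg := off_grow A hu4 hσ 0 t
      have hoff : 0 ≤ off A σ 0 t := by
        by_contra hneg
        push Not at hneg
        have h2 : 8 * (K : ℤ) * off A σ 0 t < 0 := by
          have : (0 : ℤ) < 8 * K := by
            have : (0 : ℤ) < K := by exact_mod_cast hK
            linarith
          exact mul_neg_of_pos_of_neg this hneg
        have h3 : (0 : ℤ) ≤ t := by positivity
        linarith
      have h2 := RegSum_rad r hoff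
      have h3 : (t : ℝ) / (8 * K) ≤ (off A σ 0 t : ℝ) := by
        rw [div_le_iff₀ (by positivity)]
        have : ((t : ℤ) : ℝ) ≤ ((8 * (K : ℤ) * off A σ 0 t : ℤ) : ℝ) := by exact_mod_cast hg
        push_cast at this
        linarith
      rw [hq, ← Real.exp_nat_mul, mul_assoc, mul_assoc, ← Real.exp_add, ← Real.exp_add]
      refine mul_le_mul_of_nonneg_left (Real.exp_le_exp.mpr ?_) hC.le
      have h4 : (t : ℝ) * -(RS.c / (256 * K)) = -(RS.c * ((t : ℝ) / (8 * K) / 32)) := by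
        field_simp
        ring
      rw [h4]
      nlinarith [mul_le_mul_of_nonneg_left h2 hc.le, mul_le_mul_of_nonneg_left h3 hc.le]
    · have h1 : B t = ∅ := by
        rw [hB]; simp only [if_neg ht]
      rw [h1, measure_empty]
      exact zero_le
  have hsum : (prodBern (El (n + 2)) p) (Rg RS A r σ 0 Set.univ)ᶜ ≤ ENNReal.ofReal (1 / 4) := by
    calc (prodBern (El (n + 2)) p) (Rg RS A r σ 0 Set.univ)ᶜ
        ≤ (prodBern (El (n + 2)) p) (⋃ t, B t) := measure_mono hsub
      _ ≤ ∑' t, (prodBern (El (n + 2)) p) (B t) := measure_iUnion_le _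
      _ ≤ ∑' t, ENNReal.ofReal
          (RS.C * Real.exp (RS.c / 2) * Real.exp (-(RS.c / 2 * r)) * q ^ t) :=
        ENNReal.tsum_le_tsum hterm
      _ = ENNReal.ofReal (∑' t, RS.C * Real.exp (RS.c / 2) * Real.exp (-(RS.c / 2 * r)) * q ^ t) := by
        rw [ENNReal.ofReal_tsum_of_nonneg]
        · intro t; positivity
        · exact (summable_geometric_of_lt_one hq0.le hq1).mul_left _
      _ ≤ ENNReal.ofReal (1 / 4) := by
        refine ENNReal.ofReal_le_ofReal ?_
        rw [tsum_mul_left, tsum_geometric_of_lt_one hq0.le hq1, ← div_eq_mul_inv]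
        exact hexp
  rw [measureReal_def]
  refine (ENNReal.toReal_mono ENNReal.ofReal_ne_top hsum).trans ?_
  rw [ENNReal.toReal_ofReal (by norm_num)]

end Pool.Agent.H75.TA
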