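import Pool.Agent.H41.QA.AbsA
import Pool.Agent.H75.TA.AModP
import Pool.Agent.H75.TA.AxisEx
import Pool.Agent.H75.TA.Hone
import Pool.Agent.H75.TA.Htwo
import Pool.Agent.H75.TA.RegSum

/-!
# TA module Main: Theorem A of the QA project
-/

open MeasureTheory Filter Topology
open Pool.Agent.H17.IIC Pool.Agent.H41.QC Pool.Agent.H47.GM Pool.Agent.H17.QA Pool.Agent.H41.QA

namespace Pool.Agent.H75.TA

variable {n : ℕ}

theorem thmA {κ : Kind} {p : unitInterval} (RS : RoadSys κ (n + 2) p) (hp : 0 < (p : ℝ))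
    (b : ℝ) (hb : 0 ≤ b) (Λ : ℕ) :
    ∃ c₀ : ℝ, 0 < c₀ ∧ ∃ U₀ : ℕ, 1 ≤ U₀ ∧ ∀ u : V (n + 2), (U₀ : ℤ) ≤ u 0 →
      (∀ i, |u i| ≤ Λ * u 0) → (∀ i, (RS.L : ℤ) ∣ u i) →
      ∀ (c C₁ : ℝ), 0 < c → ∀ α β : ℕ → ℕ, ModSeq c₀ c u α β →
        (¬ Summable fun k => (prodBern (El (n + 2)) p).real (Mod κ b c C₁ u (α k) (β k))) →
        ∀ δ : ℝ, 0 < δ → ∀ᵐ ω ∂(prodBern (El (n + 2)) p), ∃ x : V (n + 2),
          ∀ᶠ N : ℕ in atTop, Real.exp ((b - δ) * N) ≤ Pn κ ω N x := by
  set K : ℕ := (n + 2) * Λ + 1 with hK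
  obtain ⟨r, hr, hreg⟩ := reg_sum RS K
  set D : ℝ := (2 * (Bx (0 : V (n + 2)) (3 * r - 1)).card + 2 : ℕ) + 5 * (K * RS.C) with hD
  have hC := RS.hC
  have hD0 : 0 ≤ D := by positivity
  refine ⟨1 / (8 * (b + 1) * (D + 1)), by positivity, 100 * r, by omega, ?_⟩
  intro u hu hΛ hL c C₁ hc α β hs hns δ hδ
  have hu' : 100 * (r : ℤ) ≤ u 0 := by exact_mod_cast hu
  have hr' : (1 : ℤ) ≤ r := by exact_mod_cast hr
  have hu1 : 1 ≤ u 0 := by linarith
  obtain ⟨A⟩ := axis_exists u Λ hu1 hΛ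
  have hreg' := hreg u A hu'
  have hpos := port_pos RS A hp hr hu' hreg'
  obtain ⟨cst, hcm, hci, hplain⟩ := plain_ae RS A hL hr hu' hpos
  have hio := amod_io RS A hL hp hr hu' hreg' (b := b) (C₁ := C₁) hs hns
  have hu0 : (0 : ℝ) < u 0 := by exact_mod_cast (by linarith : 0 < u 0)
  have hE : 8 * b * (1 / (8 * (b + 1) * (D + 1))) *
      ((∫⁻ ω, cost RS A r 0 ω ∂(prodBern (El (n + 2)) p)).toReal + 1) ≤ u 0 := by
    have h1 : (∫⁻ ω, cost RS A r 0 ω ∂(prodBern (El (n + 2)) p)).toReal ≤ D * u 0 := by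
      refine ENNReal.toReal_le_of_le_ofReal (by positivity) ((cost_int RS A r 0).trans ?_)
      have h2 : (A.len : ℝ) ≤ K * u 0 := by exact_mod_cast A.len_le
      have h3 : (1 : ℝ) ≤ u 0 := by exact_mod_cast hu1
      have h4 : (((2 * (Bx (0 : V (n + 2)) (3 * r - 1)).card + 2 : ℕ) : ENNReal)
          + 5 * (A.len * ENNReal.ofReal RS.C)) = ENNReal.ofReal
            ((2 * (Bx (0 : V (n + 2)) (3 * r - 1)).card + 2 : ℕ) + 5 * (A.len * RS.C)) := by
        rw [ENNReal.ofReal_add (by positivity) (by positivity), ENNReal.ofReal_natCast,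
          ENNReal.ofReal_mul (by norm_num), ENNReal.ofReal_mul (by positivity),
          ENNReal.ofReal_natCast]
        norm_num
      rw [h4]
      apply ENNReal.ofReal_le_ofReal
      have h5 : (0 : ℝ) ≤ ((2 * (Bx (0 : V (n + 2)) (3 * r - 1)).card + 2 : ℕ) : ℝ) := by positivity
      have h6 : (A.len : ℝ) * RS.C ≤ K * u 0 * RS.C := mul_le_mul_of_nonneg_right h2 hC.le
      rw [hD]
      nlinarith
    have h7 : 8 * b * (1 / (8 * (b + 1) * (D + 1))) = (b / (b + 1)) * (1 / (D + 1)) := by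
      field_simp
    rw [h7]
    have h8 : b / (b + 1) ≤ 1 := by
      rw [div_le_one (by linarith)]
      linarith
    have h9 : (1 : ℝ) ≤ u 0 := by exact_mod_cast hu1
    have h10 : (∫⁻ ω, cost RS A r 0 ω ∂(prodBern (El (n + 2)) p)).toReal + 1 ≤ (D + 1) * u 0 := by
      nlinarith
    calc (b / (b + 1)) * (1 / (D + 1)) *
        ((∫⁻ ω, cost RS A r 0 ω ∂(prodBern (El (n + 2)) p)).toReal + 1)
        ≤ 1 * (1 / (D + 1)) * ((D + 1) * u 0) := by
          gcongr
      _ = u 0 := by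
          field_simp
  have hrich := rich_ae RS A hL hr hu' hpos hb hc (by positivity) hE hs hio
  have habs : AbsA κ p 0 u b (prodBern (El (n + 2)) p) (tr (fun y => y + u)) id (Port RS A r) cst :=
    { hv := hu1
      hb := hb
      prob := inferInstance
      hT := (erg_shift p u (fun h => by rw [h] at hu1; simp at hu1)).toMeasurePreserving
      hX := measurable_id
      law := Measure.map_id
      equiv := fun w => rfl
      port_meas := port_meas RS A r
      port_pos := hpos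
      cost_meas := hcm
      cost_int := hci
      plain := hplain
      rich := hrich }
  exact absA habs (by linarith)

end Pool.Agent.H75.TA
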