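import Pool.Agent.H75.TA.AxisFacts

/-!
# TA module StLoc: half stations are local, measurable and equivariant
-/

open MeasureTheory Filter Topology
open Pool.Agent.H17.IIC Pool.Agent.H41.QC Pool.Agent.H47.GM Pool.Agent.H17.QA Pool.Agent.H41.QA

namespace Pool.Agent.H75.TA

variable {n : ℕ} {κ : Kind} {p : unitInterval} {u : V (n + 2)} {K : ℕ}

/-- elements in front of `m u` in direction `σ` -/
def Front (u : V (n + 2)) (σ m : ℤ) : Set (El (n + 2)) :=
  {e | (∀ v ∈ e, 0 ≤ σ * (v 0 - m * u 0)) ∧ ∃ v ∈ e, 0 < σ * (v 0 - m * u 0)}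

lemma stLoc_inE_coe (c : V (n + 2)) (r : ℕ) :
    (InE (Bx c r : Set (V (n + 2)))) = (((Bx c r).sym2 : Finset (El (n + 2))) : Set (El (n + 2))) := by
  ext e
  rw [Finset.mem_coe, Finset.mem_sym2_iff]
  constructor
  · intro h v hv
    exact Finset.mem_coe.1 (h v hv)
  · intro h v hv
    exact Finset.mem_coe.2 (h v hv)

theorem inE_finite (c : V (n + 2)) (r : ℕ) : (InE (Bx c r : Set (V (n + 2)))).Finite := by
  rw [stLoc_inE_coe]
  exact Finset.finite_toSet _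

theorem hb_finite (u : V (n + 2)) (r : ℕ) (σ m : ℤ) : (HB u r σ m).Finite :=
  (inE_finite _ _).union (Set.finite_singleton _)

lemma stLoc_e0 (s : ℤ) : (e0 s : V (n + 2)) 0 = s := by
  simp [e0]

lemma stLoc_mul (u : V (n + 2)) (m : ℤ) : (m • u) 0 = m * u 0 := by
  simp

lemma stLoc_box {u : V (n + 2)} {r : ℕ} (hr : 1 ≤ r) {σ : ℤ} (hσ : σ = 1 ∨ σ = -1) (m : ℤ)
    {v : V (n + 2)} (hv : v ∈ Bx (m • u + e0 (3 * r * σ)) (3 * r - 1)) :
    1 ≤ σ * (v 0 - m * u 0) ∧ σ * (v 0 - m * u 0) ≤ 6 * r - 1 := by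
  have h := (mem_Bx.1 hv) 0
  rw [Pi.add_apply, stLoc_e0, stLoc_mul] at h
  have hc : (((3 * r - 1 : ℕ)) : ℤ) = 3 * r - 1 := by
    have : 1 ≤ 3 * r := by omega
    push_cast [Nat.cast_sub this]
    ring
  rw [hc, abs_le] at h
  rcases hσ with rfl | rfl
  · constructor <;> linarith [h.1, h.2]
  · constructor <;> linarith [h.1, h.2]

lemma stLoc_edge {u : V (n + 2)} {σ : ℤ} (hσ : σ = 1 ∨ σ = -1) (m : ℤ) :
    σ * ((m • u : V (n + 2)) 0 - m * u 0) = 0 ∧ σ * ((m • u + e0 σ : V (n + 2)) 0 - m * u 0) = 1 := by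
  rw [Pi.add_apply, stLoc_e0, stLoc_mul]
  rcases hσ with rfl | rfl
  · constructor <;> ring
  · constructor <;> ring

theorem hb_front (u : V (n + 2)) {r : ℕ} (hr : 1 ≤ r) {σ : ℤ} (hσ : σ = 1 ∨ σ = -1) (m : ℤ) :
    HB u r σ m ⊆ Front u σ m := by
  intro e he
  rcases he with he | he
  · refine ⟨fun v hv => ?_, ?_⟩
    · have := (stLoc_box hr hσ m (Finset.mem_coe.1 (he v hv))).1
      linarith
    · induction e using Sym2.ind with
      | _ a b =>
        refine ⟨a, Sym2.mem_mk_left a b, ?_⟩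
        have := (stLoc_box hr hσ m (Finset.mem_coe.1 (he a (Sym2.mem_mk_left a b)))).1
        linarith
  · rw [Set.mem_singleton_iff] at he
    subst he
    obtain ⟨h0, h1⟩ := stLoc_edge (u := u) hσ m
    refine ⟨fun v hv => ?_, ⟨m • u + e0 σ, Sym2.mem_mk_right _ _, ?_⟩⟩
    · rcases Sym2.mem_iff.1 hv with rfl | rfl
      · rw [h0]
      · rw [h1]; norm_num
    · rw [h1]; norm_num

theorem hb_near (u : V (n + 2)) {r : ℕ} (hr : 1 ≤ r) {σ : ℤ} (hσ : σ = 1 ∨ σ = -1) (m : ℤ)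
    {e : El (n + 2)} (he : e ∈ HB u r σ m) {v : V (n + 2)} (hv : v ∈ e) :
    σ * (v 0 - m * u 0) ≤ 6 * r - 1 := by
  rcases he with he | he
  · exact (stLoc_box hr hσ m (Finset.mem_coe.1 (he v hv))).2
  · rw [Set.mem_singleton_iff] at he
    subst he
    obtain ⟨h0, h1⟩ := stLoc_edge (u := u) hσ m
    have hr' : (1 : ℤ) ≤ r := by exact_mod_cast hr
    rcases Sym2.mem_iff.1 hv with rfl | rfl
    · rw [h0]; linarith
    · rw [h1]; linarith

theorem reg_meas (RS : RoadSys κ (n + 2) p) (z : V (n + 2)) (r : ℕ) :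
    MeasurableSet (RS.reg z r) := by
  have h := RS.reg_on z r
  rw [stLoc_inE_coe] at h
  exact h.measurableSet

theorem rg_meas (RS : RoadSys κ (n + 2) p) (A : Axis u K) (r : ℕ) (σ m : ℤ) (J : Set ℤ) :
    MeasurableSet (Rg RS A r σ m J) := by
  have h : Rg RS A r σ m J = ⋂ t : ℕ, ⋂ (_ : 3 * r ≤ t), ⋂ (_ : off A σ m t ∈ J),
      RS.reg (A.ax (m * A.len + σ * t)) (rad r (off A σ m t)) := by
    ext ω
    simp only [Rg, Set.mem_ofPred_eq, Set.mem_iInter]
  rw [h]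
  exact MeasurableSet.iInter fun t => MeasurableSet.iInter fun _ => MeasurableSet.iInter fun _ =>
    reg_meas RS _ _

theorem st_meas (RS : RoadSys κ (n + 2) p) (A : Axis u K) (r : ℕ) (σ m : ℤ) (J : Set ℤ) :
    MeasurableSet (St RS A r σ m J) := by
  have h1 : MeasurableSet {ω : El (n + 2) → Bool | ∀ e ∈ HB u r σ m, ω e = true} := by
    have h : {ω : El (n + 2) → Bool | ∀ e ∈ HB u r σ m, ω e = true} =
        ⋂ e ∈ HB u r σ m, {ω : El (n + 2) → Bool | ω e = true} := by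
      ext ω
      simp only [Set.mem_ofPred_eq, Set.mem_iInter]
    rw [h]
    refine MeasurableSet.biInter (hb_finite u r σ m).countable fun e _ => ?_
    exact measurableSet_eq_fun (measurable_pi_apply e) measurable_const
  exact h1.inter (half_meas p _ (rg_meas RS A r σ m J))

theorem rg_mono (RS : RoadSys κ (n + 2) p) (A : Axis u K) (r : ℕ) (σ m : ℤ) {J J' : Set ℤ}
    (h : J ⊆ J') : Rg RS A r σ m J' ⊆ Rg RS A r σ m J :=
  fun _ hω t ht hJ => hω t ht (h hJ)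

theorem st_mono (RS : RoadSys κ (n + 2) p) (A : Axis u K) (r : ℕ) (σ m : ℤ) {J J' : Set ℤ}
    (h : J ⊆ J') : St RS A r σ m J' ⊆ St RS A r σ m J := by
  intro ω hω
  refine ⟨hω.1, hω.2.trans ?_⟩
  exact measureReal_mono (fun x hx => rg_mono RS A r σ m h hx) (measure_ne_top _ _)

/-- locality criterion -/
lemma stLoc_on (RS : RoadSys κ (n + 2) p) (A : Axis u K) (r : ℕ) (σ m : ℤ) (J : Set ℤ)
    {D : Set (El (n + 2))} (hD : HB u r σ m ⊆ D)
    (hR : ∀ t : ℕ, 3 * r ≤ t → off A σ m t ∈ J →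
      InE (Bx (A.ax (m * A.len + σ * t)) (rad r (off A σ m t)) : Set (V (n + 2))) ⊆ D) :
    On D (St RS A r σ m J) := by
  have key : ∀ ω ω' : El (n + 2) → Bool, (∀ i ∈ D, ω i = ω' i) →
      ω ∈ St RS A r σ m J → ω' ∈ St RS A r σ m J := by
    intro ω ω' h hω
    refine ⟨fun e he => by rw [← h e (hD he)]; exact hω.1 e he, hω.2.trans ?_⟩
    refine measureReal_mono (fun x hx => ?_) (measure_ne_top _ _)
    intro t ht hJ
    refine ((RS.reg_on _ _) (mix (HB u r σ m) x ω) (mix (HB u r σ m) x ω') ?_).1 (hx t ht hJ)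
    intro e he
    by_cases hH : e ∈ HB u r σ m
    · rw [mix_in _ _ hH, mix_in _ _ hH]
    · rw [mix_out _ _ hH, mix_out _ _ hH]
      exact h e (hR t ht hJ he)
  exact fun ω ω' h => ⟨key ω ω' h, key ω' ω fun i hi => (h i hi).symm⟩

lemma stLoc_off (A : Axis u K) {r : ℕ} (hu : 100 * (r : ℤ) ≤ u 0) {σ : ℤ}
    (hσ : σ = 1 ∨ σ = -1) (m : ℤ) {t : ℕ} (ht : 3 * r ≤ t) : 3 * (r : ℤ) ≤ off A σ m t := by
  have h1 := off_mono A hσ m ht
  rw [off_near A hσ m (t := 3 * r) (by push_cast; linarith [Int.natCast_nonneg r])] at h1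
  push_cast at h1
  exact h1

lemma stLoc_sub (A : Axis u K) {r : ℕ} {σ : ℤ} (hσ : σ = 1 ∨ σ = -1) (m : ℤ) {t : ℕ}
    {v : V (n + 2)} (hv : v ∈ Bx (A.ax (m * A.len + σ * t)) (rad r (off A σ m t))) :
    off A σ m t - rad r (off A σ m t) ≤ σ * (v 0 - m * u 0) ∧
      σ * (v 0 - m * u 0) ≤ off A σ m t + rad r (off A σ m t) := by
  have h := abs_le.1 ((mem_Bx.1 hv) 0)
  have ho : off A σ m t = σ * (A.ax (m * A.len + σ * t) 0 - m * u 0) := rfl
  generalize off A σ m t = o at *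
  generalize (rad r o : ℤ) = R at *
  generalize A.ax (m * A.len + σ * t) 0 = y at *
  subst ho
  rcases hσ with rfl | rfl
  · constructor <;> linarith [h.1, h.2]
  · constructor <;> linarith [h.1, h.2]

lemma stLoc_rad (r : ℕ) {h : ℤ} (hh : 0 ≤ h) :
    (rad r h : ℤ) = r ∨ 16 * (rad r h : ℤ) ≤ h := by
  unfold rad
  rcases le_total r (h.toNat / 16) with h1 | h1
  · right
    rw [max_eq_right h1]
    have : (h.toNat : ℤ) = h := Int.toNat_of_nonneg hh
    omega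
  · left
    rw [max_eq_left h1]

theorem st_front (RS : RoadSys κ (n + 2) p) (A : Axis u K) {r : ℕ} (hr : 1 ≤ r)
    (hu : 100 * (r : ℤ) ≤ u 0) {σ : ℤ} (hσ : σ = 1 ∨ σ = -1) (m : ℤ) (J : Set ℤ) :
    On (Front u σ m) (St RS A r σ m J) := by
  refine stLoc_on RS A r σ m J (hb_front u hr hσ m) ?_
  intro t ht _ e he
  have h1 := stLoc_off A hu hσ m ht
  have hr' : (1 : ℤ) ≤ r := by exact_mod_cast hr
  have key : ∀ v ∈ e, 0 < σ * (v 0 - m * u 0) := by
    intro v hv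
    have h2 := (stLoc_sub A hσ m (Finset.mem_coe.1 (he v hv))).1
    rcases stLoc_rad r (h := off A σ m t) (by linarith) with h3 | h3
    · linarith
    · linarith
  refine ⟨fun v hv => (key v hv).le, ?_⟩
  induction e using Sym2.ind with
  | _ a b => exact ⟨a, Sym2.mem_mk_left a b, key a (Sym2.mem_mk_left a b)⟩

/-- locality for bounded `J`: reach at most `9 / 16 * H` -/
theorem st_bd (RS : RoadSys κ (n + 2) p) (A : Axis u K) {r : ℕ} (hr : 1 ≤ r)
    (hu : 100 * (r : ℤ) ≤ u 0) {σ : ℤ} (hσ : σ = 1 ∨ σ = -1) (m : ℤ) {J : Set ℤ} {H : ℤ}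
    (hH : u 0 ≤ H) (hJ : ∀ h ∈ J, 2 * h ≤ H) :
    On {e | ∀ v ∈ e, 0 ≤ σ * (v 0 - m * u 0) ∧ 16 * (σ * (v 0 - m * u 0)) ≤ 9 * H}
      (St RS A r σ m J) := by
  have hr' : (1 : ℤ) ≤ r := by exact_mod_cast hr
  refine stLoc_on RS A r σ m J ?_ ?_
  · intro e he v hv
    refine ⟨(hb_front u hr hσ m he).1 v hv, ?_⟩
    have := hb_near u hr hσ m he hv
    linarith
  · intro t ht htJ e he v hv
    have h1 := stLoc_off A hu hσ m ht
    have h2 := stLoc_sub A hσ m (Finset.mem_coe.1 (he v hv))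
    have h4 := hJ _ htJ
    rcases stLoc_rad r (h := off A σ m t) (by linarith) with h3 | h3
    · constructor
      · linarith [h2.1]
      · linarith [h2.2]
    · constructor
      · linarith [h2.1]
      · linarith [h2.2]

end Pool.Agent.H75.TA
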