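import Pool.Agent.H75.TA.StLoc

/-!
# TA module StShift: half stations are equivariant
-/

open MeasureTheory Filter Topology
open Pool.Agent.H17.IIC Pool.Agent.H41.QC Pool.Agent.H47.GM Pool.Agent.H17.QA Pool.Agent.H41.QA

namespace Pool.Agent.H75.TA

variable {n : ℕ} {κ : Kind} {p : unitInterval} {u : V (n + 2)} {K : ℕ}

lemma StShift_inE {d : ℕ} (c v : V d) (r : ℕ) :
    (fun e : El d => e.map (fun y => y + v)) '' InE (Bx c r : Set (V d)) =
      InE (Bx (c + v) r : Set (V d)) := by
  ext e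
  constructor
  · rintro ⟨e, he, rfl⟩ w hw
    rw [Sym2.mem_map] at hw
    obtain ⟨w, hw, rfl⟩ := hw
    have h := he w hw
    rw [Finset.mem_coe, mem_Bx] at h ⊢
    intro i
    have := h i
    simp only [Pi.add_apply]
    rwa [add_sub_add_right_eq_sub]
  · intro he
    refine ⟨e.map (fun y => y + -v), ?_, ?_⟩
    · intro w hw
      rw [Sym2.mem_map] at hw
      obtain ⟨w, hw, rfl⟩ := hw
      have h := he w hw
      rw [Finset.mem_coe, mem_Bx] at h ⊢
      intro i
      have := h i
      simp only [Pi.add_apply, Pi.neg_apply] at this ⊢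
      rw [show w i + -v i - c i = w i - (c i + v i) by ring]
      exact this
    · simp only [Sym2.map_map]
      have : ((fun y : V d => y + v) ∘ fun y => y + -v) = id := by
        funext y
        simp
      rw [this, Sym2.map_id]
      rfl

/-- translates of `HB` -/
theorem hb_shift (u : V (n + 2)) (r : ℕ) (σ m m' : ℤ) :
    (fun e : El (n + 2) => e.map (fun y => y + m • u)) '' HB u r σ m' = HB u r σ (m + m') := by
  unfold HB
  rw [Set.image_union, StShift_inE, Set.image_singleton]
  simp only [Sym2.map_mk]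
  have h1 : m' • u + e0 (3 * r * σ) + m • u = (m + m') • u + e0 (3 * r * σ) := by
    rw [add_smul]; abel
  have h2 : m' • u + m • u = (m + m') • u := by
    rw [add_smul]; abel
  have h3 : m' • u + e0 σ + m • u = (m + m') • u + e0 σ := by
    rw [add_smul]; abel
  rw [h1, h2, h3]

lemma StShift_vec (RS : RoadSys κ (n + 2) p) (hL : ∀ i, (RS.L : ℤ) ∣ u i) (m : ℤ) :
    ∃ v : V (n + 2), m • u = (RS.L : ℤ) • v := by
  refine ⟨fun i => m * (u i / RS.L), ?_⟩
  funext i
  simp only [Pi.smul_apply, smul_eq_mul]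
  rw [mul_left_comm, Int.mul_ediv_cancel' (hL i)]

theorem rg_shift (RS : RoadSys κ (n + 2) p) (A : Axis u K) (hL : ∀ i, (RS.L : ℤ) ∣ u i) (r : ℕ)
    (σ m m' : ℤ) (J : Set ℤ) (ω : El (n + 2) → Bool) :
    ω ∈ Rg RS A r σ (m + m') J ↔ tr (fun y => y + m • u) ω ∈ Rg RS A r σ m' J := by
  obtain ⟨v, hv⟩ := StShift_vec RS hL m
  unfold Rg
  simp only [Set.mem_ofPred_eq]
  refine forall_congr' fun t => ?_
  rw [off_zero A σ (m + m') t, off_zero A σ m' t]
  refine imp_congr_right fun _ => imp_congr_right fun _ => ?_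
  have h : A.ax ((m + m') * A.len + σ * t) = A.ax (m' * A.len + σ * t) + m • u := by
    rw [A.per_mul (m + m'), A.per_mul m', add_smul]
    abel
  rw [h, hv]
  exact RS.shift_reg v _ _ ω

theorem st_shift (RS : RoadSys κ (n + 2) p) (A : Axis u K) (hL : ∀ i, (RS.L : ℤ) ∣ u i) (r : ℕ)
    (σ m m' : ℤ) (J : Set ℤ) (ω : El (n + 2) → Bool) :
    ω ∈ St RS A r σ (m + m') J ↔ tr (fun y => y + m • u) ω ∈ St RS A r σ m' J := by
  unfold St
  simp only [Set.mem_ofPred_eq]
  have h := half_tr p (Equiv.addRight (m • u)) (HB u r σ m') (rg_meas RS A r σ m' J) ω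
  have h0 : (⇑(Equiv.addRight (m • u)) : V (n + 2) → V (n + 2)) = fun y => y + m • u := rfl
  rw [h0, hb_shift] at h
  rw [h]
  refine and_congr ?_ ?_
  · rw [← hb_shift u r σ m m']
    constructor
    · intro h1 e he
      exact h1 _ ⟨e, he, rfl⟩
    · rintro h1 _ ⟨e, he, rfl⟩
      exact h1 e he
  · have h2 : {x : El (n + 2) → Bool | mix (HB u r σ (m + m')) x ω ∈ Rg RS A r σ (m + m') J} =
        {x | tr (fun y => y + m • u) (mix (HB u r σ (m + m')) x ω) ∈ Rg RS A r σ m' J} := by
      ext x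
      exact rg_shift RS A hL r σ m m' J _
    rw [h2]

/-- probability is translation invariant -/
theorem st_prob (RS : RoadSys κ (n + 2) p) (A : Axis u K) (hL : ∀ i, (RS.L : ℤ) ∣ u i) (r : ℕ)
    (σ m : ℤ) (J : Set ℤ) : (prodBern (El (n + 2)) p).real (St RS A r σ m J) =
      (prodBern (El (n + 2)) p).real (St RS A r σ 0 J) := by
  have h1 : St RS A r σ m J = tr (fun y => y + m • u) ⁻¹' St RS A r σ 0 J := by
    ext ω
    rw [Set.mem_preimage, ← st_shift RS A hL r σ m 0 J ω, add_zero]
  have hm : Measurable (tr (fun y : V (n + 2) => y + m • u)) :=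
    mu_measurable_comp (fun e : El (n + 2) => e.map (fun y => y + m • u))
  have h2 := tr_law (Equiv.addRight (m • u)) p
  have h0 : (⇑(Equiv.addRight (m • u)) : V (n + 2) → V (n + 2)) = fun y => y + m • u := rfl
  rw [h0] at h2
  conv_rhs => rw [← h2]
  rw [measureReal_def, measureReal_def, Measure.map_apply hm (st_meas RS A r σ 0 J), h1]

end Pool.Agent.H75.TA
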